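import Pool.Agent.Helper13.HG.Defs

/-!
# HG, block BTL, part B2: a prescribed quadratic character modulo one prime; coordinates

`sq_count5`: the residue field has an odd number `q` of elements; `(q - 1)/2` of them are non-zero squares, `(q - 1)/2` are
non-squares (`FiniteField`, `quadraticChar_sum_zero`). `coord5`: `NumberField.house.basis_repr_norm_le_const_mul_house`.
-/

set_option autoImplicit false

namespace Pool.Agent.HG

open NumberField IsDedekindDomain

theorem card_quot5 {L : Type} [Field L] [NumberField L] (q : Pr L) : Nat.card (𝓞 L ⧸ q.asIdeal) = nm q ∧ 2 ≤ nm q := by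
  refine ⟨?_, HeightOneSpectrum.one_lt_absNorm q⟩
  rw [nm, Ideal.absNorm_apply, Submodule.cardQuot_apply]

private lemma sqF29 {F : Type} [Field F] [Fintype F] (hodd : Odd (Fintype.card F)) (η : Prop) (G : Finset F)
    (hG : ∀ g ∈ G, g ≠ 0 ∧ (IsSquare g ↔ η)) : 2 * G.card ≤ Fintype.card F := by
  classical
  have hc : ringChar F ≠ 2 := by
    intro h
    have h1 := FiniteField.even_card_iff_char_two.1 h
    rw [Nat.odd_iff] at hodd
    omega
  have hs := quadraticChar_sum_zero hc
  set A : Finset F := Finset.univ.filter fun a => quadraticChar F a = 1 with hA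
  set B : Finset F := Finset.univ.filter fun a => quadraticChar F a = -1 with hB
  have h1 : (A.card : ℤ) = B.card := by
    have h2 : ∑ a : F, quadraticChar F a = ∑ a : F, ((if quadraticChar F a = 1 then 1 else 0) - (if quadraticChar F a = -1 then 1 else 0)) := by
      refine Finset.sum_congr rfl fun a _ => ?_
      by_cases ha : a = 0
      · simp [ha]
      · rcases quadraticChar_dichotomy ha with h | h <;> simp [h]
    rw [hs, Finset.sum_sub_distrib, Finset.sum_boole, Finset.sum_boole] at h2
    simp only [hA, hB]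
    linarith
  have h2 : A.card = B.card := by exact_mod_cast h1
  have h3 : Disjoint A B := by
    rw [Finset.disjoint_left]
    intro a ha hb
    have e1 := (Finset.mem_filter.1 ha).2
    have e2 := (Finset.mem_filter.1 hb).2
    rw [e1] at e2
    norm_num at e2
  have h4 : A.card + B.card ≤ Fintype.card F := by
    rw [← Finset.card_union_of_disjoint h3]
    exact Finset.card_le_univ _
  by_cases hη : η
  · have h5 : G ⊆ A := by
      intro g hg
      obtain ⟨h0, h6⟩ := hG g hg
      refine Finset.mem_filter.2 ⟨Finset.mem_univ _, ?_⟩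
      exact (quadraticChar_one_iff_isSquare h0).2 (h6.2 hη)
    have := Finset.card_le_card h5
    omega
  · have h5 : G ⊆ B := by
      intro g hg
      obtain ⟨h0, h6⟩ := hG g hg
      refine Finset.mem_filter.2 ⟨Finset.mem_univ _, ?_⟩
      exact quadraticChar_neg_one_iff_not_isSquare.2 fun h => hη (h6.1 h)
    have := Finset.card_le_card h5
    omega

/-- the classes with a prescribed character are at most half of all classes -/
theorem sq_count5 {L : Type} [Field L] [NumberField L] (q : Pr L) (hq : Odd (nm q)) (η : Prop)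
    (G : Finset (𝓞 L ⧸ q.asIdeal)) (hG : ∀ g ∈ G, g ≠ 0 ∧ (IsSquare g ↔ η)) : (G.card : ℝ) ≤ nm q / 2 := by
  obtain ⟨h1, h2⟩ := card_quot5 q
  have : q.asIdeal.IsMaximal := q.isMaximal
  have : Finite (𝓞 L ⧸ q.asIdeal) := Nat.finite_of_card_ne_zero (by omega)
  let _ : Fintype (𝓞 L ⧸ q.asIdeal) := Fintype.ofFinite _
  let _ := Ideal.Quotient.field q.asIdeal
  have h3 : Fintype.card (𝓞 L ⧸ q.asIdeal) = nm q := by rw [← h1, Nat.card_eq_fintype_card]
  have h4 := sqF29 (F := 𝓞 L ⧸ q.asIdeal) (by rw [h3]; exact hq) η G hG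
  rw [h3] at h4
  rw [le_div_iff₀ (by norm_num)]
  have : ((2 * G.card : ℕ) : ℝ) ≤ nm q := by exact_mod_cast h4
  push_cast at this
  linarith

/-- the coordinates of an integer in a basis are bounded by the absolute values of its conjugates -/
theorem coord5 (L : Type) [Field L] [NumberField L] : ∃ (ι : Type) (_ : Fintype ι) (b : Module.Basis ι ℤ (𝓞 L)) (c : ℝ),
    1 ≤ c ∧ Fintype.card ι = Module.finrank ℚ L ∧ ∀ (x : 𝓞 L) (B : ℝ), (∀ φ : L →+* ℂ, ‖φ x‖ ≤ B) → ∀ i, |((b.repr x i : ℤ) : ℝ)| ≤ c * B := by
  classical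
  set N : Matrix (L →+* ℂ) (L →+* ℂ) ℂ := ((basisMatrix L).transpose)⁻¹ with hN
  refine ⟨_, inferInstance, RingOfIntegers.basis L, max 1 (∑ i, ∑ j, ‖N i j‖), le_max_left _ _, ?_, fun x B hB i => ?_⟩
  · rw [← Module.finrank_eq_card_basis (RingOfIntegers.basis L), RingOfIntegers.rank]
  · have hB0 : 0 ≤ B := (norm_nonneg _).trans (hB (Classical.arbitrary (L →+* ℂ)))
    have h1 := inverse_basisMatrix_mulVec_eq_repr (K := L) x ((equivReindex L).symm i)
    have h2 : (((integralBasis L).reindex (equivReindex L).symm).repr x ((equivReindex L).symm i) : ℂ) =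
        (((RingOfIntegers.basis L).repr x i : ℤ) : ℂ) := by
      rw [Module.Basis.repr_reindex_apply, Equiv.symm_symm, Equiv.apply_symm_apply, integralBasis_repr_apply]
      simp
    rw [h2] at h1
    have h3 : |(((RingOfIntegers.basis L).repr x i : ℤ) : ℝ)| = ‖(((RingOfIntegers.basis L).repr x i : ℤ) : ℂ)‖ := by
      rw [Complex.norm_intCast]
    rw [h3, ← h1]
    calc ‖(N.mulVec fun j => canonicalEmbedding L (algebraMap (𝓞 L) L x) j) ((equivReindex L).symm i)‖
        ≤ ∑ j, ‖N ((equivReindex L).symm i) j * canonicalEmbedding L (algebraMap (𝓞 L) L x) j‖ := by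
          rw [Matrix.mulVec, dotProduct]
          exact norm_sum_le _ _
      _ ≤ ∑ j, ‖N ((equivReindex L).symm i) j‖ * B := by
          refine Finset.sum_le_sum fun j _ => ?_
          rw [norm_mul]
          exact mul_le_mul_of_nonneg_left (hB j) (norm_nonneg _)
      _ = (∑ j, ‖N ((equivReindex L).symm i) j‖) * B := by rw [Finset.sum_mul]
      _ ≤ max 1 (∑ i, ∑ j, ‖N i j‖) * B := by
          refine mul_le_mul_of_nonneg_right ?_ hB0
          refine le_trans ?_ (le_max_right _ _)
          exact Finset.single_le_sum (f := fun i => ∑ j, ‖N i j‖) (fun i _ => Finset.sum_nonneg fun j _ => norm_nonneg _)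
            (Finset.mem_univ _)

end Pool.Agent.HG
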