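import Mathlib

/-!
# HG, block BTL, part B3: truncated inclusion and exclusion (Bonferroni) over finite sets
-/

set_option autoImplicit false

namespace Pool.Agent.HG

open Finset

open Classical in
/-- the alternating sum over the subsets with at most `2 r` elements -/
theorem bonf_card5 {X : Type*} (Q : Finset X) (r : ℕ) :
    ∑ S ∈ Q.powerset.filter (fun S => S.card ≤ 2 * r), (-1 : ℝ) ^ S.card =
      ∑ j ∈ range (2 * r + 1), (-1 : ℝ) ^ j * (Q.card.choose j : ℝ) := by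
  have e : Q.powerset.filter (fun S => S.card ≤ 2 * r) =
      (range (2 * r + 1)).biUnion fun j => powersetCard j Q := by
    ext S
    simp only [mem_filter, mem_powerset, mem_biUnion, mem_range, mem_powersetCard]
    constructor
    · rintro ⟨h1, h2⟩
      exact ⟨S.card, by omega, h1, rfl⟩
    · rintro ⟨j, h1, h2, h3⟩
      exact ⟨h2, by omega⟩
  rw [e, sum_biUnion]
  · refine sum_congr rfl fun j _ => ?_
    rw [sum_congr rfl (g := fun _ => (-1 : ℝ) ^ j) fun S hS => by rw [(mem_powersetCard.1 hS).2],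
      sum_const, card_powersetCard, nsmul_eq_mul, mul_comm]
  · intro i _ j _ hij
    exact disjoint_left.2 fun S h1 h2 => hij ((mem_powersetCard.1 h1).2.symm.trans
      (mem_powersetCard.1 h2).2)

theorem bonf_nonneg5 (n r : ℕ) :
    (if n = 0 then 1 else 0 : ℝ) ≤ ∑ j ∈ range (2 * r + 1), (-1 : ℝ) ^ j * (n.choose j : ℝ) := by
  rcases n with _ | n
  · rw [if_pos rfl, sum_range_succ', sum_eq_zero]
    · simp
    · intro j _
      simp
  · rw [if_neg (Nat.succ_ne_zero n)]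
    have h : ∑ j ∈ range (2 * r + 1), (-1 : ℤ) ^ j * ((n + 1).choose j : ℤ) =
        (-1) ^ (2 * r) * (n.choose (2 * r) : ℤ) := Int.alternating_sum_range_choose_eq_choose
    have h2 := congrArg (fun t : ℤ => (t : ℝ)) h
    push_cast at h2
    rw [h2, pow_mul]
    simp

open Classical in
/-- **Bonferroni** -/
theorem bonf5 {X : Type*} (Q : Finset X) (E : X → Prop) (r : ℕ) :
    (if ∀ q ∈ Q, ¬ E q then 1 else 0 : ℝ) ≤
      ∑ S ∈ Q.powerset.filter (fun S => S.card ≤ 2 * r),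
        (-1 : ℝ) ^ S.card * (if ∀ q ∈ S, E q then 1 else 0) := by
  have e : ∑ S ∈ Q.powerset.filter (fun S => S.card ≤ 2 * r),
        (-1 : ℝ) ^ S.card * (if ∀ q ∈ S, E q then 1 else 0) =
      ∑ S ∈ (Q.filter E).powerset.filter (fun S => S.card ≤ 2 * r), (-1 : ℝ) ^ S.card := by
    rw [← sum_subset (s₁ := (Q.filter E).powerset.filter (fun S => S.card ≤ 2 * r))]
    · refine sum_congr rfl fun S hS => ?_
      rw [mem_filter, mem_powerset] at hS
      rw [if_pos fun q hq => (mem_filter.1 (hS.1 hq)).2, mul_one]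
    · intro S hS
      rw [mem_filter, mem_powerset] at hS ⊢
      exact ⟨hS.1.trans (filter_subset _ _), hS.2⟩
    · intro S hS hS'
      rw [mem_filter, mem_powerset] at hS hS'
      rw [if_neg, mul_zero]
      intro h
      exact hS' ⟨fun q hq => mem_filter.2 ⟨hS.1 hq, h q hq⟩, hS.2⟩
  rw [e, bonf_card5]
  refine le_trans (le_of_eq ?_) (bonf_nonneg5 _ r)
  congr 1
  rw [card_eq_zero, filter_eq_empty_iff]

/-- Rankin's trick -/
theorem rankin5 {X : Type*} (Q : Finset X) (δ : X → ℝ) (h0 : ∀ q ∈ Q, 0 ≤ δ q) (r : ℕ) :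
    ∑ S ∈ Q.powerset.filter (fun S => ¬ S.card ≤ 2 * r), ∏ q ∈ S, δ q ≤
      (1 / 8) ^ (2 * r + 1) * ∏ q ∈ Q, (1 + 8 * δ q) := by
  classical
  have e : ∏ q ∈ Q, (1 + 8 * δ q) = ∑ S ∈ Q.powerset, (8 : ℝ) ^ S.card * ∏ q ∈ S, δ q := by
    rw [prod_congr rfl fun q _ => add_comm 1 (8 * δ q), prod_add]
    refine sum_congr rfl fun S _ => ?_
    rw [prod_mul_distrib, prod_const, prod_const_one, mul_one]
  rw [e, mul_sum]
  refine (sum_le_sum (g := fun S => (1 / 8 : ℝ) ^ (2 * r + 1) * ((8 : ℝ) ^ S.card * ∏ q ∈ S, δ q))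
    fun S hS => ?_).trans (sum_le_sum_of_subset_of_nonneg (filter_subset _ _) fun S hS _ => ?_)
  · rw [mem_filter, mem_powerset] at hS
    have h1 : 0 ≤ ∏ q ∈ S, δ q := prod_nonneg fun q hq => h0 q (hS.1 hq)
    have h2 : (1 : ℝ) ≤ (1 / 8 : ℝ) ^ (2 * r + 1) * (8 : ℝ) ^ S.card := by
      have h3 : (8 : ℝ) ^ (2 * r + 1) ≤ (8 : ℝ) ^ S.card :=
        pow_le_pow_right₀ (by norm_num) (by omega)
      have h4 : (1 / 8 : ℝ) ^ (2 * r + 1) * (8 : ℝ) ^ (2 * r + 1) = 1 := by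
        rw [← mul_pow]
        norm_num
      calc (1 : ℝ) = (1 / 8 : ℝ) ^ (2 * r + 1) * (8 : ℝ) ^ (2 * r + 1) := h4.symm
        _ ≤ _ := mul_le_mul_of_nonneg_left h3 (by positivity)
    calc ∏ q ∈ S, δ q = 1 * ∏ q ∈ S, δ q := (one_mul _).symm
      _ ≤ ((1 / 8 : ℝ) ^ (2 * r + 1) * (8 : ℝ) ^ S.card) * ∏ q ∈ S, δ q :=
        mul_le_mul_of_nonneg_right h2 h1
      _ = _ := by ring
  · rw [mem_powerset] at hS
    have h1 : 0 ≤ ∏ q ∈ S, δ q := prod_nonneg fun q hq => h0 q (hS hq)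
    positivity

/-- the main term -/
theorem main5 {X : Type*} (Q : Finset X) (δ : X → ℝ) (h0 : ∀ q ∈ Q, 0 ≤ δ q) (r : ℕ) :
    ∑ S ∈ Q.powerset.filter (fun S => S.card ≤ 2 * r), (-1 : ℝ) ^ S.card * ∏ q ∈ S, δ q ≤
      ∏ q ∈ Q, (1 - δ q) + (1 / 8) ^ (2 * r + 1) * ∏ q ∈ Q, (1 + 8 * δ q) := by
  classical
  have e : ∏ q ∈ Q, (1 - δ q) = ∑ S ∈ Q.powerset, (-1 : ℝ) ^ S.card * ∏ q ∈ S, δ q := by
    rw [prod_congr rfl fun q _ => show 1 - δ q = -1 * δ q + 1 by ring, prod_add]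
    refine sum_congr rfl fun S _ => ?_
    rw [prod_mul_distrib, prod_const, prod_const_one, mul_one]
  have h1 := sum_filter_add_sum_filter_not Q.powerset (fun S => S.card ≤ 2 * r)
    fun S => (-1 : ℝ) ^ S.card * ∏ q ∈ S, δ q
  have h2 := rankin5 Q δ h0 r
  have h3 : -(∑ S ∈ Q.powerset.filter (fun S => ¬ S.card ≤ 2 * r),
      (-1 : ℝ) ^ S.card * ∏ q ∈ S, δ q) ≤
      ∑ S ∈ Q.powerset.filter (fun S => ¬ S.card ≤ 2 * r), ∏ q ∈ S, δ q := by
    rw [← sum_neg_distrib]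
    refine sum_le_sum fun S hS => ?_
    rw [mem_filter, mem_powerset] at hS
    have h4 : 0 ≤ ∏ q ∈ S, δ q := prod_nonneg fun q hq => h0 q (hS.1 hq)
    rcases Nat.even_or_odd S.card with h5 | h5
    · rw [h5.neg_one_pow]
      linarith
    · rw [h5.neg_one_pow]
      linarith
  rw [e]
  linarith

open Classical in
/-- **The sieve**: if the number of the elements of `W` with the properties `E q`, `q ∈ S`, is
`(1 ± e) G ∏ δ q` for all `S` with at most `2 r` elements, few elements have none of the properties. -/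
theorem sieve5 {X Ω : Type*} (Q : Finset X) (W : Finset Ω) (E : X → Ω → Prop) (δ : X → ℝ)
    (h0 : ∀ q ∈ Q, 0 ≤ δ q) (r : ℕ) {G e : ℝ} (hG : 0 ≤ G) (he : 0 ≤ e)
    (h : ∀ S ⊆ Q, S.card ≤ 2 * r →
      |((W.filter fun ω => ∀ q ∈ S, E q ω).card : ℝ) - G * ∏ q ∈ S, δ q| ≤
        G * (∏ q ∈ S, δ q) * e) :
    ((W.filter fun ω => ∀ q ∈ Q, ¬ E q ω).card : ℝ) ≤
      G * (∏ q ∈ Q, (1 - δ q) + (1 / 8) ^ (2 * r + 1) * ∏ q ∈ Q, (1 + 8 * δ q) +
        e * ∏ q ∈ Q, (1 + δ q)) := by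
  have h1 : ((W.filter fun ω => ∀ q ∈ Q, ¬ E q ω).card : ℝ) ≤
      ∑ S ∈ Q.powerset.filter (fun S => S.card ≤ 2 * r),
        (-1 : ℝ) ^ S.card * ((W.filter fun ω => ∀ q ∈ S, E q ω).card : ℝ) := by
    have e1 : ∀ (p : Ω → Prop) [DecidablePred p],
        ((W.filter p).card : ℝ) = ∑ ω ∈ W, if p ω then 1 else 0 := by
      intro p _
      rw [card_filter]
      push_cast
      rfl
    rw [e1]
    calc ∑ ω ∈ W, (if ∀ q ∈ Q, ¬ E q ω then 1 else 0 : ℝ)
        ≤ ∑ ω ∈ W, ∑ S ∈ Q.powerset.filter (fun S => S.card ≤ 2 * r),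
          (-1 : ℝ) ^ S.card * (if ∀ q ∈ S, E q ω then 1 else 0) :=
          sum_le_sum fun ω _ => bonf5 Q (fun q => E q ω) r
      _ = _ := by
          rw [sum_comm]
          refine sum_congr rfl fun S _ => ?_
          rw [e1, mul_sum]
  have h2 : ∑ S ∈ Q.powerset.filter (fun S => S.card ≤ 2 * r),
        (-1 : ℝ) ^ S.card * ((W.filter fun ω => ∀ q ∈ S, E q ω).card : ℝ) ≤
      G * ∑ S ∈ Q.powerset.filter (fun S => S.card ≤ 2 * r), (-1 : ℝ) ^ S.card * ∏ q ∈ S, δ q +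
        G * e * ∑ S ∈ Q.powerset, ∏ q ∈ S, δ q := by
    have h3 : ∑ S ∈ Q.powerset.filter (fun S => S.card ≤ 2 * r), ∏ q ∈ S, δ q ≤
        ∑ S ∈ Q.powerset, ∏ q ∈ S, δ q :=
      sum_le_sum_of_subset_of_nonneg (filter_subset _ _) fun S hS _ =>
        prod_nonneg fun q hq => h0 q (mem_powerset.1 hS hq)
    have h4 := mul_le_mul_of_nonneg_left h3 (mul_nonneg hG he)
    refine le_trans ?_ (add_le_add_right h4 _)
    rw [mul_sum, mul_sum, ← sum_add_distrib]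
    refine sum_le_sum fun S hS => ?_
    rw [mem_filter, mem_powerset] at hS
    have h5 := abs_le.1 (h S hS.1 hS.2)
    rcases Nat.even_or_odd S.card with h6 | h6
    · rw [h6.neg_one_pow]
      linarith [h5.2]
    · rw [h6.neg_one_pow]
      linarith [h5.1]
  have h3 := mul_le_mul_of_nonneg_left (main5 Q δ h0 r) hG
  have h4 : ∑ S ∈ Q.powerset, ∏ q ∈ S, δ q = ∏ q ∈ Q, (1 + δ q) := by
    rw [prod_congr rfl fun q _ => add_comm 1 (δ q), prod_add]
    refine sum_congr rfl fun S _ => ?_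
    rw [prod_const_one, mul_one]
  rw [h4] at h2
  linarith

end Pool.Agent.HG
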