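import Mathlib

/-!
# HG, block BTL, part B4: the parameters

`t = log h`, `z = ⌊t⌋`, `y = ⌊exp (t ^ (1 - ε/2))⌋`, `r = ⌈3 log t + 4 C⌉`.
-/

set_option autoImplicit false

namespace Pool.Agent.HG

open Real Filter Topology

/-- `(1/8)^(2 r + 1) ≤ exp (-4 r)` -/
theorem eighth5 (r : ℕ) : (1 / 8 : ℝ) ^ (2 * r + 1) ≤ exp (-(4 * r)) := by
  have h1 : (1 / 8 : ℝ) ≤ exp (-2) := by
    have h2 : exp 2 ≤ 8 := by
      have h3 : exp 1 < 2.7182818286 := Real.exp_one_lt_d9
      have h4 : exp 2 = exp 1 * exp 1 := by rw [← Real.exp_add]; norm_num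
      have h5 : 0 < exp 1 := Real.exp_pos 1
      rw [h4]
      nlinarith
    rw [Real.exp_neg, one_div]
    exact inv_anti₀ (Real.exp_pos 2) h2
  calc (1 / 8 : ℝ) ^ (2 * r + 1) ≤ exp (-2) ^ (2 * r + 1) :=
        pow_le_pow_left₀ (by norm_num) h1 _
    _ = exp (-2 * (2 * r + 1 : ℕ)) := by rw [← Real.exp_nat_mul]; congr 1; ring
    _ ≤ exp (-(4 * r)) := by
        apply Real.exp_le_exp.2
        push_cast
        linarith

/-- everything that is needed from the size of `h` -/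
structure Par5 (D : ℕ) (C K ε : ℝ) (h z y r : ℕ) : Prop where
  t1 : 1 ≤ log h
  z2 : 2 ≤ z
  zy : z ≤ y
  Kz : K < z
  /-- `y ^ 2 < h` -/
  yh : (y : ℝ) ^ 2 < h
  /-- the primes of `MM` of norm `> z` -/
  mz : log h ≤ z * log z
  /-- the sum over all primes `≤ y` -/
  up : log (log y) ≤ log (log h)
  /-- the main term -/
  main : exp (-(log (log y) - log (log z) - 2 * C - 1)) ≤ exp (2 * C + 2) * (1 / log h ^ (1 - ε))
  /-- Rankin -/
  ran : exp (-(4 * r)) * exp (8 * (log (log h) + 2 * C)) ≤ 1 / log h ^ (1 - ε)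
  /-- the error of the lattice point count, `M` the modulus, `N` the side of the box -/
  err : ∀ M N : ℝ, 0 < N → M ≤ (h : ℝ) ^ ((1 : ℝ) / (4 * D)) * y ^ (2 * r) →
    (h : ℝ) ^ ((1 : ℝ) / D) ≤ N → M ≤ N ∧
    (D * 2 ^ D * M / N) * exp (log (log h) + 2 * C) ≤ 1 / log h ^ (1 - ε)

private theorem ev5 {D : ℕ} (hD : 1 ≤ D) {C K ε : ℝ} (hC : 0 ≤ C) (hε : 0 < ε) (hε1 : ε ≤ 1) :
    ∀ᶠ t : ℝ in atTop, 20 ≤ t ∧ K + 2 ≤ t ∧ 2 * log t ≤ t ^ (ε / 2) ∧ 3 ≤ t ^ (ε / 2) ∧
      2 ≤ t ^ (1 - ε / 2) ∧ 2 * (3 * log t + 4 * C + 1) ≤ t ^ (ε / 2) / (4 * D) ∧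
      D * 2 ^ D * exp (2 * C) * t ^ 2 ≤ exp (t / (2 * D)) := by
  have hD0 : (0 : ℝ) < D := by exact_mod_cast hD
  have hp : Tendsto (fun t : ℝ => t ^ (ε / 2)) atTop atTop := tendsto_rpow_atTop (by linarith)
  have hq : Tendsto (fun t : ℝ => t ^ (1 - ε / 2)) atTop atTop := tendsto_rpow_atTop (by linarith)
  have hl := isLittleO_log_rpow_atTop (r := ε / 2) (by linarith)
  have hx := isLittleO_pow_exp_pos_mul_atTop (k := 2) (b := 1 / (2 * D)) (by positivity)
  have c0 : 0 < D * 2 ^ D * exp (2 * C) := by positivity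
  have e1 := hl.bound (show (0 : ℝ) < 1 / 2 by norm_num)
  have e2 := hl.bound (show (0 : ℝ) < 1 / (48 * D) by positivity)
  have e3 := hx.bound (show (0 : ℝ) < 1 / (D * 2 ^ D * exp (2 * C)) by positivity)
  filter_upwards [eventually_ge_atTop 20, eventually_ge_atTop (K + 2), e1, e2, e3,
    hp.eventually_ge_atTop 3, hq.eventually_ge_atTop 2,
    hp.eventually_ge_atTop (16 * D * (4 * C + 1))] with t t20 tK h1 h2 h3 h4 h5 h6
  have t0 : 0 < t := by linarith
  have l0 : 0 ≤ log t := log_nonneg (by linarith)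
  have p0 : 0 ≤ t ^ (ε / 2) := rpow_nonneg t0.le _
  rw [norm_eq_abs, norm_eq_abs, abs_of_nonneg l0, abs_of_nonneg p0] at h1 h2
  refine ⟨t20, tK, by linarith, h4, h5, ?_, ?_⟩
  · have h7 : 4 * C + 1 ≤ t ^ (ε / 2) / (16 * D) := by
      rw [le_div_iff₀ (by positivity)]
      linarith
    have h8 : 1 / (48 * D) * t ^ (ε / 2) = t ^ (ε / 2) / (16 * D) / 3 := by
      field_simp
      ring
    have h9 : t ^ (ε / 2) / (4 * D) = 4 * (t ^ (ε / 2) / (16 * D)) := by
      field_simp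
      ring
    rw [h8] at h2
    rw [h9]
    linarith
  · rw [norm_eq_abs, norm_eq_abs, abs_of_nonneg (by positivity), abs_of_pos (exp_pos _)] at h3
    have h7 := mul_le_mul_of_nonneg_left h3 c0.le
    rw [← mul_assoc, mul_one_div_cancel c0.ne', one_mul] at h7
    rw [show t / (2 * D) = 1 / (2 * D) * t by ring]
    exact h7

theorem par5 {D : ℕ} (hD : 1 ≤ D) {C K ε : ℝ} (hC : 0 ≤ C) (hε : 0 < ε) (hε1 : ε ≤ 1) :
    ∃ h₀ : ℕ, ∀ h : ℕ, h₀ ≤ h → ∃ z y r : ℕ, Par5 D C K ε h z y r := by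
  have hD0 : (0 : ℝ) < D := by exact_mod_cast hD
  have hD1 : (1 : ℝ) ≤ D := by exact_mod_cast hD
  obtain ⟨h₀, hh₀⟩ := eventually_atTop.1
    ((tendsto_log_atTop.comp tendsto_natCast_atTop_atTop).eventually (ev5 (K := K) hD hC hε hε1))
  refine ⟨max h₀ 1, fun h hh => ?_⟩
  have hh1 : 1 ≤ h := (le_max_right _ _).trans hh
  have hpos : (0 : ℝ) < h := by exact_mod_cast hh1
  have key := hh₀ h ((le_max_left _ _).trans hh)
  simp only [Function.comp] at key
  obtain ⟨t, ht⟩ : ∃ t, t = log (h : ℝ) := ⟨_, rfl⟩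
  have hexp : (h : ℝ) = exp t := by rw [ht, exp_log hpos]
  rw [← ht] at key
  obtain ⟨t20, tK, hl, hp3, hq2, h6, h7⟩ := key
  have t0 : 0 < t := by linarith
  have l0 : 0 ≤ log t := log_nonneg (by linarith)
  obtain ⟨a, ha⟩ : ∃ a, a = 1 - ε / 2 := ⟨_, rfl⟩
  rw [← ha] at hq2
  have hta : t ^ a * t ^ (ε / 2) = t := by
    rw [← rpow_add t0, ha, show (1 - ε / 2) + ε / 2 = 1 by ring, rpow_one]
  have hta0 : 0 < t ^ a := rpow_pos_of_pos t0 _
  have h3t : 3 * t ^ a ≤ t := by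
    have := mul_le_mul_of_nonneg_left hp3 hta0.le
    linarith
  have hlog2 : log 2 ≤ 1 := by
    have := Real.log_two_lt_d9
    linarith
  -- `z`
  obtain ⟨z, hz⟩ : ∃ z : ℕ, z = ⌊t⌋₊ := ⟨_, rfl⟩
  have hz1 : (z : ℝ) ≤ t := by rw [hz]; exact Nat.floor_le t0.le
  have hz2 : t < z + 1 := by rw [hz]; exact Nat.lt_floor_add_one t
  have hz0 : (19 : ℝ) < z := by linarith
  -- `y`
  obtain ⟨y, hy⟩ : ∃ y : ℕ, y = ⌊exp (t ^ a)⌋₊ := ⟨_, rfl⟩
  have hy1 : (y : ℝ) ≤ exp (t ^ a) := by rw [hy]; exact Nat.floor_le (exp_pos _).le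
  have hy2 : exp (t ^ a) < y + 1 := by rw [hy]; exact Nat.lt_floor_add_one _
  have hte : t ≤ exp (t ^ a) := by
    have e1 : 2 * log t * t ^ a ≤ t := by
      have := mul_le_mul_of_nonneg_left hl hta0.le
      linarith
    -- `t ^ a ≥ 2`, so `log t ≤ t ^ a`
    have e2 : t ^ (ε / 2) ≤ t ^ a := rpow_le_rpow_of_exponent_le (by linarith) (by rw [ha]; linarith)
    have e3 : log t ≤ t ^ a := by linarith
    calc t = exp (log t) := (exp_log t0).symm
      _ ≤ _ := exp_le_exp.2 e3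
  have hzy : z ≤ y := by
    rw [hz, hy]
    exact Nat.floor_le_floor hte
  have hy0 : (19 : ℝ) < y := lt_of_lt_of_le hz0 (by exact_mod_cast hzy)
  have hlogy : t ^ a / 2 ≤ log y := by
    have e1 : exp (t ^ a) / 2 ≤ y := by linarith
    have e2 := log_le_log (by positivity) e1
    rw [log_div (exp_pos _).ne' two_ne_zero, log_exp] at e2
    linarith
  have hlogy' : log y ≤ t ^ a := by
    have := log_le_log (by linarith) hy1
    rwa [log_exp] at this
  have hat : t ^ a ≤ t := by linarith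
  have hlogz : log z ≤ log t := log_le_log (by linarith) hz1
  have hlogz2 : 2 ≤ log z := by
    have e1 : exp 2 ≤ 8 := by
      have h3 : exp 1 < 2.7182818286 := Real.exp_one_lt_d9
      have h4 : exp 2 = exp 1 * exp 1 := by rw [← Real.exp_add]; norm_num
      have h5 : 0 < exp 1 := Real.exp_pos 1
      rw [h4]
      nlinarith
    have e2 := log_le_log (exp_pos 2) (e1.trans (by linarith : (8 : ℝ) ≤ z))
    rwa [log_exp] at e2
  -- `r`
  obtain ⟨r, hr⟩ : ∃ r : ℕ, r = ⌈3 * log t + 4 * C⌉₊ := ⟨_, rfl⟩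
  have hr1 : 3 * log t + 4 * C ≤ r := by rw [hr]; exact Nat.le_ceil _
  have hr2 : (r : ℝ) < 3 * log t + 4 * C + 1 := by
    rw [hr]
    exact Nat.ceil_lt_add_one (by linarith)
  -- powers of `t`
  have hrp : ∀ s : ℝ, t ^ s = exp (log t * s) := fun s => rpow_def_of_pos t0 s
  have hte1 : t ^ (1 - ε) ≤ t := by
    have := rpow_le_rpow_of_exponent_le (by linarith : 1 ≤ t) (by linarith : 1 - ε ≤ 1)
    rwa [rpow_one] at this
  have hpe : 0 < t ^ (1 - ε) := rpow_pos_of_pos t0 _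
  have hinv : 1 / t ≤ 1 / t ^ (1 - ε) := one_div_le_one_div_of_le hpe hte1
  refine ⟨z, y, r, ⟨by rw [← ht]; linarith, by
    have : (2 : ℝ) ≤ z := by linarith
    exact_mod_cast this, hzy, by linarith, ?_, ?_, ?_, ?_, ?_, ?_⟩⟩
  · -- `y ^ 2 < h`
    calc (y : ℝ) ^ 2 ≤ exp (t ^ a) ^ 2 := pow_le_pow_left₀ (by positivity) hy1 2
      _ = exp (2 * t ^ a) := by rw [← exp_nat_mul]; norm_num
      _ < exp t := exp_lt_exp.2 (by linarith)
      _ = h := hexp.symm
  · rw [← ht]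
    nlinarith
  · rw [← ht]
    exact log_le_log (by linarith) (hlogy'.trans hat)
  · rw [← ht]
    have e0 : 0 < log y := by linarith
    have e1 : exp (-(log (log y) - log (log z) - 2 * C - 1)) =
        exp (2 * C + 1) * (log z / log y) := by
      rw [show -(log (log y) - log (log z) - 2 * C - 1) =
        (2 * C + 1) + (log (log z) - log (log y)) by ring, exp_add, exp_sub,
        exp_log (by linarith : 0 < log (z : ℝ)), exp_log e0]
    have e2 : log z / log y ≤ exp 1 * (1 / t ^ (1 - ε)) := by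
      have e3 : log z / log y ≤ log t / (t ^ a / 2) :=
        div_le_div₀ l0 hlogz (by positivity) hlogy
      have e4 : t ^ a = t ^ (1 - ε) * t ^ (ε / 2) := by
        rw [← rpow_add t0, ha]
        congr 1
        ring
      have e5 : log t / (t ^ a / 2) ≤ 1 / t ^ (1 - ε) := by
        rw [div_le_div_iff₀ (by positivity) hpe, e4]
        have := mul_le_mul_of_nonneg_right hl hpe.le
        linarith
      have e6 : (1 : ℝ) ≤ exp 1 := by
        have := add_one_le_exp (1 : ℝ)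
        linarith
      have e7 : 0 ≤ 1 / t ^ (1 - ε) := by positivity
      nlinarith
    rw [e1]
    calc exp (2 * C + 1) * (log z / log y) ≤ exp (2 * C + 1) * (exp 1 * (1 / t ^ (1 - ε))) :=
          mul_le_mul_of_nonneg_left e2 (exp_pos _).le
      _ = exp (2 * C + 2) * (1 / t ^ (1 - ε)) := by
          rw [← mul_assoc, ← exp_add]
          congr 2
          ring
  · rw [← ht, ← exp_add]
    have e1 : -(4 * (r : ℝ)) + 8 * (log t + 2 * C) ≤ -log t := by linarith
    calc exp (-(4 * (r : ℝ)) + 8 * (log t + 2 * C)) ≤ exp (-log t) := exp_le_exp.2 e1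
      _ = 1 / t := by rw [exp_neg, exp_log t0, one_div]
      _ ≤ _ := hinv
  · intro M N hN hM hN1
    rw [← ht]
    have e1 : (h : ℝ) ^ ((1 : ℝ) / (4 * D)) = exp (t / (4 * D)) := by
      rw [rpow_def_of_pos hpos, ← ht]
      congr 1
      ring
    have e2 : (h : ℝ) ^ ((1 : ℝ) / D) = exp (t / D) := by
      rw [rpow_def_of_pos hpos, ← ht]
      congr 1
      ring
    have e3 : (y : ℝ) ^ (2 * r) ≤ exp (t / (4 * D)) := by
      calc (y : ℝ) ^ (2 * r) ≤ exp (t ^ a) ^ (2 * r) := pow_le_pow_left₀ (by positivity) hy1 _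
        _ = exp (2 * r * t ^ a) := by rw [← exp_nat_mul]; push_cast; rfl
        _ ≤ exp (t / (4 * D)) := by
          apply exp_le_exp.2
          have e4 : 2 * (r : ℝ) ≤ t ^ (ε / 2) / (4 * D) := by linarith
          calc 2 * (r : ℝ) * t ^ a ≤ t ^ (ε / 2) / (4 * D) * t ^ a :=
                mul_le_mul_of_nonneg_right e4 hta0.le
            _ = (t ^ a * t ^ (ε / 2)) / (4 * D) := by ring
            _ = t / (4 * D) := by rw [hta]
    rw [e1] at hM
    rw [e2] at hN1
    have e5 : M ≤ exp (t / (2 * D)) := by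
      refine hM.trans ?_
      calc exp (t / (4 * D)) * (y : ℝ) ^ (2 * r) ≤ exp (t / (4 * D)) * exp (t / (4 * D)) :=
            mul_le_mul_of_nonneg_left e3 (exp_pos _).le
        _ = exp (t / (2 * D)) := by
            rw [← exp_add]
            congr 1
            field_simp
            ring
    have e6 : exp (t / (2 * D)) * exp (t / (2 * D)) = exp (t / D) := by
      rw [← exp_add]
      congr 1
      field_simp
      ring
    have e7 : (1 : ℝ) ≤ exp (t / (2 * D)) := by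
      have : 0 ≤ t / (2 * D) := by positivity
      linarith [add_one_le_exp (t / (2 * D))]
    constructor
    · nlinarith
    · have e8 : exp (log t + 2 * C) = t * exp (2 * C) := by rw [exp_add, exp_log t0]
      rw [e8]
      refine le_trans ?_ hinv
      rw [div_mul_eq_mul_div, div_le_div_iff₀ hN t0]
      have e9 : 0 ≤ (D : ℝ) * 2 ^ D * exp (2 * C) * t ^ 2 := by positivity
      calc (D : ℝ) * 2 ^ D * M * (t * exp (2 * C)) * t
          = (D * 2 ^ D * exp (2 * C) * t ^ 2) * M := by ring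
        _ ≤ (D * 2 ^ D * exp (2 * C) * t ^ 2) * exp (t / (2 * D)) :=
            mul_le_mul_of_nonneg_left e5 e9
        _ ≤ exp (t / (2 * D)) * exp (t / (2 * D)) :=
            mul_le_mul_of_nonneg_right h7 (exp_pos _).le
        _ = exp (t / D) := e6
        _ ≤ 1 * N := by linarith

end Pool.Agent.HG
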