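import Pool.Agent.Helper5.HG.B1
import Pool.Agent.Helper5.HG.B2
import Pool.Agent.Helper5.HG.B3
import Pool.Agent.Helper5.HG.B4

/-!
# HG, block BTL: Brun-Titchmarsh in a number field with prescribed quadratic characters
-/

set_option autoImplicit false

namespace Pool.Agent.HG

open NumberField IsDedekindDomain Finset

section

variable {L : Type} [Field L] [NumberField L]

/-- the primes of norm at most `x` -/
theorem exists_B5 (L : Type) [Field L] [NumberField L] :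
    ∃ B : ℕ → Finset (Pr L), ∀ x v, v ∈ B x ↔ nm v ≤ x := by
  have h : ∀ x : ℕ, {v : Pr L | nm v ≤ x}.Finite := fun x => by
    refine Set.Finite.of_injOn (f := fun v : Pr L => v.asIdeal)
      (t := {I : Ideal (𝓞 L) | Ideal.absNorm I ≤ x}) ?_ ?_ ?_
    · intro v hv
      exact hv
    · intro v _ w _ hvw
      exact HeightOneSpectrum.ext hvw
    · exact Ideal.finite_setOfPred_absNorm_le x
  exact ⟨fun x => (h x).toFinset, fun x v => by simp⟩

/-- an element of norm `a l` is in no prime with norm between `a` and `l` -/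
theorem not_mem5 {x : 𝓞 L} {a l : ℕ} (hl : l.Prime) (ha : a ≠ 0)
    (h : Ideal.absNorm (Ideal.span {x}) = a * l) (v : Pr L) (h1 : a < nm v) (h2 : nm v < l) :
    x ∉ v.asIdeal := by
  intro hx
  have h3 : nm v ∣ a * l := by
    rw [← h]
    exact Ideal.absNorm_dvd_absNorm_of_le ((Ideal.span_singleton_le_iff_mem _).2 hx)
  have h4 : Nat.Coprime (nm v) l := by
    rw [Nat.coprime_comm, hl.coprime_iff_not_dvd]
    intro h5
    exact absurd (Nat.le_of_dvd (by omega) h5) (by omega)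
  exact absurd (Nat.le_of_dvd (Nat.pos_of_ne_zero ha) (h4.dvd_of_dvd_mul_right h3)) (by omega)

/-- the sum of the `1 / nm q` over the primes of the sieve -/
theorem lam5 {B : ℕ → Finset (Pr L)} (hB : ∀ x v, v ∈ B x ↔ nm v ≤ x) {C : ℝ}
    (hC : ∀ x : ℕ, 2 ≤ x → |∑ v ∈ B x, (1 : ℝ) / nm v - Real.log (Real.log x)| ≤ C)
    {z y h : ℕ} (z2 : 2 ≤ z) (zy : z ≤ y) (MM Q : Finset (Pr L))
    (hM : ∏ q ∈ MM, nm q ≤ h) (mz : Real.log h ≤ z * Real.log z)
    (hQ : ∀ q, q ∈ Q ↔ z < nm q ∧ nm q ≤ y ∧ q ∉ MM) :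
    Real.log (Real.log y) - Real.log (Real.log z) - 2 * C - 1 ≤ ∑ v ∈ Q, (1 : ℝ) / nm v ∧
      ∑ v ∈ Q, (1 : ℝ) / nm v ≤ Real.log (Real.log y) + C := by
  classical
  have hz := abs_le.1 (hC z z2)
  have hy := abs_le.1 (hC y (z2.trans zy))
  have h1 : ∀ v : Pr L, (0 : ℝ) ≤ 1 / nm v := fun v => by positivity
  constructor
  · -- `B y ⊆ B z ∪ Q ∪ (MM \ B z)`
    have h2 : ∑ v ∈ B y, (1 : ℝ) / nm v ≤ ∑ v ∈ B z, (1 : ℝ) / nm v + ∑ v ∈ Q, (1 : ℝ) / nm v +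
        ∑ v ∈ MM \ B z, (1 : ℝ) / nm v := by
      have h3 : B y ⊆ (B z ∪ Q) ∪ (MM \ B z) := by
        intro v hv
        rw [mem_union, mem_union, mem_sdiff, hQ, hB]
        rw [hB] at hv
        by_cases h4 : nm v ≤ z
        · exact Or.inl (Or.inl h4)
        · by_cases h5 : v ∈ MM
          · exact Or.inr ⟨h5, h4⟩
          · exact Or.inl (Or.inr ⟨not_le.1 h4, hv, h5⟩)
      have h4 : ∑ v ∈ (B z ∪ Q) ∪ (MM \ B z), (1 : ℝ) / nm v ≤
          ∑ v ∈ B z ∪ Q, (1 : ℝ) / nm v + ∑ v ∈ MM \ B z, (1 : ℝ) / nm v := by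
        rw [← sum_union_inter]
        have : (0 : ℝ) ≤ ∑ v ∈ (B z ∪ Q) ∩ (MM \ B z), (1 : ℝ) / nm v := sum_nonneg fun v _ => h1 v
        linarith
      have h5 : ∑ v ∈ B z ∪ Q, (1 : ℝ) / nm v ≤
          ∑ v ∈ B z, (1 : ℝ) / nm v + ∑ v ∈ Q, (1 : ℝ) / nm v := by
        rw [← sum_union_inter]
        have : (0 : ℝ) ≤ ∑ v ∈ B z ∩ Q, (1 : ℝ) / nm v := sum_nonneg fun v _ => h1 v
        linarith
      have h6 := sum_le_sum_of_subset_of_nonneg h3 (fun v _ _ => h1 v)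
      linarith
    have hz0 : (0 : ℝ) < z := by exact_mod_cast (by omega : 0 < z)
    have hlz : 0 < Real.log z := Real.log_pos (by exact_mod_cast (by omega : 1 < z))
    -- the number of the primes of `MM` with norm above `z`
    have h3 : ((MM \ B z).card : ℝ) ≤ z := by
      have h4 : z ^ (MM \ B z).card ≤ h := by
        calc z ^ (MM \ B z).card = ∏ _v ∈ MM \ B z, z := by rw [prod_const]
          _ ≤ ∏ v ∈ MM \ B z, nm v := by
              refine prod_le_prod' fun v hv => ?_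
              rw [mem_sdiff, hB] at hv
              omega
          _ ≤ ∏ v ∈ MM, nm v := by
              refine prod_le_prod_of_subset_of_one_le' sdiff_subset fun v _ _ => ?_
              have := (card_quot5 v).2
              omega
          _ ≤ h := hM
      have h5 : ((MM \ B z).card : ℝ) * Real.log z ≤ Real.log h := by
        rw [← Real.log_pow]
        exact Real.log_le_log (by positivity) (by exact_mod_cast h4)
      exact le_of_mul_le_mul_right (h5.trans mz) hlz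
    have h4 : ∑ v ∈ MM \ B z, (1 : ℝ) / nm v ≤ 1 := by
      calc ∑ v ∈ MM \ B z, (1 : ℝ) / nm v ≤ ∑ _v ∈ MM \ B z, (1 : ℝ) / z := by
            refine sum_le_sum fun v hv => ?_
            rw [mem_sdiff, hB, not_le] at hv
            exact one_div_le_one_div_of_le hz0 (by exact_mod_cast hv.2.le)
        _ = (MM \ B z).card / z := by rw [sum_const, nsmul_eq_mul]; ring
        _ ≤ 1 := by rw [div_le_one hz0]; exact h3
    linarith [hz.2, hy.1]
  · have h2 : Q ⊆ B y := fun v hv => (hB y v).2 ((hQ v).1 hv).2.1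
    have h3 := sum_le_sum_of_subset_of_nonneg h2 (fun v _ _ => h1 v)
    linarith [hy.2]

/-- the count for the sieve -/
theorem count5 {ι : Type} [Fintype ι] (b : Module.Basis ι ℤ (𝓞 L)) (a : ℤ) (N : ℕ)
    (S MM : Finset (Pr L)) (hd : Disjoint S MM) (G : (q : Pr L) → Finset (𝓞 L ⧸ q.asIdeal))
    (hN : (∏ q ∈ S, nm q) * ∏ q ∈ MM, nm q ≤ N) (W : Finset (ι → ℤ))
    (hW : ∀ v, v ∈ W ↔ (∀ i, v i ∈ Finset.Ico a (a + N)) ∧
      (∀ q ∈ MM, Ideal.Quotient.mk q.asIdeal (∑ i, v i • b i) ∈ G q) ∧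
        ∀ q ∈ S, (∑ i, v i • b i) ∈ q.asIdeal) :
    |(W.card : ℝ) -
        ((∏ q ∈ MM, ((G q).card : ℝ) / nm q) * N ^ Fintype.card ι) * ∏ q ∈ S, (1 : ℝ) / nm q| ≤
      ((∏ q ∈ MM, ((G q).card : ℝ) / nm q) * N ^ Fintype.card ι) * (∏ q ∈ S, (1 : ℝ) / nm q) *
        (Fintype.card ι * 2 ^ Fintype.card ι *
          ((∏ q ∈ S, (nm q : ℝ)) * ∏ q ∈ MM, (nm q : ℝ)) / N) := by
  classical
  obtain ⟨G', hG'⟩ : ∃ G' : (q : Pr L) → Finset (𝓞 L ⧸ q.asIdeal), G' = fun q =>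
    if q ∈ MM then G q else {0} := ⟨_, rfl⟩
  have h1 := box_count5 b a N (S ∪ MM) (by rw [prod_union hd]; exact hN) fun u => G' u.1
  have e1 : ∏ u : (S ∪ MM : Finset (Pr L)), (((G' u.1).card : ℕ) : ℝ) = ∏ q ∈ MM, ((G q).card : ℝ) := by
    rw [Finset.prod_coe_sort (S ∪ MM) (fun q => (((G' q).card : ℕ) : ℝ)), prod_union hd]
    rw [prod_eq_one, one_mul]
    · refine prod_congr rfl fun q hq => ?_
      rw [hG']
      simp only [hq, if_true]
    · intro q hq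
      rw [hG']
      simp only [disjoint_left.1 hd hq, if_false, card_singleton, Nat.cast_one]
  have e2 : ∀ v : ι → ℤ, (∀ u : (S ∪ MM : Finset (Pr L)), cls5 b (S ∪ MM) v u ∈ G' u.1) ↔
      (∀ q ∈ MM, Ideal.Quotient.mk q.asIdeal (∑ i, v i • b i) ∈ G q) ∧
        ∀ q ∈ S, (∑ i, v i • b i) ∈ q.asIdeal := by
    intro v
    constructor
    · intro h
      constructor
      · intro q hq
        have h2 := h ⟨q, mem_union_right _ hq⟩
        rw [hG'] at h2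
        simp only [hq, if_true] at h2
        exact h2
      · intro q hq
        have h2 := h ⟨q, mem_union_left _ hq⟩
        rw [hG'] at h2
        simp only [disjoint_left.1 hd hq, if_false, mem_singleton] at h2
        exact Ideal.Quotient.eq_zero_iff_mem.1 h2
    · rintro ⟨h2, h3⟩ ⟨q, hq⟩
      rw [hG']
      by_cases h4 : q ∈ MM
      · simp only [h4, if_true]
        exact h2 q h4
      · simp only [h4, if_false, mem_singleton]
        exact Ideal.Quotient.eq_zero_iff_mem.2 (h3 q ((mem_union.1 hq).resolve_right h4))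
  rw [e1, prod_union hd] at h1
  have e3 : ((∏ q ∈ MM, ((G q).card : ℝ) / nm q) * N ^ Fintype.card ι) * ∏ q ∈ S, (1 : ℝ) / nm q =
      (∏ q ∈ MM, ((G q).card : ℝ)) / ((∏ q ∈ S, (nm q : ℝ)) * ∏ q ∈ MM, (nm q : ℝ)) *
        N ^ Fintype.card ι := by
    rw [prod_div_distrib, prod_div_distrib, prod_const_one]
    ring
  rw [e3]
  convert h1 using 5
  ext v
  rw [hW, mem_filter, Fintype.mem_piFinset, e2]

/-- the products over the primes of the sieve -/
theorem prods5 {X : Type*} (Q : Finset X) (δ : X → ℝ) (h0 : ∀ q ∈ Q, 0 ≤ δ q)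
    (h1 : ∀ q ∈ Q, δ q ≤ 1) {a b : ℝ} (ha : a ≤ ∑ q ∈ Q, δ q) (hb : ∑ q ∈ Q, δ q ≤ b) :
    ∏ q ∈ Q, (1 - δ q) ≤ Real.exp (-a) ∧ ∏ q ∈ Q, (1 + 8 * δ q) ≤ Real.exp (8 * b) ∧
      ∏ q ∈ Q, (1 + δ q) ≤ Real.exp b := by
  refine ⟨?_, ?_, ?_⟩
  · calc ∏ q ∈ Q, (1 - δ q) ≤ ∏ q ∈ Q, Real.exp (-δ q) :=
          prod_le_prod (fun q hq => by linarith [h1 q hq]) fun q _ => Real.one_sub_le_exp_neg _
      _ = Real.exp (-∑ q ∈ Q, δ q) := by rw [← Real.exp_sum, sum_neg_distrib]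
      _ ≤ _ := Real.exp_le_exp.2 (by linarith)
  · calc ∏ q ∈ Q, (1 + 8 * δ q) ≤ ∏ q ∈ Q, Real.exp (8 * δ q) :=
          prod_le_prod (fun q hq => by linarith [h0 q hq]) fun q _ => by
            linarith [Real.add_one_le_exp (8 * δ q)]
      _ = Real.exp (8 * ∑ q ∈ Q, δ q) := by rw [← Real.exp_sum, mul_sum]
      _ ≤ _ := Real.exp_le_exp.2 (by linarith)
  · calc ∏ q ∈ Q, (1 + δ q) ≤ ∏ q ∈ Q, Real.exp (δ q) :=
          prod_le_prod (fun q hq => by linarith [h0 q hq]) fun q _ => by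
            linarith [Real.add_one_le_exp (δ q)]
      _ = Real.exp (∑ q ∈ Q, δ q) := by rw [← Real.exp_sum]
      _ ≤ _ := Real.exp_le_exp.2 hb

/-- the box -/
theorem box5 {D : ℕ} (hD : 1 ≤ D) {c K : ℝ} (hc : 1 ≤ c) (hK : 1 ≤ K) {h : ℕ} (hh : 1 ≤ h) :
    ∃ n : ℕ, (∀ m : ℤ, |(m : ℝ)| ≤ c * (K * (h : ℝ) ^ ((1 : ℝ) / D)) →
        m ∈ Finset.Ico (-(n : ℤ)) (-(n : ℤ) + (2 * n + 1 : ℕ))) ∧
      (h : ℝ) ^ ((1 : ℝ) / D) ≤ ((2 * n + 1 : ℕ) : ℝ) ∧
      ((2 * n + 1 : ℕ) : ℝ) ^ D ≤ (3 * c * K) ^ D * h := by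
  obtain ⟨R, hR⟩ : ∃ R, R = c * (K * (h : ℝ) ^ ((1 : ℝ) / D)) := ⟨_, rfl⟩
  have h0 : (1 : ℝ) ≤ h := by exact_mod_cast hh
  have hp : (1 : ℝ) ≤ (h : ℝ) ^ ((1 : ℝ) / D) := Real.one_le_rpow h0 (by positivity)
  have hR1 : (h : ℝ) ^ ((1 : ℝ) / D) ≤ R := by
    rw [hR]
    have h1 : (h : ℝ) ^ ((1 : ℝ) / D) ≤ K * (h : ℝ) ^ ((1 : ℝ) / D) := by nlinarith
    have h2 : 0 ≤ K * (h : ℝ) ^ ((1 : ℝ) / D) := by positivity
    nlinarith
  have hR2 : 1 ≤ R := hp.trans hR1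
  have hf1 := Nat.floor_le (show 0 ≤ R by linarith)
  have hf2 := Nat.lt_floor_add_one R
  refine ⟨⌊R⌋₊, ?_, ?_, ?_⟩
  · intro m hm
    rw [← hR] at hm
    have h1 : m.natAbs ≤ ⌊R⌋₊ := by
      apply Nat.le_floor
      rw [Nat.cast_natAbs, Int.cast_abs]
      exact hm
    rw [mem_Ico]
    push_cast
    omega
  · push_cast
    linarith
  · have h1 : ((2 * ⌊R⌋₊ + 1 : ℕ) : ℝ) ≤ 3 * R := by
      push_cast
      linarith
    calc ((2 * ⌊R⌋₊ + 1 : ℕ) : ℝ) ^ D ≤ (3 * R) ^ D := pow_le_pow_left₀ (by positivity) h1 D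
      _ = (3 * c * K) ^ D * ((h : ℝ) ^ ((1 : ℝ) / D)) ^ D := by
          rw [hR, ← mul_pow]
          congr 1
          ring
      _ = (3 * c * K) ^ D * h := by
          rw [← Real.rpow_natCast ((h : ℝ) ^ ((1 : ℝ) / D)), ← Real.rpow_mul (by positivity),
            one_div_mul_cancel (by positivity), Real.rpow_one]

/-- **BLOCK BTL**: Brun-Titchmarsh in a number field, with prescribed quadratic characters -/
theorem btl (hMe : StmtMert) : StmtBTL := by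
  classical
  intro L _ _ K hK ε hε
  obtain ⟨B, hB⟩ := exists_B5 L
  obtain ⟨C₀, hC₀⟩ := (hMe L B hB).2
  obtain ⟨C, hC⟩ : ∃ C, C = max C₀ 0 := ⟨_, rfl⟩
  have hCB : ∀ x : ℕ, 2 ≤ x → |∑ v ∈ B x, (1 : ℝ) / nm v - Real.log (Real.log x)| ≤ C :=
    fun x hx => (hC₀ x hx).trans (by rw [hC]; exact le_max_left _ _)
  have C0 : 0 ≤ C := by rw [hC]; exact le_max_right _ _
  obtain ⟨ι, _, b, c, hc, hι, hb⟩ := coord5 L
  obtain ⟨D, hD⟩ : ∃ D, D = Module.finrank ℚ L := ⟨_, rfl⟩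
  have hD1 : 1 ≤ D := by rw [hD]; exact Module.finrank_pos
  rw [← hD] at hι
  obtain ⟨h₀, hh₀⟩ := par5 (K := K) hD1 C0 (lt_min hε one_pos) (min_le_right ε 1)
  refine ⟨(3 * c * K) ^ D * (Real.exp (2 * C + 2) + 2), 4 * D, max h₀ 1, by positivity, ?_⟩
  intro h hh MM hodd hA η T hT
  rw [← hD] at hT
  have hh1 : 1 ≤ h := (le_max_right _ _).trans hh
  obtain ⟨z, y, r, P⟩ := hh₀ h ((le_max_left _ _).trans hh)
  obtain ⟨n, hn1, hn2, hn3⟩ := box5 hD1 hc hK hh1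
  obtain ⟨N, hN⟩ : ∃ N, N = 2 * n + 1 := ⟨_, rfl⟩
  rw [← hN] at hn2 hn3
  simp only [← hN] at hn1
  have hN0 : (0 : ℝ) < N := by
    rw [hN]
    positivity
  -- the product of the norms of the primes of `MM`
  have hpos : ∀ q : Pr L, 0 < nm q := fun q => by
    have := (card_quot5 q).2
    omega
  have hMM1 : 1 ≤ ∏ q ∈ MM, nm q := Nat.one_le_iff_ne_zero.2 (prod_ne_zero_iff.2 fun q _ => (hpos q).ne')
  have hMMh : ∏ q ∈ MM, nm q ≤ h :=
    (Nat.le_self_pow (by omega) _).trans hA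
  have hMMr : ((∏ q ∈ MM, nm q : ℕ) : ℝ) ≤ (h : ℝ) ^ ((1 : ℝ) / (4 * D)) := by
    have h1 : ((∏ q ∈ MM, nm q : ℕ) : ℝ) ^ (4 * D) ≤ h := by exact_mod_cast hA
    have hD0 : (0 : ℝ) < D := by exact_mod_cast hD1
    calc ((∏ q ∈ MM, nm q : ℕ) : ℝ) = (((∏ q ∈ MM, nm q : ℕ) : ℝ) ^ (4 * D)) ^ ((1 : ℝ) / (4 * D)) := by
          rw [← Real.rpow_natCast, ← Real.rpow_mul (by positivity)]
          push_cast
          rw [mul_one_div_cancel (by positivity), Real.rpow_one]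
      _ ≤ _ := Real.rpow_le_rpow (by positivity) h1 (by positivity)
  -- the primes of the sieve
  obtain ⟨Q, hQd⟩ : ∃ Q, Q = (B y \ B z) \ MM := ⟨_, rfl⟩
  have hQ : ∀ q, q ∈ Q ↔ z < nm q ∧ nm q ≤ y ∧ q ∉ MM := by
    intro q
    rw [hQd, mem_sdiff, mem_sdiff, hB, hB, not_le]
    tauto
  obtain ⟨l1, l2⟩ := lam5 hB hCB P.z2 P.zy MM Q hMMh P.mz hQ
  have l3 : ∑ v ∈ Q, (1 : ℝ) / nm v ≤ Real.log (Real.log h) + 2 * C := by linarith [P.up]
  obtain ⟨p1, p2, p3⟩ := prods5 Q (fun v => (1 : ℝ) / nm v) (fun q _ => by positivity)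
    (fun q _ => by
      rw [div_le_one (by exact_mod_cast hpos q)]
      exact_mod_cast hpos q) l1 l3
  -- the classes
  have hfin : ∀ q : Pr L, Finite (𝓞 L ⧸ q.asIdeal) := fun q => by
    apply Nat.finite_of_card_ne_zero
    rw [(card_quot5 q).1]
    exact (hpos q).ne'
  obtain ⟨G, hG⟩ : ∃ G : (q : Pr L) → Finset (𝓞 L ⧸ q.asIdeal),
      ∀ q g, g ∈ G q ↔ (g ≠ 0 ∧ (IsSquare g ↔ η q)) :=
    ⟨fun q => (Set.toFinite {g : 𝓞 L ⧸ q.asIdeal | g ≠ 0 ∧ (IsSquare g ↔ η q)}).toFinset,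
      fun q g => by simp⟩
  obtain ⟨γ, hγ⟩ : ∃ γ : ℝ, γ = (∏ q ∈ MM, ((G q).card : ℝ) / nm q) * N ^ D := ⟨_, rfl⟩
  have hγ0 : 0 ≤ γ := by rw [hγ]; positivity
  have hγ1 : γ ≤ (1 / 2) ^ MM.card * ((3 * c * K) ^ D * h) := by
    rw [hγ]
    refine mul_le_mul ?_ hn3 (by positivity) (by positivity)
    calc ∏ q ∈ MM, ((G q).card : ℝ) / nm q ≤ ∏ _q ∈ MM, (1 / 2 : ℝ) := by
          refine prod_le_prod (fun q _ => by positivity) fun q hq => ?_
          have h1 := sq_count5 q (hodd q hq) (η q) (G q) fun g hg => (hG q g).1 hg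
          have h2 : (0 : ℝ) < nm q := by exact_mod_cast hpos q
          rw [div_le_div_iff₀ h2 two_pos]
          linarith
      _ = (1 / 2) ^ MM.card := by rw [prod_const]
  -- the box and the sieve
  obtain ⟨W, hW⟩ : ∃ W : Finset (ι → ℤ), ∀ v, v ∈ W ↔ (∀ i, v i ∈ Finset.Ico (-(n : ℤ)) (-(n : ℤ) + N)) ∧
      ∀ q ∈ MM, Ideal.Quotient.mk q.asIdeal (∑ i, v i • b i) ∈ G q :=
    ⟨(Fintype.piFinset fun _ : ι => Finset.Ico (-(n : ℤ)) (-(n : ℤ) + N)).filter fun v =>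
      ∀ q ∈ MM, Ideal.Quotient.mk q.asIdeal (∑ i, v i • b i) ∈ G q, fun v => by
        rw [mem_filter, Fintype.mem_piFinset]⟩
  obtain ⟨M₀, hM₀⟩ : ∃ M₀, M₀ = (h : ℝ) ^ ((1 : ℝ) / (4 * D)) * y ^ (2 * r) := ⟨_, rfl⟩
  have hM₀0 : 0 ≤ M₀ := by rw [hM₀]; positivity
  obtain ⟨er1, er2⟩ := P.err M₀ N hN0 hM₀.le hn2
  have hsieve := sieve5 Q W (fun q v => (∑ i, v i • b i) ∈ q.asIdeal) (fun v => (1 : ℝ) / nm v)
    (fun q _ => by positivity) r hγ0 (show 0 ≤ D * 2 ^ D * M₀ / N by positivity) (by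
      intro S hS hSr
      have hS1 : ∏ q ∈ S, nm q ≤ y ^ (2 * r) := by
        calc ∏ q ∈ S, nm q ≤ ∏ _q ∈ S, y := prod_le_prod' fun q hq => ((hQ q).1 (hS hq)).2.1
          _ = y ^ S.card := by rw [prod_const]
          _ ≤ y ^ (2 * r) := Nat.pow_le_pow_right (by linarith [P.z2, P.zy]) hSr
      have hSM : (((∏ q ∈ S, nm q) * ∏ q ∈ MM, nm q : ℕ) : ℝ) ≤ M₀ := by
        rw [hM₀, mul_comm]
        push_cast
        refine mul_le_mul ?_ ?_ (by positivity) (by positivity)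
        · exact_mod_cast hMMr
        · exact_mod_cast hS1
      have h1 := count5 b (-(n : ℤ)) N S MM
        (disjoint_left.2 fun q hq => ((hQ q).1 (hS hq)).2.2) G
        (by exact_mod_cast hSM.trans er1)
        (W.filter fun v => ∀ q ∈ S, (∑ i, v i • b i) ∈ q.asIdeal) (fun v => by
          rw [mem_filter, hW, and_assoc])
      rw [hι, ← hγ] at h1
      refine h1.trans (mul_le_mul_of_nonneg_left ?_ (by positivity))
      push_cast at hSM
      gcongr)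
  -- the elements of `T`
  have hT1 : T.card ≤ (W.filter fun v => ∀ q ∈ Q, ¬ (∑ i, v i • b i) ∈ q.asIdeal).card := by
    refine card_le_card_of_injOn (fun x i => b.repr x i) ?_ ?_
    · intro x hx
      have hx' := hT x hx
      obtain ⟨x1, ⟨a, l, hl, hhl, ha, haK, hnorm⟩, x3⟩ := hx'
      have e1 : ∑ i, b.repr x i • b i = x := b.sum_repr x
      rw [mem_coe, mem_filter, hW]
      simp only [e1]
      refine ⟨⟨fun i => hn1 _ (hb x _ x1 i), fun q hq => ?_⟩, fun q hq => ?_⟩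
      · rw [hG]
        obtain ⟨x4, x5⟩ := x3 q hq
        exact ⟨fun h1 => x4 (Ideal.Quotient.eq_zero_iff_mem.1 h1), x5⟩
      · obtain ⟨q1, q2, _⟩ := (hQ q).1 hq
        refine not_mem5 hl ha hnorm q ?_ ?_
        · have h1 : (a : ℝ) < z := lt_of_le_of_lt haK P.Kz
          have h2 : a < z := by exact_mod_cast h1
          omega
        · have h1 := P.yh
          have h2 : (y : ℝ) ^ 2 < (l : ℝ) ^ 2 := lt_of_lt_of_le h1 (by exact_mod_cast hhl)
          have h3 : y < l := by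
            have h4 : (y : ℝ) < l := lt_of_pow_lt_pow_left₀ 2 (by positivity) h2
            exact_mod_cast h4
          omega
    · intro x _ x' _ hxx
      have h1 : b.repr x = b.repr x' := Finsupp.ext fun i => congrFun hxx i
      exact b.repr.injective h1
  -- the end
  have t1 := P.t1
  have hE : 0 < 1 / Real.log h ^ (1 - min ε 1) := by
    have : 0 < Real.log h := by linarith
    positivity
  have hfinal : ∏ q ∈ Q, (1 - (1 : ℝ) / nm q) + (1 / 8) ^ (2 * r + 1) * ∏ q ∈ Q, (1 + 8 * ((1 : ℝ) / nm q)) +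
        (D * 2 ^ D * M₀ / N) * ∏ q ∈ Q, (1 + (1 : ℝ) / nm q) ≤
      (Real.exp (2 * C + 2) + 2) * (1 / Real.log h ^ (1 - min ε 1)) := by
    have f1 := p1.trans P.main
    have f2 : (1 / 8 : ℝ) ^ (2 * r + 1) * ∏ q ∈ Q, (1 + 8 * ((1 : ℝ) / nm q)) ≤
        1 / Real.log h ^ (1 - min ε 1) := by
      refine le_trans (mul_le_mul (eighth5 r) p2 ?_ (Real.exp_pos _).le) P.ran
      exact prod_nonneg fun q _ => by positivity
    have f3 : (D * 2 ^ D * M₀ / N) * ∏ q ∈ Q, (1 + (1 : ℝ) / nm q) ≤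
        1 / Real.log h ^ (1 - min ε 1) :=
      (mul_le_mul_of_nonneg_left p3 (by positivity)).trans er2
    linarith
  have hmin : 1 / Real.log h ^ (1 - min ε 1) ≤ 1 / Real.log h ^ (1 - ε) := by
    apply one_div_le_one_div_of_le
    · have : 0 < Real.log h := by linarith
      positivity
    · exact Real.rpow_le_rpow_of_exponent_le t1 (by linarith [min_le_left ε 1])
  calc (T.card : ℝ) ≤ ((W.filter fun v => ∀ q ∈ Q, ¬ (∑ i, v i • b i) ∈ q.asIdeal).card : ℝ) := by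
        exact_mod_cast hT1
    _ ≤ γ * ((Real.exp (2 * C + 2) + 2) * (1 / Real.log h ^ (1 - ε))) := by
        refine hsieve.trans (mul_le_mul_of_nonneg_left (hfinal.trans ?_) hγ0)
        exact mul_le_mul_of_nonneg_left hmin (by positivity)
    _ ≤ ((1 / 2) ^ MM.card * ((3 * c * K) ^ D * h)) *
        ((Real.exp (2 * C + 2) + 2) * (1 / Real.log h ^ (1 - ε))) := by
        refine mul_le_mul_of_nonneg_right hγ1 ?_
        have : 0 < Real.log h := by linarith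
        positivity
    _ = (3 * c * K) ^ D * (Real.exp (2 * C + 2) + 2) * (1 / 2) ^ MM.card *
        (h / Real.log h ^ (1 - ε)) := by ring

end

end Pool.Agent.HG
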