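import Pool.Agent.Helper5.HG.BTL
import Pool.Agent.Helper97.HG.Emb

/-!
# HG, block G3: the weights
-/

set_option autoImplicit false

namespace Pool.Agent.HG

open Polynomial NumberField IsDedekindDomain
open scoped Pointwise IntermediateField

section mertens

variable {k : Type} [Field k] [NumberField k]

open scoped Classical in
/-- a lower bound for the primes of a set between `y` and `x` -/
theorem diff5 {B : ℕ → Finset (Pr k)} (hB : ∀ x v, v ∈ B x ↔ nm v ≤ x) (Q : Set (Pr k)) {δ C : ℝ}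
    (hC : ∀ x : ℕ, 2 ≤ x →
      |∑ v ∈ (B x).filter (· ∈ Q), (1 : ℝ) / nm v - δ * Real.log (Real.log x)| ≤ C)
    (E : Finset (Pr k)) {y x : ℕ} (hy : 2 ≤ y) (hyx : y ≤ x) (S : Finset (Pr k))
    (hS : ∀ v ∈ Q, y < nm v → nm v ≤ x → v ∉ E → v ∈ S) :
    δ * (Real.log (Real.log x) - Real.log (Real.log y)) - (2 * C + ∑ v ∈ E, (1 : ℝ) / nm v) ≤
      ∑ v ∈ S, (1 : ℝ) / nm v := by
  have h1 := abs_le.1 (hC x (hy.trans hyx))
  have h2 := abs_le.1 (hC y hy)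
  have h0 : ∀ v : Pr k, (0 : ℝ) ≤ 1 / nm v := fun v => by positivity
  have h3 : (B x).filter (· ∈ Q) ⊆ ((B y).filter (· ∈ Q) ∪ S) ∪ E := by
    intro v hv
    rw [Finset.mem_filter, hB] at hv
    rw [Finset.mem_union, Finset.mem_union, Finset.mem_filter, hB]
    by_cases h4 : nm v ≤ y
    · exact Or.inl (Or.inl ⟨h4, hv.2⟩)
    · by_cases h5 : v ∈ E
      · exact Or.inr h5
      · exact Or.inl (Or.inr (hS v hv.2 (not_le.1 h4) hv.1 h5))
  have h4 := Finset.sum_le_sum_of_subset_of_nonneg h3 (fun v _ _ => h0 v)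
  have h5 : ∑ v ∈ ((B y).filter (· ∈ Q) ∪ S) ∪ E, (1 : ℝ) / nm v ≤
      ∑ v ∈ (B y).filter (· ∈ Q) ∪ S, (1 : ℝ) / nm v + ∑ v ∈ E, (1 : ℝ) / nm v := by
    rw [← Finset.sum_union_inter]
    have : (0 : ℝ) ≤ ∑ v ∈ ((B y).filter (· ∈ Q) ∪ S) ∩ E, (1 : ℝ) / nm v :=
      Finset.sum_nonneg fun v _ => h0 v
    linarith
  have h6 : ∑ v ∈ (B y).filter (· ∈ Q) ∪ S, (1 : ℝ) / nm v ≤
      ∑ v ∈ (B y).filter (· ∈ Q), (1 : ℝ) / nm v + ∑ v ∈ S, (1 : ℝ) / nm v := by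
    rw [← Finset.sum_union_inter]
    have : (0 : ℝ) ≤ ∑ v ∈ (B y).filter (· ∈ Q) ∩ S, (1 : ℝ) / nm v :=
      Finset.sum_nonneg fun v _ => h0 v
    linarith
  linarith [h1.1, h2.2]

/-- an upper bound for all primes between `y` and `x` -/
theorem upper5 {B : ℕ → Finset (Pr k)} (hB : ∀ x v, v ∈ B x ↔ nm v ≤ x) {C : ℝ}
    (hC : ∀ x : ℕ, 2 ≤ x → |∑ v ∈ B x, (1 : ℝ) / nm v - Real.log (Real.log x)| ≤ C)
    {y x : ℕ} (hy : 2 ≤ y) (hyx : y ≤ x) (S : Finset (Pr k))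
    (hS : ∀ v ∈ S, y < nm v ∧ nm v ≤ x) :
    ∑ v ∈ S, (1 : ℝ) / nm v ≤ Real.log (Real.log x) - Real.log (Real.log y) + 2 * C := by
  classical
  have h1 := abs_le.1 (hC x (hy.trans hyx))
  have h2 := abs_le.1 (hC y hy)
  have h0 : ∀ v : Pr k, (0 : ℝ) ≤ 1 / nm v := fun v => by positivity
  have hd : Disjoint S (B y) := Finset.disjoint_left.2 fun v hv hv' => by
    rw [hB] at hv'
    have := (hS v hv).1
    omega
  have h3 : S ∪ B y ⊆ B x := by
    intro v hv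
    rw [hB]
    rcases Finset.mem_union.1 hv with hv | hv
    · exact (hS v hv).2
    · rw [hB] at hv
      omega
  have h4 := Finset.sum_le_sum_of_subset_of_nonneg h3 (fun v _ _ => h0 v)
  rw [Finset.sum_union hd] at h4
  linarith [h1.2, h2.1]

theorem sys5 (hMe : StmtMert) (k : Type) [Field k] [NumberField k] :
    Pool.Agent.Helper99.HG.Sys (Pr k) nm := by
  obtain ⟨B, hB⟩ := exists_B5 k
  obtain ⟨⟨C₁, h1⟩, C₂, h2⟩ := hMe k B hB
  refine ⟨fun p => (card_quot5 p).2, ?_, ?_, ?_⟩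
  · intro x
    refine (B x).finite_toSet.subset fun v hv => ?_
    rw [Finset.mem_coe, hB]
    exact hv
  · refine ⟨C₁, fun x S hS => (Finset.sum_le_sum_of_subset_of_nonneg (t := B x) ?_ ?_).trans (h1 x)⟩
    · intro v hv
      rw [hB]
      exact hS v hv
    · intro v _ _
      apply Real.log_nonneg
      have := (card_quot5 v).2
      exact_mod_cast (by omega : 1 ≤ nm v)
  · exact ⟨2 * C₂, fun y x hy hyx S hS => upper5 hB h2 hy hyx S hS⟩

end mertens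

/-! ### arithmetic -/

theorem five5 {n : ℕ} (h : 5 ≤ n) : 32 * n ≤ 5 * 2 ^ n := by
  induction n, h using Nat.le_induction with
  | base => norm_num
  | succ n hn ih =>
    rw [pow_succ]
    have : 32 ≤ 2 ^ n := by
      calc 32 = 2 ^ 5 := by norm_num
        _ ≤ 2 ^ n := Nat.pow_le_pow_right two_pos hn
    omega

theorem four5 {n r : ℕ} (h : (5 ≤ n ∧ n ≤ r) ∨ n + 1 ≤ r) : 4 * n ≤ 2 ^ r := by
  rcases h with ⟨h1, h2⟩ | h
  · have h3 := five5 h1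
    have h4 : 2 ^ n ≤ 2 ^ r := Nat.pow_le_pow_right two_pos h2
    omega
  · have h4 : 2 ^ (n + 1) ≤ 2 ^ r := Nat.pow_le_pow_right two_pos h
    rcases n with _ | n
    · omega
    · have h5 : n < 2 ^ n := Nat.lt_two_pow_self
      rw [pow_succ, pow_succ] at h4
      omega

namespace Ctx

variable {k L : Type} [Field k] [NumberField k] [Field L] [NumberField L] [Algebra k L]
  [IsGalois k L] {f : k[X]} (X : Ctx k L f)

theorem cmp_congr5 (hm : 0 < X.m) {θ θ' : L} (h : minpoly k θ = minpoly k θ') :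
    X.cmp hm θ = X.cmp hm θ' := by
  classical
  by_cases h1 : minpoly k θ ∈ X.cls
  · have h2 : minpoly k θ' ∈ X.cls := h ▸ h1
    have e : (⟨minpoly k θ, h1⟩ : X.cls) = ⟨minpoly k θ', h2⟩ := Subtype.ext h
    unfold cmp
    rw [dif_pos h1, dif_pos h2, e]
  · have h2 : minpoly k θ' ∉ X.cls := h ▸ h1
    unfold cmp
    rw [dif_neg h1, dif_neg h2]

theorem minpoly_iter5 (v : Pr k) (θ : L) (i : ℕ) :
    minpoly k ((X.F v)^[i] θ) = minpoly k θ := by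
  induction i with
  | zero => rfl
  | succ i ih =>
    rw [Function.iterate_succ_apply', minpoly.algEquiv_eq, ih]

theorem cmp_rep5 (hm : 0 < X.m) (v : Pr k) (θ : L) : X.cmp hm (X.rep v θ) = X.cmp hm θ := by
  obtain ⟨i, hi⟩ := X.rep_eq v θ
  exact X.cmp_congr5 hm (by rw [hi, X.minpoly_iter5])

theorem rep_fix5 {v : Pr k} {θ : L} (h : X.F v θ = θ) : X.rep v θ = θ := by
  obtain ⟨i, hi⟩ := X.rep_eq v θ
  rw [hi]
  exact Function.iterate_fixed h i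

/-- if the representative is fixed, the root is -/
theorem fix_rep5 {v : Pr k} {θ : L} (h : X.F v (X.rep v θ) = X.rep v θ) : X.F v θ = θ := by
  obtain ⟨i, hi⟩ := X.rep_eq v θ
  obtain ⟨n, hn, hn'⟩ := X.finite_order v θ
  -- `θ` is an iterate of its representative
  have h1 : (X.F v)^[n * i - i] (X.rep v θ) = θ := by
    rw [hi, ← Function.iterate_add_apply]
    have h2 : n * i - i + i = n * i := by
      have : i ≤ n * i := Nat.le_mul_of_pos_left i hn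
      omega
    rw [h2, Function.iterate_mul]
    exact Function.iterate_fixed hn' i
  have h2 : (X.F v)^[n * i - i] (X.rep v θ) = X.rep v θ := Function.iterate_fixed h _
  have h3 : X.rep v θ = θ := h2.symm.trans h1
  rw [← h3]
  exact h

open scoped Classical in
/-- the representatives in the components of `J` -/
noncomputable def RJ5 (hm : 0 < X.m) (J : Finset (Fin X.m)) (v : Pr k) : Finset L :=
  (X.R v).filter fun ρ => X.cmp hm ρ ∈ J

open scoped Classical in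
/-- the fixed roots in the components of `J` -/
noncomputable def FJ5 (hm : 0 < X.m) (J : Finset (Fin X.m)) (v : Pr k) : Finset L :=
  (X.Fx v).filter fun ρ => X.cmp hm ρ ∈ J

open scoped Classical in
/-- the roots in the components of `J` -/
noncomputable def ΩJ5 (hm : 0 < X.m) (J : Finset (Fin X.m)) : Finset L :=
  X.Ω.filter fun ρ => X.cmp hm ρ ∈ J

theorem mem_RJ5 (hm : 0 < X.m) (J : Finset (Fin X.m)) (v : Pr k) (ρ : L) :
    ρ ∈ X.RJ5 hm J v ↔ ρ ∈ X.R v ∧ X.cmp hm ρ ∈ J := by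
  unfold RJ5
  rw [Finset.mem_filter]

theorem mem_FJ5 (hm : 0 < X.m) (J : Finset (Fin X.m)) (v : Pr k) (ρ : L) :
    ρ ∈ X.FJ5 hm J v ↔ (ρ ∈ X.Ω ∧ X.F v ρ = ρ) ∧ X.cmp hm ρ ∈ J := by
  classical
  unfold FJ5 Fx
  rw [Finset.mem_filter, Finset.mem_filter]

theorem mem_ΩJ5 (hm : 0 < X.m) (J : Finset (Fin X.m)) (ρ : L) :
    ρ ∈ X.ΩJ5 hm J ↔ ρ ∈ X.Ω ∧ X.cmp hm ρ ∈ J := by
  unfold ΩJ5
  rw [Finset.mem_filter]

theorem FJ_sub_ΩJ5 (hm : 0 < X.m) (J : Finset (Fin X.m)) (v : Pr k) :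
    X.FJ5 hm J v ⊆ X.ΩJ5 hm J := fun ρ h => by
  rw [mem_FJ5] at h
  rw [mem_ΩJ5]
  exact ⟨h.1.1, h.2⟩

theorem fix_mem_R5 {v : Pr k} {θ : L} (h : θ ∈ X.Ω) (h' : X.F v θ = θ) : θ ∈ X.R v := by
  classical
  unfold R
  rw [Finset.mem_image]
  exact ⟨θ, h, X.rep_fix5 h'⟩

theorem FJ_sub_RJ5 (hm : 0 < X.m) (J : Finset (Fin X.m)) (v : Pr k) :
    X.FJ5 hm J v ⊆ X.RJ5 hm J v := fun ρ h => by
  rw [mem_FJ5] at h
  rw [mem_RJ5]
  exact ⟨X.fix_mem_R5 h.1.1 h.1.2, h.2⟩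

/-- if not all roots are fixed there is one more orbit -/
theorem card_RJ5 (hm : 0 < X.m) (J : Finset (Fin X.m)) (v : Pr k)
    (h : (X.FJ5 hm J v).card < (X.ΩJ5 hm J).card) :
    (X.FJ5 hm J v).card + 1 ≤ (X.RJ5 hm J v).card := by
  classical
  obtain ⟨θ, hθ, hθ'⟩ := Finset.exists_mem_notMem_of_card_lt_card h
  rw [mem_ΩJ5] at hθ
  rw [mem_FJ5] at hθ'
  have h1 : X.rep v θ ∈ X.RJ5 hm J v := by
    rw [mem_RJ5, X.cmp_rep5]
    refine ⟨?_, hθ.2⟩
    unfold R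
    exact Finset.mem_image_of_mem _ hθ.1
  have h2 : X.rep v θ ∉ X.FJ5 hm J v := by
    rw [mem_FJ5]
    intro h3
    exact hθ' ⟨⟨hθ.1, X.fix_rep5 h3.1.2⟩, hθ.2⟩
  exact Finset.card_lt_card ((Finset.ssubset_iff_of_subset (X.FJ_sub_RJ5 hm J v)).2 ⟨_, h1, h2⟩)

open scoped Classical in
theorem wj_def5 (hm : 0 < X.m) (hfin : {v : Pr k | ¬ Gd X.M v}.Finite)
    (g : Pr k → L × ℤˣ → L → ℤˣ) (J : Finset (Fin X.m)) (v : Pr k) :
    Pool.Agent.Helper99.HG.WJ (X.cd hm hfin g) J v =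
      ∑ o ∈ (X.Fx v ×ˢ (Finset.univ : Finset ℤˣ)).filter (fun o : L × ℤˣ => X.cmp hm o.1 ∈ J),
        (1 / 2 : ℝ) ^ (∑ j ∈ J, (((X.R v).filter fun ρ => X.cmp hm ρ = j).erase o.1).card) := rfl

/-- the weight -/
theorem wj5 (hm : 0 < X.m) (hfin : {v : Pr k | ¬ Gd X.M v}.Finite) (g : Pr k → L × ℤˣ → L → ℤˣ)
    (J : Finset (Fin X.m)) (v : Pr k) :
    Pool.Agent.Helper99.HG.WJ (X.cd hm hfin g) J v =
      4 * (X.FJ5 hm J v).card * (1 / 2 : ℝ) ^ (X.RJ5 hm J v).card := by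
  classical
  have h3 : (X.Fx v ×ˢ (Finset.univ : Finset ℤˣ)).filter (fun o : L × ℤˣ => X.cmp hm o.1 ∈ J) =
      X.FJ5 hm J v ×ˢ (Finset.univ : Finset ℤˣ) := by
    ext o
    rw [Finset.mem_filter, Finset.mem_product, Finset.mem_product, mem_FJ5]
    unfold Fx
    rw [Finset.mem_filter]
    simp only [Finset.mem_univ, and_true]
  have h1 : ∀ o ∈ X.FJ5 hm J v ×ˢ (Finset.univ : Finset ℤˣ),
      (1 / 2 : ℝ) ^ (∑ j ∈ J, (((X.R v).filter fun ρ => X.cmp hm ρ = j).erase o.1).card) =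
        2 * (1 / 2 : ℝ) ^ (X.RJ5 hm J v).card := by
    intro o ho
    have h2 := (Finset.mem_product.1 ho).1
    have h3 : o.1 ∈ X.RJ5 hm J v := X.FJ_sub_RJ5 hm J v h2
    have h4 : ∑ j ∈ J, (((X.R v).filter fun ρ => X.cmp hm ρ = j).erase o.1).card =
        ((X.RJ5 hm J v).erase o.1).card := by
      rw [Finset.card_eq_sum_card_fiberwise (f := X.cmp hm) (t := J)]
      · refine Finset.sum_congr rfl fun j hj => ?_
        congr 1
        ext ρ
        rw [Finset.mem_erase, Finset.mem_filter, Finset.mem_filter, Finset.mem_erase, mem_RJ5]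
        constructor
        · rintro ⟨a1, a2, a3⟩
          exact ⟨⟨a1, a2, by rw [a3]; exact hj⟩, a3⟩
        · rintro ⟨⟨a1, a2, _⟩, a3⟩
          exact ⟨a1, a2, a3⟩
      · intro ρ hρ
        have h5 := Finset.mem_of_mem_erase hρ
        exact ((X.mem_RJ5 hm J v ρ).1 h5).2
    rw [h4]
    have h5 := Finset.card_erase_add_one h3
    rw [← h5, pow_succ]
    ring
  have hu : (Finset.univ : Finset ℤˣ).card = 2 := rfl
  rw [X.wj_def5]
  rw [h3, Finset.sum_congr rfl h1, Finset.sum_const, Finset.card_product, hu, nsmul_eq_mul]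
  push_cast
  ring

/-- the weight is at most `1` -/
theorem wj_le5 (hm : 0 < X.m) (hfin : {v : Pr k | ¬ Gd X.M v}.Finite)
    (g : Pr k → L × ℤˣ → L → ℤˣ) (J : Finset (Fin X.m)) (h5 : 5 ≤ (X.ΩJ5 hm J).card) (v : Pr k) :
    Pool.Agent.Helper99.HG.WJ (X.cd hm hfin g) J v ≤ 1 := by
  rw [X.wj5]
  have h1 : 4 * (X.FJ5 hm J v).card ≤ 2 ^ (X.RJ5 hm J v).card := by
    apply four5
    rcases lt_or_ge (X.FJ5 hm J v).card (X.ΩJ5 hm J).card with h | h
    · exact Or.inr (X.card_RJ5 hm J v h)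
    · exact Or.inl ⟨h5.trans h, Finset.card_le_card (X.FJ_sub_RJ5 hm J v)⟩
  have h2 : (4 : ℝ) * (X.FJ5 hm J v).card ≤ 2 ^ (X.RJ5 hm J v).card := by exact_mod_cast h1
  rw [one_div, inv_pow, ← div_eq_mul_inv, div_le_one (by positivity)]
  exact h2

/-- the weight if all roots are fixed -/
theorem wj_le_split5 (hm : 0 < X.m) (hfin : {v : Pr k | ¬ Gd X.M v}.Finite)
    (g : Pr k → L × ℤˣ → L → ℤˣ) (J : Finset (Fin X.m)) (h5 : 5 ≤ (X.ΩJ5 hm J).card) (v : Pr k)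
    (h : ∀ θ ∈ X.Ω, X.F v θ = θ) :
    Pool.Agent.Helper99.HG.WJ (X.cd hm hfin g) J v ≤ 5 / 8 := by
  rw [X.wj5]
  have h0 : X.FJ5 hm J v = X.ΩJ5 hm J := by
    ext ρ
    rw [mem_FJ5, mem_ΩJ5]
    exact ⟨fun a => ⟨a.1.1, a.2⟩, fun a => ⟨⟨a.1, h ρ a.1⟩, a.2⟩⟩
  have h1 := Finset.card_le_card (X.FJ_sub_RJ5 hm J v)
  rw [← h0] at h5
  have h2 := five5 h5
  have h3 : 2 ^ (X.FJ5 hm J v).card ≤ 2 ^ (X.RJ5 hm J v).card := Nat.pow_le_pow_right two_pos h1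
  have h4 : (32 : ℝ) * (X.FJ5 hm J v).card ≤ 5 * 2 ^ (X.RJ5 hm J v).card := by
    have : 32 * (X.FJ5 hm J v).card ≤ 5 * 2 ^ (X.RJ5 hm J v).card := by omega
    exact_mod_cast this
  rw [one_div, inv_pow, ← div_eq_mul_inv, div_le_div_iff₀ (by positivity) (by norm_num)]
  linarith

theorem wj_nonneg5 (hm : 0 < X.m) (hfin : {v : Pr k | ¬ Gd X.M v}.Finite)
    (g : Pr k → L × ℤˣ → L → ℤˣ) (J : Finset (Fin X.m)) (v : Pr k) :
    0 ≤ Pool.Agent.Helper99.HG.WJ (X.cd hm hfin g) J v := by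
  rw [X.wj5]
  positivity

/-- where `z ^ nm v - z` is divisible by `P v` for all integers `z` the Frobenius element fixes all
roots -/
theorem fix_split5 {v : Pr k} (hv : Gd X.M v)
    (h : ∀ z : 𝓞 L, z ^ nm v - z ∈ (X.P v).asIdeal) {θ : L} (hθ : θ ∈ X.Ω) : X.F v θ = θ := by
  have h1 := X.val_root hv hθ
  obtain ⟨a, b, hb, hab⟩ := exists_frac (X.P v) h1
  have hb1 := (val_int_one (X.P v) b).2 hb
  have hb0 : (b : L) ≠ 0 := by
    intro h0
    rw [h0, map_zero] at hb1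
    exact zero_ne_one hb1
  have hmem : a ^ nm v * b - a * b ^ nm v ∈ (X.P v).asIdeal := by
    have e : a ^ nm v * b - a * b ^ nm v = (a ^ nm v - a) * b - a * (b ^ nm v - b) := by ring
    rw [e]
    exact Ideal.sub_mem _ (Ideal.mul_mem_right _ _ (h a)) (Ideal.mul_mem_left _ _ (h b))
  have h2 := (val_int_lt (X.P v) _).2 hmem
  have h3 : ((a ^ nm v * b - a * b ^ nm v : 𝓞 L) : L) = (θ ^ nm v - θ) * (b : L) ^ (nm v + 1) := by
    have e : ((a ^ nm v * b - a * b ^ nm v : 𝓞 L) : L) =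
        (a : L) ^ nm v * (b : L) - (a : L) * (b : L) ^ nm v := by
      push_cast
      rfl
    rw [e, ← hab]
    ring
  rw [h3, map_mul, map_pow, hb1, one_pow, mul_one] at h2
  have h4 := X.frob v θ h1
  have h5 : (X.P v).valuation L (X.F v θ - θ) < 1 := by
    have e : X.F v θ - θ = (X.F v θ - θ ^ nm v) + (θ ^ nm v - θ) := by ring
    rw [e]
    exact Valuation.map_add_lt _ h4 h2
  exact X.eq_of_lt hv (X.F_mem_Ω v hθ) hθ h5

open Pool.Agent.Helper99.HG in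
/-- few roots: the primes without fixed roots have positive density -/
theorem ta5 (hDer : StmtDer) (hm : 0 < X.m) (hfin : {v : Pr k | ¬ Gd X.M v}.Finite)
    (g : Pr k → L × ℤˣ → L → ℤˣ) (J : Finset (Fin X.m)) (h4 : (X.ΩJ5 hm J).card ≤ 4)
    (hnr : ∀ θ ∈ X.ΩJ5 hm J, ∀ a : k, θ ≠ algebraMap k L a) :
    TA (X.cd hm hfin g) J := by
  obtain ⟨B, hB⟩ := exists_B5 k
  have hst : ∀ σ : L ≃ₐ[k] L, ∀ θ ∈ X.ΩJ5 hm J, σ θ ∈ X.ΩJ5 hm J := by
    intro σ θ hθ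
    rw [mem_ΩJ5] at hθ ⊢
    refine ⟨?_, ?_⟩
    · have h1 := hθ.1
      rw [mem_Ω, mem_rootSet] at h1 ⊢
      refine ⟨h1.1, ?_⟩
      have h2 : aeval (σ θ) f = σ (aeval θ f) := aeval_algHom_apply (σ : L →ₐ[k] L) θ f
      rw [h2, h1.2, map_zero]
    · rw [X.cmp_congr5 hm (minpoly.algEquiv_eq σ θ)]
      exact hθ.2
  obtain ⟨δ, C, Q, hδ, hQ, hC⟩ := hDer k L (X.ΩJ5 hm J) hst hnr h4 B hB
  refine ⟨δ, 2 * C + ∑ v ∈ hfin.toFinset, (1 : ℝ) / nm v, hδ,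
    fun y x hy hyx (S : Finset (Pr k)) hS => ?_⟩
  refine diff5 hB Q hC hfin.toFinset hy hyx S fun v hvQ h1 h2 h3 => ?_
  refine (hS v).2 ⟨h3, h1, h2, ?_⟩
  intro o ho hoJ
  have h5 : o ∈ X.Fx v ×ˢ (Finset.univ : Finset ℤˣ) := ho
  have h6 := (Finset.mem_product.1 h5).1
  have h7 : o.1 ∈ X.FJ5 hm J v := by
    classical
    rw [mem_FJ5]
    unfold Fx at h6
    rw [Finset.mem_filter] at h6
    exact ⟨h6, hoJ⟩
  have hv : Gd X.M v := by
    by_contra h8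
    exact h3 (hfin.mem_toFinset.2 h8)
  have h8 := X.FJ_sub_ΩJ5 hm J v h7
  rw [mem_FJ5] at h7
  refine hQ v hvQ (X.P v) (X.comap v) o.1 h8 ?_
  have h9 := X.frob v o.1 (X.val_root hv h7.1.1)
  rw [h7.1.2, Valuation.map_sub_swap] at h9
  exact h9

open Pool.Agent.Helper99.HG in
/-- many roots: the weights are less than `1` in the mean -/
theorem tb5 (hMe : StmtMert) (hSp : StmtSplit) (hm : 0 < X.m)
    (hfin : {v : Pr k | ¬ Gd X.M v}.Finite)
    (g : Pr k → L × ℤˣ → L → ℤˣ) (J : Finset (Fin X.m)) (h5 : 5 ≤ (X.ΩJ5 hm J).card) :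
    TB (X.cd hm hfin g) J := by
  classical
  obtain ⟨B, hB⟩ := exists_B5 k
  obtain ⟨_, C₂, h2⟩ := hMe k B hB
  obtain ⟨δ, C, Q, hδ, hQ, hC⟩ := hSp k L B hB
  refine ⟨?_, 3 / 8 * δ, 2 * C₂ + 3 / 8 * (2 * C + ∑ v ∈ hfin.toFinset, (1 : ℝ) / nm v),
    by positivity, fun y x hy hyx (S : Finset (Pr k)) hS => ?_⟩
  · obtain ⟨θ, hθ⟩ := Finset.card_pos.1 (show 0 < (X.ΩJ5 hm J).card by omega)
    rw [mem_ΩJ5] at hθ
    exact ⟨_, hθ.2⟩
  · have hS' : ∀ v, v ∈ S ↔ v ∉ hfin.toFinset ∧ y < nm v ∧ nm v ≤ x := hS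
    have e1 := upper5 hB h2 hy hyx S fun v hv => ((hS' v).1 hv).2
    have e2 := diff5 hB Q (by convert hC) hfin.toFinset hy hyx (S.filter (· ∈ Q))
      fun v hvQ h1 h2 h3 => by
        rw [Finset.mem_filter, hS']
        exact ⟨⟨h3, h1, h2⟩, hvQ⟩
    have e3 : ∀ v ∈ S, WJ (X.cd hm hfin g) J v / nm v ≤
        1 / nm v - 3 / 8 * (if v ∈ Q then (1 : ℝ) / nm v else 0) := by
      intro v hv
      have hpos : (0 : ℝ) < nm v := by
        have := (card_quot5 v).2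
        exact_mod_cast (by omega : 0 < nm v)
      split_ifs with h
      · have hgd : Gd X.M v := by
          by_contra h8
          exact ((hS' v).1 hv).1 (hfin.mem_toFinset.2 h8)
        have h6 := X.wj_le_split5 hm hfin g J h5 v fun θ hθ =>
          X.fix_split5 hgd (hQ v h (X.P v) (X.comap v)) hθ
        have h7 : (1 : ℝ) / nm v - 3 / 8 * (1 / nm v) = (5 / 8) / nm v := by ring
        rw [h7]
        exact div_le_div_of_nonneg_right h6 hpos.le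
      · have h6 := X.wj_le5 hm hfin g J h5 v
        rw [mul_zero, sub_zero]
        exact div_le_div_of_nonneg_right h6 hpos.le
    have e4 : ∑ v ∈ S, WJ (X.cd hm hfin g) J v / nm v ≤
        ∑ v ∈ S, (1 : ℝ) / nm v - 3 / 8 * ∑ v ∈ S.filter (· ∈ Q), (1 : ℝ) / nm v := by
      refine (Finset.sum_le_sum e3).trans (le_of_eq ?_)
      rw [Finset.sum_sub_distrib, ← Finset.mul_sum, Finset.sum_filter]
    change ∑ v ∈ S, WJ (X.cd hm hfin g) J v / nm v ≤ _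
    linarith

end Ctx

/-- **BLOCK G3**: the weights -/
theorem g3 : StmtG3 := by
  intro hMe hSp hDer k L _ _ _ _ _ _ f X hroot hm hfin g
  refine ⟨sys5 hMe k, ⟨X.Ω.card * 2, fun p => ?_⟩, fun J => ?_⟩
  · classical
    change (X.Fx p ×ˢ (Finset.univ : Finset ℤˣ)).card ≤ _
    have hu : (Finset.univ : Finset ℤˣ).card = 2 := rfl
    rw [Finset.card_product, hu]
    refine Nat.mul_le_mul_right 2 ?_
    unfold Ctx.Fx
    exact Finset.card_filter_le _ _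
  · rcases Nat.lt_or_ge (X.ΩJ5 hm J).card 5 with h | h
    · refine Or.inl (X.ta5 hDer hm hfin g J (by omega) ?_)
      rintro θ hθ a rfl
      rw [Ctx.mem_ΩJ5, Ctx.mem_Ω, mem_rootSet] at hθ
      have h1 := hθ.1.2
      rw [aeval_algebraMap_apply, map_eq_zero] at h1
      exact hroot a (by rw [← h1]; rfl)
    · exact Or.inr (X.tb5 hMe hSp hm hfin g J h)

end Pool.Agent.HG
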