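import Pool.Agent.Helper5.HG.Cnt
import Pool.Agent.Helper57.ED.ZrA

/-!
# HALL GAPS, block SB: Rankin's trick for the total sum
-/

set_option autoImplicit false

open Finset Pool.Agent.Helper57.ED

namespace Pool.Agent.HG5

/-- the sum of `N^(-1-s)` over the multiples of `q` -/
lemma hasSum_mult5 {q : ℕ} (hq : q ≠ 0) {s : ℝ} (hs : 0 < s) :
    HasSum (fun N : ℕ => if q ∣ N ∧ N ≠ 0 then (N : ℝ) ^ (-1 - s) else 0) ((q : ℝ) ^ (-1 - s) * zs ((1 + s) / 2)) := by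
  have hσ : 1 / 2 < (1 + s) / 2 := by linarith
  have h1 : HasSum (fun k : ℕ => ((k : ℝ) + 1) ^ (-2 * ((1 + s) / 2))) (zs ((1 + s) / 2)) := (summable_zs hσ).hasSum
  have h2 := h1.mul_left ((q : ℝ) ^ (-1 - s))
  have hinj : Function.Injective (fun k : ℕ => q * (k + 1)) := fun a b hab => by
    have := Nat.eq_of_mul_eq_mul_left (Nat.pos_of_ne_zero hq) hab
    omega
  rw [← hinj.hasSum_iff]
  · refine h2.congr_fun ?_
    intro k
    change (if q ∣ q * (k + 1) ∧ q * (k + 1) ≠ 0 then ((q * (k + 1) : ℕ) : ℝ) ^ (-1 - s) else 0) = _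
    rw [if_pos ⟨dvd_mul_right _ _, mul_ne_zero hq (Nat.succ_ne_zero k)⟩]
    push_cast
    rw [Real.mul_rpow (by positivity) (by positivity)]
    congr 2
    ring
  · intro N hN
    rw [if_neg]
    rintro ⟨⟨k, rfl⟩, h3⟩
    apply hN
    have hk : k ≠ 0 := fun h => h3 (by rw [h, mul_zero])
    exact ⟨k - 1, by
      change q * (k - 1 + 1) = q * k
      rw [Nat.sub_add_cancel (Nat.pos_of_ne_zero hk)]⟩

/-- Rankin's trick -/
theorem total5 (D : Finset ℕ) (hD : ∀ m ∈ D, 1 ≤ m) (c : ℕ → ℂ) {s : ℝ} (hs : 0 < s) (M : Finset ℕ) (hM : ∀ N ∈ M, N ≠ 0) :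
    ∑ N ∈ M, ‖∑ m ∈ D.filter (· ∣ N), c m‖ ^ 2 * (N : ℝ) ^ (-1 - s) ≤
      ‖∑ m ∈ D, ∑ n ∈ D, c m * (starRingEnd ℂ) (c n) * (((Nat.lcm m n : ℝ) ^ (-1 - s) : ℝ) : ℂ)‖ * (1 + 1 / s) := by
  have hσ : 1 / 2 < (1 + s) / 2 := by linarith
  set z := zs ((1 + s) / 2) with hz
  set V := ∑ m ∈ D, ∑ n ∈ D, c m * (starRingEnd ℂ) (c n) * (((Nat.lcm m n : ℝ) ^ (-1 - s) : ℝ) : ℂ) with hV
  have h1 : HasSum (fun N : ℕ => ∑ m ∈ D, ∑ n ∈ D, c m * (starRingEnd ℂ) (c n) *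
      ((if Nat.lcm m n ∣ N ∧ N ≠ 0 then (N : ℝ) ^ (-1 - s) else 0 : ℝ) : ℂ)) (V * (z : ℂ)) := by
    rw [hV, Finset.sum_mul]
    refine hasSum_sum fun m hm => ?_
    rw [Finset.sum_mul]
    refine hasSum_sum fun n hn => ?_
    have h2 := hasSum_mult5 (q := Nat.lcm m n) (Nat.lcm_pos (hD m hm) (hD n hn)).ne' hs
    have h3 : HasSum (fun N : ℕ => ((if Nat.lcm m n ∣ N ∧ N ≠ 0 then (N : ℝ) ^ (-1 - s) else 0 : ℝ) : ℂ))
        ((((Nat.lcm m n : ℝ) ^ (-1 - s) * z : ℝ)) : ℂ) := Complex.hasSum_ofReal.2 h2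
    have h4 := h3.mul_left (c m * (starRingEnd ℂ) (c n))
    rw [Complex.ofReal_mul, ← mul_assoc] at h4
    exact h4
  have e1 : ∀ N : ℕ, ∑ m ∈ D, ∑ n ∈ D, c m * (starRingEnd ℂ) (c n) *
      ((if Nat.lcm m n ∣ N ∧ N ≠ 0 then (N : ℝ) ^ (-1 - s) else 0 : ℝ) : ℂ) =
      ((if N ≠ 0 then ‖∑ m ∈ D.filter (· ∣ N), c m‖ ^ 2 * (N : ℝ) ^ (-1 - s) else 0 : ℝ) : ℂ) := by
    intro N
    by_cases hN : N ≠ 0
    · rw [if_pos hN]
      have h3 : ((‖∑ m ∈ D.filter (· ∣ N), c m‖ ^ 2 : ℝ) : ℂ) =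
          (∑ m ∈ D.filter (· ∣ N), c m) * (starRingEnd ℂ) (∑ m ∈ D.filter (· ∣ N), c m) := by
        rw [Complex.mul_conj, Complex.normSq_eq_norm_sq]
      rw [Complex.ofReal_mul, h3, map_sum, Finset.sum_mul_sum, Finset.sum_filter, Finset.sum_mul]
      refine Finset.sum_congr rfl fun m _ => ?_
      by_cases hm : m ∣ N
      · rw [if_pos hm, Finset.sum_filter, Finset.sum_mul]
        refine Finset.sum_congr rfl fun n _ => ?_
        by_cases hn : n ∣ N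
        · rw [if_pos hn, if_pos ⟨Nat.lcm_dvd hm hn, hN⟩]
        · rw [if_neg hn, if_neg (fun h => hn ((Nat.dvd_lcm_right m n).trans h.1))]
          simp
      · rw [if_neg hm, zero_mul]
        apply Finset.sum_eq_zero
        intro n _
        rw [if_neg (fun h => hm ((Nat.dvd_lcm_left m n).trans h.1))]
        simp
    · push Not at hN
      rw [hN]
      simp
  have h2 : HasSum (fun N : ℕ => (if N ≠ 0 then ‖∑ m ∈ D.filter (· ∣ N), c m‖ ^ 2 * (N : ℝ) ^ (-1 - s) else 0 : ℝ)) (V * (z : ℂ)).re := by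
    have h3 := Complex.hasSum_re h1
    refine h3.congr_fun ?_
    intro N
    rw [e1 N, Complex.ofReal_re]
  have h3 : ∑ N ∈ M, ‖∑ m ∈ D.filter (· ∣ N), c m‖ ^ 2 * (N : ℝ) ^ (-1 - s) =
      ∑ N ∈ M, (if N ≠ 0 then ‖∑ m ∈ D.filter (· ∣ N), c m‖ ^ 2 * (N : ℝ) ^ (-1 - s) else 0 : ℝ) :=
    Finset.sum_congr rfl fun N hN => by rw [if_pos (hM N hN)]
  rw [h3]
  refine (sum_le_hasSum M (fun N _ => ?_) h2).trans ?_
  · split_ifs <;> positivity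
  · refine (Complex.re_le_norm _).trans ?_
    have hz0 : 0 ≤ z := tsum_nonneg fun k => by positivity
    rw [norm_mul, Complex.norm_real, Real.norm_of_nonneg hz0]
    refine mul_le_mul_of_nonneg_left ?_ (norm_nonneg _)
    have h4 := zs_le hσ
    have h5 : 2 * ((1 + s) / 2) - 1 = s := by ring
    rw [h5] at h4
    exact h4

end Pool.Agent.HG5
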