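import Mathlib

/-!
# HALL GAPS: factorisation of sums over numbers built from disjoint cells of primes

`Fp D J` = the products `n_0 ... n_(J-1)` with `n_j ∈ D j`.
-/

set_option autoImplicit false

open Finset

namespace Pool.Agent.HG5

/-- the products of one element of each of the sets `D 0, ..., D (J-1)` -/
def Fp (D : ℕ → Finset ℕ) : ℕ → Finset ℕ
  | 0 => {1}
  | J + 1 => (Fp D J ×ˢ D J).image (fun x => x.1 * x.2)

/-- the cells `S j` are pairwise disjoint, the elements of `D j` are positive with all their primes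
in `S j`. -/
structure Cells (S D : ℕ → Finset ℕ) : Prop where
  disj : ∀ i j, i ≠ j → Disjoint (S i) (S j)
  pos : ∀ j, ∀ n ∈ D j, n ≠ 0
  fac : ∀ j, ∀ n ∈ D j, ∀ p : ℕ, p.Prime → p ∣ n → p ∈ S j

theorem Fp_zero (D : ℕ → Finset ℕ) : Fp D 0 = {1} := rfl

theorem Fp_succ (D : ℕ → Finset ℕ) (J : ℕ) : Fp D (J + 1) = (Fp D J ×ˢ D J).image (fun x => x.1 * x.2) := rfl

theorem mem_Fp_succ {D : ℕ → Finset ℕ} {J m : ℕ} : m ∈ Fp D (J + 1) ↔ ∃ u ∈ Fp D J, ∃ v ∈ D J, u * v = m := by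
  rw [Fp_succ, mem_image]
  constructor
  · rintro ⟨⟨u, v⟩, h, rfl⟩
    rw [mem_product] at h
    exact ⟨u, h.1, v, h.2, rfl⟩
  · rintro ⟨u, hu, v, hv, rfl⟩
    exact ⟨(u, v), mem_product.2 ⟨hu, hv⟩, rfl⟩

variable {S D : ℕ → Finset ℕ}

theorem Cells.Fp_pos (h : Cells S D) : ∀ J : ℕ, ∀ n ∈ Fp D J, n ≠ 0
  | 0 => fun n hn => by rw [Fp_zero, mem_singleton] at hn; omega
  | J + 1 => fun n hn => by
    obtain ⟨u, hu, v, hv, rfl⟩ := mem_Fp_succ.1 hn
    exact mul_ne_zero (h.Fp_pos J u hu) (h.pos J v hv)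

theorem Cells.Fp_fac (h : Cells S D) : ∀ J : ℕ, ∀ n ∈ Fp D J, ∀ p : ℕ, p.Prime → p ∣ n → ∃ i < J, p ∈ S i
  | 0 => fun n hn p hp hpn => by
    rw [Fp_zero, mem_singleton] at hn
    rw [hn] at hpn
    exact absurd (Nat.dvd_one.1 hpn) hp.one_lt.ne'
  | J + 1 => fun n hn p hp hpn => by
    obtain ⟨u, hu, v, hv, rfl⟩ := mem_Fp_succ.1 hn
    rcases hp.dvd_mul.1 hpn with h1 | h1
    · obtain ⟨i, hi, h2⟩ := h.Fp_fac J u hu p hp h1
      exact ⟨i, by omega, h2⟩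
    · exact ⟨J, by omega, h.fac J v hv p hp h1⟩

theorem Cells.coprime (h : Cells S D) {J u v : ℕ} (hu : u ∈ Fp D J) (hv : v ∈ D J) : Nat.Coprime u v := by
  apply Nat.coprime_of_dvd
  intro p hp hpu hpv
  obtain ⟨i, hi, h1⟩ := h.Fp_fac J u hu p hp hpu
  have h2 := h.fac J v hv p hp hpv
  exact (Finset.disjoint_left.1 (h.disj i J (by omega)) h1 h2).elim

theorem Cells.inj (h : Cells S D) {J u v u' v' : ℕ} (hu : u ∈ Fp D J) (hv : v ∈ D J) (hu' : u' ∈ Fp D J)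
    (hv' : v' ∈ D J) (e : u * v = u' * v') : u = u' ∧ v = v' := by
  have h1 : u ∣ u' := (h.coprime hu hv').dvd_of_dvd_mul_right (e ▸ dvd_mul_right u v)
  have h2 : u' ∣ u := (h.coprime hu' hv).dvd_of_dvd_mul_right (e.symm ▸ dvd_mul_right u' v')
  have h3 : u = u' := Nat.dvd_antisymm h1 h2
  refine ⟨h3, ?_⟩
  rw [h3] at e
  exact Nat.eq_of_mul_eq_mul_left (Nat.pos_of_ne_zero (h.Fp_pos J u' hu')) e

variable {R : Type*} [CommSemiring R]

theorem Cells.sum_succ (h : Cells S D) (J : ℕ) {M : Type*} [AddCommMonoid M] (f : ℕ → M) :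
    ∑ m ∈ Fp D (J + 1), f m = ∑ u ∈ Fp D J, ∑ v ∈ D J, f (u * v) := by
  rw [Fp_succ, Finset.sum_image, Finset.sum_product]
  rintro ⟨u, v⟩ h1 ⟨u', v'⟩ h2 e
  rw [Finset.mem_coe, mem_product] at h1 h2
  obtain ⟨h3, h4⟩ := h.inj h1.1 h1.2 h2.1 h2.2 e
  exact Prod.ext h3 h4

/-- FACT, one variable -/
theorem Cells.fact1 (h : Cells S D) (f : ℕ → R) (f1 : f 1 = 1)
    (hf : ∀ J : ℕ, ∀ u ∈ Fp D J, ∀ v ∈ D J, f (u * v) = f u * f v) (J : ℕ) :
    ∑ m ∈ Fp D J, f m = ∏ j ∈ range J, ∑ m ∈ D j, f m := by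
  induction J with
  | zero => simp [Fp_zero, f1]
  | succ J ih =>
    rw [h.sum_succ, prod_range_succ, ← ih, Finset.sum_mul_sum]
    exact Finset.sum_congr rfl fun u hu => Finset.sum_congr rfl fun v hv => hf J u hu v hv

/-- FACT, two variables -/
theorem Cells.fact2 (h : Cells S D) (f : ℕ → ℕ → R) (f1 : f 1 1 = 1)
    (hf : ∀ J : ℕ, ∀ u ∈ Fp D J, ∀ u' ∈ Fp D J, ∀ v ∈ D J, ∀ v' ∈ D J, f (u * v) (u' * v') = f u u' * f v v')
    (J : ℕ) : ∑ m ∈ Fp D J, ∑ n ∈ Fp D J, f m n = ∏ j ∈ range J, ∑ m ∈ D j, ∑ n ∈ D j, f m n := by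
  induction J with
  | zero => simp [Fp_zero, f1]
  | succ J ih =>
    rw [h.sum_succ, prod_range_succ, ← ih]
    have e : ∀ u ∈ Fp D J, ∀ v ∈ D J, ∑ n ∈ Fp D (J + 1), f (u * v) n = (∑ u' ∈ Fp D J, f u u') * ∑ v' ∈ D J, f v v' := by
      intro u hu v hv
      rw [h.sum_succ, Finset.sum_mul_sum]
      exact Finset.sum_congr rfl fun u' hu' => Finset.sum_congr rfl fun v' hv' => hf J u hu u' hu' v hv v' hv'
    rw [Finset.sum_congr rfl fun u hu => Finset.sum_congr rfl fun v hv => e u hu v hv, Finset.sum_mul_sum]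

/-- the part of `m` composed of the primes of `S` -/
def part (S : Finset ℕ) (m : ℕ) : ℕ := ∏ p ∈ S, p ^ m.factorization p

theorem prod_part_mem {m : ℕ} : ∀ J : ℕ, (∀ j < J, part (S j) m ∈ D j) → ∏ j ∈ range J, part (S j) m ∈ Fp D J
  | 0 => fun _ => by simp [Fp_zero]
  | J + 1 => fun hD => by
    rw [prod_range_succ]
    exact mem_Fp_succ.2 ⟨_, prod_part_mem J (fun j hj => hD j (by omega)), _, hD J (by omega), rfl⟩

/-- a number whose primes lie in the cells is the product of its parts -/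
theorem prod_part (hS : ∀ i j, i ≠ j → Disjoint (S i) (S j)) {m : ℕ} (hm : m ≠ 0) {J : ℕ}
    (hp : ∀ p : ℕ, p.Prime → p ∣ m → ∃ j < J, p ∈ S j) : ∏ j ∈ range J, part (S j) m = m := by
  unfold part
  rw [← Finset.prod_biUnion]
  · conv_rhs => rw [← Nat.prod_factorization_pow_eq_self hm]
    symm
    apply Finsupp.prod_of_support_subset
    · intro p hpm
      rw [Nat.support_factorization, Nat.mem_primeFactors] at hpm
      rw [mem_biUnion]
      obtain ⟨j, hj, h1⟩ := hp p hpm.1 hpm.2.1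
      exact ⟨j, mem_range.2 hj, h1⟩
    · intro p _
      exact pow_zero p
  · intro i _ j _ hij
    exact hS i j hij

/-- membership in `Fp D J` -/
theorem Cells.mem_Fp (h : Cells S D) {m : ℕ} (hm : m ≠ 0) {J : ℕ} (hp : ∀ p : ℕ, p.Prime → p ∣ m → ∃ j < J, p ∈ S j)
    (hD : ∀ j < J, part (S j) m ∈ D j) : m ∈ Fp D J := by
  have h1 := prod_part_mem J hD
  rwa [prod_part h.disj hm hp] at h1

/-- the lcm is multiplicative over coprime pairs -/
theorem lcm_mul5 {u u' v v' : ℕ} (h1 : Nat.Coprime u v) (h2 : Nat.Coprime u v') (h3 : Nat.Coprime u' v) (h4 : Nat.Coprime u' v') :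
    Nat.lcm (u * v) (u' * v') = Nat.lcm u u' * Nat.lcm v v' := by
  apply Nat.dvd_antisymm
  · apply Nat.lcm_dvd
    · exact mul_dvd_mul (Nat.dvd_lcm_left _ _) (Nat.dvd_lcm_left _ _)
    · exact mul_dvd_mul (Nat.dvd_lcm_right _ _) (Nat.dvd_lcm_right _ _)
  · apply Nat.Coprime.mul_dvd_of_dvd_of_dvd
    · have h5 : Nat.Coprime (u * u') (v * v') :=
        Nat.Coprime.mul_left (Nat.Coprime.mul_right h1 h2) (Nat.Coprime.mul_right h3 h4)
      exact Nat.Coprime.coprime_dvd_left (Nat.lcm_dvd (dvd_mul_right u u') (dvd_mul_left u' u))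
        (Nat.Coprime.coprime_dvd_right (Nat.lcm_dvd (dvd_mul_right v v') (dvd_mul_left v' v)) h5)
    · exact Nat.lcm_dvd ((dvd_mul_right u v).trans (Nat.dvd_lcm_left _ _)) ((dvd_mul_right u' v').trans (Nat.dvd_lcm_right _ _))
    · exact Nat.lcm_dvd ((dvd_mul_left v u).trans (Nat.dvd_lcm_left _ _)) ((dvd_mul_left v' u').trans (Nat.dvd_lcm_right _ _))

/-- two elements of `Fp D J` and two of `D J`: the lcm factors -/
theorem Cells.lcm_mul (h : Cells S D) {J u u' v v' : ℕ} (hu : u ∈ Fp D J) (hu' : u' ∈ Fp D J) (hv : v ∈ D J) (hv' : v' ∈ D J) :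
    Nat.lcm (u * v) (u' * v') = Nat.lcm u u' * Nat.lcm v v' :=
  lcm_mul5 (h.coprime hu hv) (h.coprime hu hv') (h.coprime hu' hv) (h.coprime hu' hv')

/-- two elements of `Fp D J` and two of `D J`: the gcd factors -/
theorem Cells.gcd_mul (h : Cells S D) {J u u' v v' : ℕ} (hu : u ∈ Fp D J) (hu' : u' ∈ Fp D J) (hv : v ∈ D J) (hv' : v' ∈ D J) :
    Nat.gcd (u * v) (u' * v') = Nat.gcd u u' * Nat.gcd v v' := by
  have e := h.lcm_mul hu hu' hv hv'
  have h1 := Nat.gcd_mul_lcm (u * v) (u' * v')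
  have h2 := Nat.gcd_mul_lcm u u'
  have h3 := Nat.gcd_mul_lcm v v'
  have hpos : 0 < Nat.lcm u u' * Nat.lcm v v' :=
    Nat.mul_pos (Nat.lcm_pos (Nat.pos_of_ne_zero (h.Fp_pos J u hu)) (Nat.pos_of_ne_zero (h.Fp_pos J u' hu')))
      (Nat.lcm_pos (Nat.pos_of_ne_zero (h.pos J v hv)) (Nat.pos_of_ne_zero (h.pos J v' hv')))
  apply Nat.eq_of_mul_eq_mul_right hpos
  rw [e] at h1
  rw [h1]
  calc u * v * (u' * v') = (u * u') * (v * v') := by ring
    _ = (Nat.gcd u u' * Nat.lcm u u') * (Nat.gcd v v' * Nat.lcm v v') := by rw [h2, h3]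
    _ = _ := by ring

end Pool.Agent.HG5
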