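import Pool.Agent.Helper5.HG.Qb
import Pool.Agent.Helper5.HG.Tot
import Pool.Agent.Helper96.HG.Cells
import Pool.Agent.Helper65.HG.CSm
import Pool.Agent.Helper49.HG.Ex

/-!
# HALL GAPS, block SB: twisted sieve divisor sums
-/

set_option autoImplicit false

open Finset Filter Topology Pool.Agent.Helper5.RM Pool.Agent.Helper69.HG Pool.Agent.Helper96.HG
open scoped ArithmeticFunction.Moebius

namespace Pool.Agent.HG5

/-- the coefficients of the divisor sum -/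
noncomputable def cc5 (a : ℕ → ℝ) (r : ℝ) (m : ℕ) : ℂ := (a m : ℂ) * (m : ℂ) ^ (-(Complex.I * (r : ℂ)))

private lemma norm_cc5 {a : ℕ → ℝ} (ha : ∀ n, |a n| ≤ 1) (r : ℝ) {m : ℕ} (hm : m ≠ 0) : ‖cc5 a r m‖ ≤ 1 := by
  unfold cc5
  rw [norm_mul, Complex.norm_natCast_cpow_of_pos (Nat.pos_of_ne_zero hm), Complex.norm_real, Real.norm_eq_abs]
  have h1 : (-(Complex.I * (r : ℂ))).re = 0 := by simp
  rw [h1, Real.rpow_zero, mul_one]
  exact ha m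

/-- the summand of the quadratic form -/
private lemma summand5 (a : ℕ → ℝ) (r s : ℝ) {m n : ℕ} (hm : m ≠ 0) (hn : n ≠ 0) :
    cc5 a r m * (starRingEnd ℂ) (cc5 a r n) * (((Nat.lcm m n : ℝ) ^ (-1 - s) : ℝ) : ℂ) =
      (a m : ℂ) * (a n : ℂ) * (Aw s r m * Aw s (-r) n * Gw s (Nat.gcd m n)) := by
  have hm0 : (m : ℂ) ≠ 0 := by exact_mod_cast hm
  have hn0 : (n : ℂ) ≠ 0 := by exact_mod_cast hn
  have hg : Nat.gcd m n ≠ 0 := Nat.gcd_ne_zero_left hm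
  have hl : Nat.lcm m n ≠ 0 := Nat.lcm_ne_zero hm hn
  have hg0 : (0 : ℝ) < Nat.gcd m n := by exact_mod_cast Nat.pos_of_ne_zero hg
  have h1 : (starRingEnd ℂ) (cc5 a r n) = (a n : ℂ) * (n : ℂ) ^ (-(Complex.I * ((-r : ℝ) : ℂ))) := by
    have h0 := Complex.cpow_conj (n : ℂ) (-(Complex.I * (r : ℂ))) (by
      rw [Complex.natCast_arg]
      exact Real.pi_ne_zero.symm)
    rw [Complex.conj_natCast] at h0
    unfold cc5
    rw [map_mul, Complex.conj_ofReal, ← h0]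
    congr 2
    simp
  have h2 : (((Nat.lcm m n : ℝ) ^ (-1 - s) : ℝ) : ℂ) =
      (m : ℂ) ^ ((-1 - s : ℝ) : ℂ) * (n : ℂ) ^ ((-1 - s : ℝ) : ℂ) * Gw s (Nat.gcd m n) := by
    have h3 : (Nat.lcm m n : ℝ) ^ (-1 - s) = (m : ℝ) ^ (-1 - s) * (n : ℝ) ^ (-1 - s) * (Nat.gcd m n : ℝ) ^ (1 + s) := by
      have h4 : (Nat.gcd m n : ℝ) * (Nat.lcm m n : ℝ) = m * n := by exact_mod_cast Nat.gcd_mul_lcm m n
      rw [← Real.mul_rpow (Nat.cast_nonneg m) (Nat.cast_nonneg n), ← h4, Real.mul_rpow (Nat.cast_nonneg _) (Nat.cast_nonneg _)]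
      have h5 : (Nat.gcd m n : ℝ) ^ (-1 - s) * (Nat.gcd m n : ℝ) ^ (1 + s) = 1 := by
        rw [← Real.rpow_add hg0, show -1 - s + (1 + s) = (0 : ℝ) by ring, Real.rpow_zero]
      calc (Nat.lcm m n : ℝ) ^ (-1 - s) = ((Nat.gcd m n : ℝ) ^ (-1 - s) * (Nat.gcd m n : ℝ) ^ (1 + s)) * (Nat.lcm m n : ℝ) ^ (-1 - s) := by
            rw [h5, one_mul]
        _ = _ := by ring
    rw [h3]
    unfold Gw
    rw [Complex.ofReal_mul, Complex.ofReal_mul, Complex.ofReal_cpow (Nat.cast_nonneg m), Complex.ofReal_cpow (Nat.cast_nonneg n),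
      Complex.ofReal_cpow (Nat.cast_nonneg (Nat.gcd m n))]
    simp only [Complex.ofReal_natCast]
  rw [h1, h2]
  unfold Aw
  rw [Complex.cpow_add _ _ hm0, Complex.cpow_add _ _ hn0]
  unfold cc5
  ring

/-- the number of cells -/
private lemma exists_J5 {T ε : ℝ} (hT : 1 < T) : ∃ J : ℕ, T ^ (ε / 2 ^ J) < 2 := by
  have h1 : Tendsto (fun J : ℕ => ε / (2 : ℝ) ^ J) atTop (𝓝 0) :=
    tendsto_const_nhds.div_atTop (tendsto_pow_atTop_atTop_of_one_lt (by norm_num))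
  have h2 : Tendsto (fun x : ℝ => T ^ x) (𝓝 0) (𝓝 (T ^ (0 : ℝ))) :=
    (Real.continuous_const_rpow (by linarith : T ≠ 0)).tendsto 0
  rw [Real.rpow_zero] at h2
  have h3 := (h2.comp h1).eventually (gt_mem_nhds (by norm_num : (1 : ℝ) < 2))
  exact h3.exists

/-- the twisted quadratic form -/
private lemma Q_le5 : ∃ C : ℝ, 0 < C ∧ ∀ (T ε ξ s : ℝ) (b : ℕ) (a : ℕ → ℝ) (X : ℕ), 3 ≤ T → 0 < ε → ε ≤ 1 → 0 ≤ s →
    s ≤ 1 / Real.log T → IsCM T ε b a → T ^ (2 * (ε * (2 * b + 2))) ≤ (X : ℝ) →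
    ‖∑ m ∈ Icc 1 X, ∑ n ∈ Icc 1 X, cc5 a (ξ / Real.log T) m * (starRingEnd ℂ) (cc5 a (ξ / Real.log T) n) *
      (((Nat.lcm m n : ℝ) ^ (-1 - s) : ℝ) : ℂ)‖ ≤ C * (1 + ε * |ξ|) ^ 4 * Vp T ε := by
  obtain ⟨C, hC, h⟩ := form_le Pool.Agent.Helper65.HG.cs.1
  refine ⟨C, hC, fun T ε ξ s b a X hT hε hε1 hs hs1 ha hX => ?_⟩
  have hT1 : 1 < T := by linarith
  obtain ⟨J, hJ⟩ := exists_J5 (ε := ε) hT1
  refine h T ε ξ s b a (celS T ε) J _ hT hε hε1 hs hs1 ha (fun j p hp => mem_celS.1 hp) (fun f => prod_cells hT1 hε hJ f) ?_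
  rw [← cells_sum hT1 hε ha hX hJ (cmul_Aw s (ξ / Real.log T)) (cmul_Aw s (-(ξ / Real.log T))) (cmul_Gw s)]
  refine Finset.sum_congr rfl fun m hm => Finset.sum_congr rfl fun n hn => ?_
  exact summand5 a _ s (by have := (mem_Icc.1 hm).1; omega) (by have := (mem_Icc.1 hn).1; omega)

/-- the divisor sum as a sum over `m ≤ X` -/
private lemma lamx_eq5 {T ε : ℝ} (hT : 1 < T) (hε : 0 < ε) {b : ℕ} {a : ℕ → ℝ} (ha : IsCM T ε b a) {X : ℕ}
    (hX : T ^ (2 * (ε * (2 * b + 2))) ≤ (X : ℝ)) (ξ : ℝ) {N : ℕ} (hN : N ≠ 0) :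
    lamx T a ξ N = ∑ m ∈ (Icc 1 X).filter (· ∣ N), cc5 a (ξ / Real.log T) m := by
  unfold lamx
  have h1 : ∀ m : ℕ, (a m : ℂ) * (m : ℂ) ^ (-(Complex.I * (ξ / Real.log T))) = cc5 a (ξ / Real.log T) m := by
    intro m
    unfold cc5
    rw [Complex.ofReal_div]
  rw [Finset.sum_congr rfl fun m _ => h1 m]
  symm
  apply Finset.sum_subset_zero_on_sdiff
  · intro m hm
    rw [mem_filter] at hm
    exact Nat.mem_divisors.2 ⟨hm.2, hN⟩
  · intro m hm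
    rw [Finset.mem_sdiff, Nat.mem_divisors, mem_filter, mem_Icc, not_and] at hm
    obtain ⟨⟨h2, _⟩, h3⟩ := hm
    have hm0 : m ≠ 0 := by
      rintro rfl
      exact hN (zero_dvd_iff.1 h2)
    have h4 : ¬ m ≤ X := fun h => h3 ⟨Nat.pos_of_ne_zero hm0, h⟩ h2
    have h5 : a m = 0 := by
      by_contra h6
      have h7 := Pool.Agent.Helper49.HG.cm_len hT hε ha hm0 h6
      exact h4 (by exact_mod_cast h7.trans hX)
    unfold cc5
    rw [h5]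
    simp
  · intro m _
    rfl

private lemma lcm_neg_one5 {m n : ℕ} : (((Nat.lcm m n : ℝ) ^ (-1 - (0 : ℝ)) : ℝ) : ℂ) = (1 : ℂ) / (Nat.lcm m n : ℂ) := by
  rw [sub_zero, Real.rpow_neg_one]
  push_cast
  rw [one_div]

/-- **Block SB.** -/
theorem sb : SB := by
  obtain ⟨CQ, hCQ, hQ⟩ := Q_le5
  obtain ⟨c, CV, hc, hCV, hV⟩ := Pool.Agent.Helper65.HG.cs.2
  refine ⟨3 * CQ * (1 + CV) * Real.exp 1 + 1, by positivity, 0, fun b _ => ⟨1 / (160 * (b + 1)), by positivity, fun ε hε hε0 => ?_⟩⟩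
  have hb1 : (1 : ℝ) ≤ (b : ℝ) + 1 := by
    have : (0 : ℝ) ≤ b := Nat.cast_nonneg b
    linarith
  have hε1 : ε ≤ 1 := by
    refine hε0.trans ?_
    rw [div_le_one (by positivity)]
    linarith
  -- exponent of the length
  have hlen : 2 * (ε * (2 * b + 2)) ≤ 1 / 40 := by
    have h1 : ε * (160 * ((b : ℝ) + 1)) ≤ 1 := by
      have := mul_le_mul_of_nonneg_right hε0 (by positivity : (0:ℝ) ≤ 160 * ((b : ℝ) + 1))
      rwa [div_mul_cancel₀ _ (by positivity)] at this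
    nlinarith
  obtain ⟨T₁, hT₁⟩ := hV ε hε hε1
  -- growth: `4 log T ≤ c T^(1/40)`
  have hgrow : ∀ᶠ T : ℝ in atTop, 8 / c * Real.log T ≤ T ^ (1 / 20 : ℝ) := by
    have h1 := isLittleO_log_rpow_atTop (r := 1 / 20) (by norm_num)
    have h2 := h1.bound (c := c / 8) (by positivity)
    filter_upwards [h2, eventually_ge_atTop (1 : ℝ)] with T hT hT1
    rw [Real.norm_of_nonneg (Real.log_nonneg hT1), Real.norm_of_nonneg (by positivity)] at hT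
    calc 8 / c * Real.log T ≤ 8 / c * (c / 8 * T ^ (1 / 20 : ℝ)) := mul_le_mul_of_nonneg_left hT (by positivity)
      _ = _ := by field_simp
  have hbig : ∀ᶠ T : ℝ in atTop, 2 ≤ T ^ (1 / 40 : ℝ) := by
    have h1 : Tendsto (fun T : ℝ => T ^ (1 / 40 : ℝ)) atTop atTop := tendsto_rpow_atTop (by norm_num)
    exact h1.eventually_ge_atTop 2
  obtain ⟨T₂, hT₂⟩ := Filter.eventually_atTop.1 (hgrow.and hbig)
  refine ⟨max (max T₁ T₂) 3, fun T hT a ha ξ => ?_⟩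
  have hTa : T₁ ≤ T := (le_max_left _ _).trans ((le_max_left _ _).trans hT)
  have hTb : T₂ ≤ T := (le_max_right _ _).trans ((le_max_left _ _).trans hT)
  have hT3 : 3 ≤ T := (le_max_right _ _).trans hT
  have hT1 : 1 < T := by linarith
  have hT0 : 0 < T := by linarith
  obtain ⟨hg, hbg⟩ := hT₂ T hTb
  obtain ⟨hV1, hV2⟩ := hT₁ T hTa
  have hL1 : 1 ≤ Real.log T := by
    rw [Real.le_log_iff_exp_le hT0]
    linarith [Real.exp_one_lt_d9]
  have hL0 : 0 < Real.log T := by linarith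
  have hVp : 0 < Vp T ε := by
    have h1 : 0 < Real.log T * Vp T ε := lt_of_lt_of_le (by positivity) hV1
    exact (mul_pos_iff_of_pos_left hL0).1 h1
  -- the length `X`
  set X : ℕ := ⌈T ^ (2 * (ε * (2 * b + 2)))⌉₊ with hXdef
  have hX : T ^ (2 * (ε * (2 * b + 2))) ≤ (X : ℝ) := Nat.le_ceil _
  have hX2 : (X : ℝ) ≤ 2 * T ^ (1 / 40 : ℝ) := by
    have h1 : (X : ℝ) < T ^ (2 * (ε * (2 * b + 2))) + 1 := Nat.ceil_lt_add_one (by positivity)
    have h2 : T ^ (2 * (ε * (2 * b + 2))) ≤ T ^ (1 / 40 : ℝ) := Real.rpow_le_rpow_of_exponent_le hT1.le hlen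
    linarith
  set r : ℝ := ξ / Real.log T with hr
  have hpow : 1 ≤ (1 + ε * |ξ|) ^ 4 := one_le_pow₀ (by nlinarith [mul_nonneg hε.le (abs_nonneg ξ)])
  have hD : ∀ m ∈ Icc 1 X, 1 ≤ m := fun m hm => (mem_Icc.1 hm).1
  have he1 : 1 ≤ Real.exp 1 := by
    have := Real.add_one_le_exp (1 : ℝ)
    linarith
  constructor
  · -- bands
    intro Y₁ Y₂ hY1 hY12 hY2
    have hY10 : 0 < Y₁ := lt_of_lt_of_le (by positivity) hY1
    have h1 := sq_expand5 (Icc 1 X) hD (cc5 a r) hY10 hY12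
    have h2 : ∑ N ∈ Ioc ⌊Y₁⌋₊ ⌊Y₂⌋₊, ‖lamx T a ξ N‖ ^ 2 / N =
        ∑ N ∈ Ioc ⌊Y₁⌋₊ ⌊Y₂⌋₊, ‖∑ m ∈ (Icc 1 X).filter (· ∣ N), cc5 a r m‖ ^ 2 / N := by
      refine Finset.sum_congr rfl fun N hN => ?_
      rw [lamx_eq5 hT1 hε ha hX ξ (by have := (mem_Ioc.1 hN).1; omega)]
    rw [h2]
    have h3 := hQ T ε ξ 0 b a X hT3 hε hε1 le_rfl (by positivity) ha hX
    have h4 : (∑ m ∈ Icc 1 X, ∑ n ∈ Icc 1 X, cc5 a r m * (starRingEnd ℂ) (cc5 a r n) / (Nat.lcm m n : ℂ)).re ≤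
        CQ * (1 + ε * |ξ|) ^ 4 * Vp T ε := by
      refine (Complex.re_le_norm _).trans (le_trans (le_of_eq ?_) h3)
      congr 1
      refine Finset.sum_congr rfl fun m _ => Finset.sum_congr rfl fun n _ => ?_
      rw [lcm_neg_one5]
      ring
    have hlog : 0 ≤ Real.log (Y₂ / Y₁) := Real.log_nonneg (by rw [le_div_iff₀ hY10]; linarith)
    -- the error term
    have h5 : ∑ m ∈ Icc 1 X, ‖cc5 a r m‖ ≤ X := by
      calc ∑ m ∈ Icc 1 X, ‖cc5 a r m‖ ≤ ∑ m ∈ Icc 1 X, (1 : ℝ) :=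
            Finset.sum_le_sum fun m hm => norm_cc5 ha.bd r (by have := hD m hm; omega)
        _ = X := by simp
    have h6 : 2 / Y₁ * (∑ m ∈ Icc 1 X, ‖cc5 a r m‖) ^ 2 ≤ Vp T ε := by
      have h7 : (∑ m ∈ Icc 1 X, ‖cc5 a r m‖) ^ 2 ≤ (2 * T ^ (1 / 40 : ℝ)) ^ 2 :=
        pow_le_pow_left₀ (Finset.sum_nonneg fun _ _ => norm_nonneg _) (h5.trans hX2) 2
      have h8 : (2 * T ^ (1 / 40 : ℝ)) ^ 2 = 4 * T ^ (1 / 20 : ℝ) := by
        have h81 : (T ^ (1 / 40 : ℝ)) ^ 2 = T ^ (1 / 20 : ℝ) := by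
          rw [sq, ← Real.rpow_add hT0]
          norm_num
        rw [mul_pow, h81]
        norm_num
      have h9 : T ^ (1 / 10 : ℝ) = T ^ (1 / 20 : ℝ) * T ^ (1 / 20 : ℝ) := by
        rw [← Real.rpow_add hT0]
        norm_num
      have h10 : 0 < T ^ (1 / 20 : ℝ) := by positivity
      have h11 : c ≤ Real.log T * Vp T ε := by
        refine le_trans ?_ hV1
        rw [le_div_iff₀ hε]
        nlinarith
      calc 2 / Y₁ * (∑ m ∈ Icc 1 X, ‖cc5 a r m‖) ^ 2 ≤ 2 / T ^ (1 / 10 : ℝ) * (4 * T ^ (1 / 20 : ℝ)) := by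
            refine mul_le_mul ?_ (h7.trans h8.le) (by positivity) (by positivity)
            exact div_le_div_of_nonneg_left (by norm_num) (by positivity) hY1
        _ = 8 / T ^ (1 / 20 : ℝ) := by
            rw [h9]
            field_simp
            norm_num
        _ ≤ Vp T ε := by
            rw [div_le_iff₀ h10]
            have h12 : 8 / c * Real.log T * Vp T ε ≤ T ^ (1 / 20 : ℝ) * Vp T ε := mul_le_mul_of_nonneg_right hg hVp.le
            have h13 : 8 ≤ 8 / c * Real.log T * Vp T ε := by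
              rw [mul_assoc, div_mul_eq_mul_div, le_div_iff₀ hc]
              linarith
            linarith
    have h7 := (abs_le.1 h1).2
    have h8 : Real.log (Y₂ / Y₁) * (∑ m ∈ Icc 1 X, ∑ n ∈ Icc 1 X, cc5 a r m * (starRingEnd ℂ) (cc5 a r n) / (Nat.lcm m n : ℂ)).re ≤
        Real.log (Y₂ / Y₁) * (CQ * (1 + ε * |ξ|) ^ 4 * Vp T ε) := mul_le_mul_of_nonneg_left h4 hlog
    have h9 : Real.log (Y₂ / Y₁) * (CQ * (1 + ε * |ξ|) ^ 4 * Vp T ε) + Vp T ε ≤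
        (CQ + 1) * (1 + ε * |ξ|) ^ 4 * Vp T ε * (Real.log (Y₂ / Y₁) + 1) := by
      have h10 : Vp T ε ≤ (1 + ε * |ξ|) ^ 4 * Vp T ε := by nlinarith
      have h11 : 0 ≤ (1 + ε * |ξ|) ^ 4 * Vp T ε := by positivity
      nlinarith [mul_nonneg h11 hlog, mul_nonneg hCQ.le h11]
    have h10 : (CQ + 1) * (1 + ε * |ξ|) ^ 4 * Vp T ε * (Real.log (Y₂ / Y₁) + 1) ≤
        (3 * CQ * (1 + CV) * Real.exp 1 + 1) * (1 + ε * |ξ|) ^ 4 * Vp T ε * (Real.log (Y₂ / Y₁) + 1) := by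
      have h11 : CQ + 1 ≤ 3 * CQ * (1 + CV) * Real.exp 1 + 1 := by
        have h12 : CQ * 1 ≤ CQ * (3 * (1 + CV) * Real.exp 1) := by
          apply mul_le_mul_of_nonneg_left _ hCQ.le
          nlinarith [mul_nonneg hCV.le (Real.exp_pos 1).le]
        linarith
      gcongr
    linarith
  · -- the total
    set s : ℝ := 1 / Real.log T with hs
    have hs0 : 0 < s := by positivity
    have h1 := total5 (Icc 1 X) hD (cc5 a r) hs0 (Icc 1 ⌊T⌋₊) (fun N hN => by have := (mem_Icc.1 hN).1; omega)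
    have h2 := hQ T ε ξ s b a X hT3 hε hε1 hs0.le le_rfl ha hX
    have h3 : ∑ N ∈ Icc 1 ⌊T⌋₊, ‖lamx T a ξ N‖ ^ 2 / N ≤
        Real.exp 1 * ∑ N ∈ Icc 1 ⌊T⌋₊, ‖∑ m ∈ (Icc 1 X).filter (· ∣ N), cc5 a r m‖ ^ 2 * (N : ℝ) ^ (-1 - s) := by
      rw [Finset.mul_sum]
      refine Finset.sum_le_sum fun N hN => ?_
      obtain ⟨hN1, hN2⟩ := mem_Icc.1 hN
      have hN0 : (0 : ℝ) < N := by exact_mod_cast hN1
      rw [lamx_eq5 hT1 hε ha hX ξ (by omega)]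
      have h4 : 1 / (N : ℝ) ≤ Real.exp 1 * (N : ℝ) ^ (-1 - s) := by
        have h5 : (N : ℝ) ^ (-1 - s) = 1 / N * (N : ℝ) ^ (-s) := by
          rw [one_div, ← Real.rpow_neg_one, ← Real.rpow_add hN0, sub_eq_add_neg]
        have h6 : Real.exp (-1) ≤ (N : ℝ) ^ (-s) := by
          rw [Real.rpow_def_of_pos hN0]
          apply Real.exp_le_exp.2
          have h7 : Real.log N ≤ Real.log T := Real.log_le_log hN0 ((Nat.le_floor_iff hT0.le).1 hN2)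
          have h8 : Real.log N * s ≤ 1 := by
            rw [hs, mul_one_div, div_le_one hL0]
            exact h7
          linarith
        rw [h5]
        have h7 : Real.exp 1 * Real.exp (-1) = 1 := by rw [← Real.exp_add]; norm_num
        have h8 : 0 < Real.exp 1 * (1 / (N : ℝ)) := by positivity
        calc 1 / (N : ℝ) = Real.exp 1 * (1 / (N : ℝ)) * Real.exp (-1) := by
              rw [mul_right_comm, h7, one_mul]
          _ ≤ Real.exp 1 * (1 / (N : ℝ)) * (N : ℝ) ^ (-s) := mul_le_mul_of_nonneg_left h6 h8.le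
          _ = _ := by ring
      calc ‖∑ m ∈ (Icc 1 X).filter (· ∣ N), cc5 a r m‖ ^ 2 / N =
            ‖∑ m ∈ (Icc 1 X).filter (· ∣ N), cc5 a r m‖ ^ 2 * (1 / N) := by ring
        _ ≤ ‖∑ m ∈ (Icc 1 X).filter (· ∣ N), cc5 a r m‖ ^ 2 * (Real.exp 1 * (N : ℝ) ^ (-1 - s)) :=
            mul_le_mul_of_nonneg_left h4 (sq_nonneg _)
        _ = _ := by ring
    refine h3.trans ?_
    have h4 : 1 + 1 / s ≤ 2 * Real.log T := by
      rw [hs, one_div_one_div]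
      linarith
    have h5 : ‖∑ m ∈ Icc 1 X, ∑ n ∈ Icc 1 X, cc5 a r m * (starRingEnd ℂ) (cc5 a r n) *
        (((Nat.lcm m n : ℝ) ^ (-1 - s) : ℝ) : ℂ)‖ * (1 + 1 / s) ≤ CQ * (1 + ε * |ξ|) ^ 4 * Vp T ε * (2 * Real.log T) :=
      mul_le_mul h2 h4 (by positivity) (by positivity)
    have h6 : CQ * (1 + ε * |ξ|) ^ 4 * Vp T ε * (2 * Real.log T) ≤ 2 * CQ * (1 + ε * |ξ|) ^ 4 * (CV / ε) := by
      have h7 : 0 ≤ 2 * CQ * (1 + ε * |ξ|) ^ 4 := by positivity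
      nlinarith [mul_le_mul_of_nonneg_left hV2 h7]
    calc Real.exp 1 * ∑ N ∈ Icc 1 ⌊T⌋₊, ‖∑ m ∈ (Icc 1 X).filter (· ∣ N), cc5 a r m‖ ^ 2 * (N : ℝ) ^ (-1 - s)
        ≤ Real.exp 1 * (2 * CQ * (1 + ε * |ξ|) ^ 4 * (CV / ε)) :=
          mul_le_mul_of_nonneg_left (h1.trans (h5.trans h6)) (Real.exp_pos _).le
      _ = (2 * CQ * CV * Real.exp 1) * (1 + ε * |ξ|) ^ 4 / ε := by ring
      _ ≤ (3 * CQ * (1 + CV) * Real.exp 1 + 1) * (1 + ε * |ξ|) ^ 4 / ε := by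
          have h7 : 2 * CQ * CV * Real.exp 1 ≤ 3 * CQ * (1 + CV) * Real.exp 1 + 1 := by
            have h8 : 0 ≤ CQ * Real.exp 1 := by positivity
            nlinarith [mul_nonneg h8 hCV.le]
          gcongr

end Pool.Agent.HG5
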