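import Pool.Agent.Helper13.HG.Defs

/-!
# HG, block BTL, part B1: counting in a box

`D = card ι`. For `ρ : ι → ZMod m` the number of the `v` in the box (side `N ≥ m`) with `v i = ρ i` in `ZMod m` is
`∏ c_i` with `|c_i - N/m| ≤ 1` (`Int.Ico_filter_modEq_card`), so `|∏ c_i - (N/m)^D| ≤ D (2N/m)^D (m/N)` (telescope). The map
`(ι → ZMod m) → ∏_{v ∈ U} 𝓞/v` (well defined: `m ∈ v` for `v ∈ U`) is a surjective homomorphism of additive groups
(`b` spans, Chinese remainder theorem), so each fibre has `m^D / m` elements (the target has `m` elements).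
-/

set_option autoImplicit false

namespace Pool.Agent.HG

open NumberField IsDedekindDomain

/-- the classes of `∑ i, v i • b i` modulo the primes of `U` -/
noncomputable def cls5 {L : Type} [Field L] [NumberField L] {ι : Type} [Fintype ι] (b : Module.Basis ι ℤ (𝓞 L))
    (U : Finset (Pr L)) (v : ι → ℤ) : (u : U) → 𝓞 L ⧸ u.1.asIdeal := fun u =>
  Ideal.Quotient.mk u.1.asIdeal (∑ i, v i • b i)

private theorem prod_near71 {ι : Type} (c : ι → ℝ) (x : ℝ) (hx : 1 ≤ x) (hc : ∀ i, |c i - x| ≤ 1) (s : Finset ι) :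
    |∏ i ∈ s, c i - x ^ s.card| ≤ s.card * 2 ^ s.card * x ^ s.card / x := by
  classical
  have hx0 : 0 < x := lt_of_lt_of_le one_pos hx
  induction s using Finset.induction_on with
  | empty => simp
  | insert a s ha ih =>
    rw [Finset.prod_insert ha, Finset.card_insert_of_notMem ha]
    have h1 : |c a| ≤ 2 * x := by
      have h := abs_le.1 (hc a)
      rw [abs_le]
      constructor <;> linarith [h.1, h.2]
    have e1 : c a * ∏ i ∈ s, c i - x ^ (s.card + 1) =
        c a * (∏ i ∈ s, c i - x ^ s.card) + (c a - x) * x ^ s.card := by ring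
    have h2 : |c a * (∏ i ∈ s, c i - x ^ s.card)| ≤ 2 * x * (s.card * 2 ^ s.card * x ^ s.card / x) := by
      rw [abs_mul]
      exact mul_le_mul h1 ih (abs_nonneg _) (by linarith)
    have h3 : |(c a - x) * x ^ s.card| ≤ x ^ s.card := by
      rw [abs_mul, abs_of_pos (pow_pos hx0 _)]
      calc |c a - x| * x ^ s.card ≤ 1 * x ^ s.card :=
            mul_le_mul_of_nonneg_right (hc a) (pow_pos hx0 _).le
        _ = x ^ s.card := one_mul _
    rw [e1]
    refine (abs_add_le _ _).trans ((add_le_add h2 h3).trans ?_)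
    have e2 : 2 * x * (s.card * 2 ^ s.card * x ^ s.card / x) + x ^ s.card =
        (s.card * 2 ^ (s.card + 1) + 1) * x ^ s.card := by
      field_simp
      ring
    have e3 : ((s.card + 1 : ℕ) : ℝ) * 2 ^ (s.card + 1) * x ^ (s.card + 1) / x =
        ((s.card + 1 : ℕ) : ℝ) * 2 ^ (s.card + 1) * x ^ s.card := by
      rw [pow_succ x s.card]
      field_simp
    rw [e2, e3]
    refine mul_le_mul_of_nonneg_right ?_ (pow_pos hx0 _).le
    push_cast
    have h4 : (1 : ℝ) ≤ 2 ^ (s.card + 1) := one_le_pow₀ (by norm_num)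
    nlinarith

private theorem alg1_71 (P m N : ℝ) (D : ℕ) (hm : 0 < m) :
    P * (m ^ D / m) * (N / m) ^ D = P / m * N ^ D := by
  have h := (pow_pos hm D).ne'
  rw [div_pow]
  field_simp

private theorem alg2_71 (X m N e : ℝ) (D : ℕ) (hm : 0 < m) (hN : 0 < N) :
    X * (e * (N / m) ^ D / (N / m)) = X * (N / m) ^ D * (e * m / N) := by
  generalize (N / m) ^ D = y
  field_simp

private theorem count_one71 (a : ℤ) (N m : ℕ) [NeZero m] (r : ZMod m) :
    |((((Finset.Ico a (a + N)).filter fun x : ℤ => (x : ZMod m) = r).card : ℕ) : ℝ) - (N : ℝ) / m| ≤ 1 := by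
  have hm : (0 : ℤ) < m := by exact_mod_cast Nat.pos_of_ne_zero (NeZero.ne m)
  have hmR : (0 : ℝ) < m := by exact_mod_cast Nat.pos_of_ne_zero (NeZero.ne m)
  have e1 : ((Finset.Ico a (a + N)).filter fun x : ℤ => (x : ZMod m) = r) =
      (Finset.Ico a (a + N)).filter fun x : ℤ => x ≡ (r.val : ℤ) [ZMOD m] := by
    apply Finset.filter_congr
    intro x _
    rw [← ZMod.intCast_eq_intCast_iff]
    simp
  rw [e1]
  have h1 := Int.Ico_filter_modEq_card a (a + N) hm (r.val : ℤ)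
  set q := (((Finset.Ico a (a + N)).filter fun x : ℤ => x ≡ (r.val : ℤ) [ZMOD m]).card : ℤ) with hq
  set A : ℚ := ((a : ℤ) - (r.val : ℤ) : ℚ) / ((m : ℤ) : ℚ) with hA
  set B : ℚ := (((a + N : ℤ) : ℚ) - ((r.val : ℤ) : ℚ)) / ((m : ℤ) : ℚ) with hB
  have h2 : B - A = (N : ℚ) / m := by
    rw [hA, hB]
    push_cast
    ring
  have h3 := Int.ceil_lt_add_one A
  have h4 := Int.le_ceil A
  have h5 := Int.ceil_lt_add_one B
  have h6 := Int.le_ceil B
  have hAB : A ≤ B := by
    have : 0 ≤ (N : ℚ) / m := by positivity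
    linarith
  have h7 : (q : ℚ) = (⌈B⌉ : ℚ) - ⌈A⌉ := by
    have h8 : ⌈A⌉ ≤ ⌈B⌉ := Int.ceil_le_ceil hAB
    have h9 : q = ⌈B⌉ - ⌈A⌉ := by
      have : q = max (⌈B⌉ - ⌈A⌉) 0 := h1
      rw [this]
      exact max_eq_left (by omega)
    exact_mod_cast h9
  have h10 : |(q : ℚ) - (N : ℚ) / m| ≤ 1 := by
    rw [h7, ← h2, abs_le]
    constructor <;> linarith
  have h11 : |((q : ℚ) : ℝ) - ((N : ℚ) : ℝ) / ((m : ℚ) : ℝ)| ≤ 1 := by
    exact_mod_cast h10
  simpa [hq] using h11

section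

variable {L : Type} [Field L] [NumberField L] {ι : Type} [Fintype ι] (b : Module.Basis ι ℤ (𝓞 L)) (U : Finset (Pr L))

private theorem nm_pos71 (u : Pr L) : 0 < nm u := by
  have h : nm u ≠ 0 := by
    unfold nm
    rw [Ne, Ideal.absNorm_eq_zero_iff]
    exact u.ne_bot
  omega

private theorem nm_mem71 (u : Pr L) : ((nm u : ℕ) : 𝓞 L) ∈ u.asIdeal := Ideal.absNorm_mem _

private noncomputable def psi71 (m : ℕ) (hm : ∀ u ∈ U, ((m : ℕ) : 𝓞 L) ∈ u.asIdeal) :
    (ι → ZMod m) →+ ((u : U) → 𝓞 L ⧸ u.1.asIdeal) :=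
  ∑ i, (ZMod.lift m ⟨(zmultiplesHom _) (fun u : U => Ideal.Quotient.mk u.1.asIdeal (b i)), by
    funext u
    have h1 : Ideal.Quotient.mk u.1.asIdeal ((m : ℕ) : 𝓞 L) = 0 :=
      Ideal.Quotient.eq_zero_iff_mem.2 (hm u.1 u.2)
    have h2 : ((m : ℕ) : 𝓞 L ⧸ u.1.asIdeal) = 0 := by
      rw [map_natCast] at h1
      exact h1
    simp [zmultiplesHom_apply, h2]⟩).comp (Pi.evalAddMonoidHom (fun _ : ι => ZMod m) i)

private theorem psi_coe71 (m : ℕ) (hm : ∀ u ∈ U, ((m : ℕ) : 𝓞 L) ∈ u.asIdeal) (v : ι → ℤ) :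
    psi71 b U m hm (fun i => (v i : ZMod m)) = cls5 b U v := by
  funext u
  simp only [psi71, AddMonoidHom.coe_finsetSum, Finset.sum_apply, AddMonoidHom.comp_apply,
    Pi.evalAddMonoidHom_apply, ZMod.lift_coe, cls5, map_sum]
  refine Finset.sum_congr rfl fun i _ => ?_
  simp [zmultiplesHom_apply]

private theorem cls_surj71 : Function.Surjective (cls5 b U) := by
  intro t
  have hco : Pairwise (Function.onFun IsCoprime fun u : U => u.1.asIdeal) := by
    intro u u' huu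
    have h1 : u.1.asIdeal ≠ u'.1.asIdeal := by
      intro h
      exact huu (Subtype.ext (HeightOneSpectrum.ext h))
    have i1 := u.1.isMaximal
    have i2 := u'.1.isMaximal
    exact Ideal.isCoprime_of_isMaximal h1
  obtain ⟨r, hr⟩ := Ideal.pi_quotient_surjective hco t
  refine ⟨fun i => b.repr r i, ?_⟩
  funext u
  unfold cls5
  rw [b.sum_repr r]
  exact hr u

end

open Classical in
theorem box_count5 {L : Type} [Field L] [NumberField L] {ι : Type} [Fintype ι] (b : Module.Basis ι ℤ (𝓞 L))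
    (a : ℤ) (N : ℕ) (U : Finset (Pr L)) (hN : ∏ u ∈ U, nm u ≤ N) (G : (u : U) → Finset (𝓞 L ⧸ u.1.asIdeal)) :
    |((((Fintype.piFinset fun _ : ι => Finset.Ico a (a + N)).filter fun v => ∀ u, cls5 b U v u ∈ G u).card : ℕ) : ℝ)
        - (∏ u, ((G u).card : ℝ)) / (∏ u ∈ U, (nm u : ℝ)) * (N : ℝ) ^ Fintype.card ι| ≤
      (∏ u, ((G u).card : ℝ)) / (∏ u ∈ U, (nm u : ℝ)) * (N : ℝ) ^ Fintype.card ι *
        (Fintype.card ι * 2 ^ Fintype.card ι * (∏ u ∈ U, (nm u : ℝ)) / N) := by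
  set m : ℕ := ∏ u ∈ U, nm u with hmdef
  have hm0 : 0 < m := Finset.prod_pos fun u _ => nm_pos71 u
  have : NeZero m := ⟨hm0.ne'⟩
  have hmU : ∀ u ∈ U, ((m : ℕ) : 𝓞 L) ∈ u.asIdeal := by
    intro u hu
    obtain ⟨c, hc⟩ := Finset.dvd_prod_of_mem nm hu
    have : ((m : ℕ) : 𝓞 L) = (nm u : 𝓞 L) * c := by
      rw [hmdef, hc]
      push_cast
      ring
    rw [this]
    exact Ideal.mul_mem_right _ _ (nm_mem71 u)
  have hmR : (0 : ℝ) < m := by exact_mod_cast hm0
  have hcastm : (∏ u ∈ U, (nm u : ℝ)) = (m : ℝ) := by rw [hmdef]; push_cast; rfl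
  rw [hcastm]
  have hNm : (1 : ℝ) ≤ (N : ℝ) / m := by
    rw [le_div_iff₀ hmR, one_mul]
    exact_mod_cast hN
  set Ψ := psi71 b U m hmU with hΨ
  set D := Fintype.card ι with hD
  -- the good residues
  set Gd : Finset (ι → ZMod m) := Finset.univ.filter fun ρ => ∀ u, Ψ ρ u ∈ G u with hGd
  have hfin : ∀ u : U, Finite (𝓞 L ⧸ u.1.asIdeal) := fun u => Ideal.finiteQuotientOfFreeOfNeBot _ u.1.ne_bot
  let _ : ∀ u : U, Fintype (𝓞 L ⧸ u.1.asIdeal) := fun u => Fintype.ofFinite _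
  have hΨs : Function.Surjective Ψ := by
    intro t
    obtain ⟨v, hv⟩ := cls_surj71 b U t
    exact ⟨fun i => (v i : ZMod m), by rw [hΨ, psi_coe71, hv]⟩
  -- the number of good residues
  have hcard : ∀ t, ((Finset.univ : Finset (ι → ZMod m)).filter fun ρ => Ψ ρ = t).card * m = m ^ D := by
    intro t
    have h1 : ∀ t', ((Finset.univ : Finset (ι → ZMod m)).filter fun ρ => Ψ ρ = t').card =
        ((Finset.univ : Finset (ι → ZMod m)).filter fun ρ => Ψ ρ = t).card := fun t' =>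
      AddMonoidHom.card_fiber_eq_of_mem_range Ψ (hΨs t') (hΨs t)
    have h2 : (Finset.univ : Finset (ι → ZMod m)).card =
        ∑ t' : (u : U) → 𝓞 L ⧸ u.1.asIdeal, ((Finset.univ : Finset (ι → ZMod m)).filter fun ρ => Ψ ρ = t').card :=
      Finset.card_eq_sum_card_fiberwise fun _ _ => Finset.mem_univ _
    rw [Finset.sum_congr rfl fun t' _ => h1 t', Finset.sum_const, smul_eq_mul] at h2
    have h3 : (Finset.univ : Finset (ι → ZMod m)).card = m ^ D := by
      rw [Finset.card_univ, Fintype.card_fun, ZMod.card]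
    have h4 : (Finset.univ : Finset ((u : U) → 𝓞 L ⧸ u.1.asIdeal)).card = m := by
      rw [Finset.card_univ, Fintype.card_pi, hmdef, ← Finset.prod_coe_sort U nm]
      refine Finset.prod_congr rfl fun u _ => ?_
      rw [← Nat.card_eq_fintype_card]
      exact (Submodule.cardQuot_apply _).symm
    rw [h3, h4] at h2
    rw [h2, mul_comm]
  have hGdcard : (Gd.card : ℝ) = (∏ u, ((G u).card : ℝ)) * ((m : ℝ) ^ D / m) := by
    have h1 : Gd.card = ∑ t ∈ Fintype.piFinset G, (Gd.filter fun ρ => Ψ ρ = t).card := by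
      refine Finset.card_eq_sum_card_fiberwise fun ρ hρ => ?_
      have hρ' := (Finset.mem_filter.1 hρ).2
      exact Finset.mem_coe.2 (Fintype.mem_piFinset.2 hρ')
    have h2 : ∀ t ∈ Fintype.piFinset G, ((Gd.filter fun ρ => Ψ ρ = t).card : ℝ) = (m : ℝ) ^ D / m := by
      intro t ht
      have e1 : (Gd.filter fun ρ => Ψ ρ = t) = (Finset.univ : Finset (ι → ZMod m)).filter fun ρ => Ψ ρ = t := by
        rw [hGd, Finset.filter_filter]
        apply Finset.filter_congr
        intro ρ _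
        constructor
        · exact fun h => h.2
        · intro h
          refine ⟨?_, h⟩
          rw [h]
          exact Fintype.mem_piFinset.1 ht
      rw [e1, eq_div_iff hmR.ne']
      exact_mod_cast hcard t
    rw [h1]
    push_cast
    rw [Finset.sum_congr rfl h2, Finset.sum_const, Fintype.card_piFinset, nsmul_eq_mul]
    push_cast
    rfl
  -- the count over one residue
  set c : ZMod m → ℕ := fun r => ((Finset.Ico a (a + N)).filter fun x : ℤ => (x : ZMod m) = r).card with hc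
  have hcount : (((Fintype.piFinset fun _ : ι => Finset.Ico a (a + N)).filter fun v => ∀ u, cls5 b U v u ∈ G u).card : ℝ) =
      ∑ ρ ∈ Gd, ∏ i, (c (ρ i) : ℝ) := by
    have h1 : ((Fintype.piFinset fun _ : ι => Finset.Ico a (a + N)).filter fun v => ∀ u, cls5 b U v u ∈ G u).card =
        ∑ ρ ∈ Gd, (((Fintype.piFinset fun _ : ι => Finset.Ico a (a + N)).filter fun v => ∀ u, cls5 b U v u ∈ G u).filter
          fun v => (fun i => (v i : ZMod m)) = ρ).card := by
      refine Finset.card_eq_sum_card_fiberwise fun v hv => ?_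
      have hv' := (Finset.mem_filter.1 hv).2
      refine Finset.mem_coe.2 (Finset.mem_filter.2 ⟨Finset.mem_univ _, ?_⟩)
      rw [hΨ, psi_coe71]
      exact hv'
    rw [h1]
    push_cast
    refine Finset.sum_congr rfl fun ρ hρ => ?_
    have hρ' := (Finset.mem_filter.1 hρ).2
    have e1 : (((Fintype.piFinset fun _ : ι => Finset.Ico a (a + N)).filter fun v => ∀ u, cls5 b U v u ∈ G u).filter
          fun v => (fun i => (v i : ZMod m)) = ρ) =
        Fintype.piFinset fun i : ι => (Finset.Ico a (a + N)).filter fun x : ℤ => (x : ZMod m) = ρ i := by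
      ext v
      simp only [Finset.mem_filter, Fintype.mem_piFinset]
      constructor
      · rintro ⟨⟨h2, _⟩, h4⟩ i
        exact ⟨h2 i, congrFun h4 i⟩
      · intro h
        have h5 : (fun i => (v i : ZMod m)) = ρ := funext fun i => (h i).2
        refine ⟨⟨fun i => (h i).1, ?_⟩, h5⟩
        rw [← psi_coe71 b U m hmU, h5]
        exact hρ'
    rw [e1, Fintype.card_piFinset]
    push_cast
    rfl
  rw [hcount]
  have hx0 : (0 : ℝ) < (N : ℝ) / m := lt_of_lt_of_le one_pos hNm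
  have hnear : ∀ ρ : ι → ZMod m, |∏ i, (c (ρ i) : ℝ) - ((N : ℝ) / m) ^ D| ≤
      D * 2 ^ D * ((N : ℝ) / m) ^ D / ((N : ℝ) / m) := by
    intro ρ
    have := prod_near71 (fun i => (c (ρ i) : ℝ)) ((N : ℝ) / m) hNm (fun i => count_one71 a N m (ρ i)) Finset.univ
    rwa [Finset.card_univ] at this
  have hmain : |∑ ρ ∈ Gd, ∏ i, (c (ρ i) : ℝ) - Gd.card * ((N : ℝ) / m) ^ D| ≤
      Gd.card * (D * 2 ^ D * ((N : ℝ) / m) ^ D / ((N : ℝ) / m)) := by
    have e1 : ∑ ρ ∈ Gd, ∏ i, (c (ρ i) : ℝ) - Gd.card * ((N : ℝ) / m) ^ D =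
        ∑ ρ ∈ Gd, (∏ i, (c (ρ i) : ℝ) - ((N : ℝ) / m) ^ D) := by
      rw [Finset.sum_sub_distrib, Finset.sum_const, nsmul_eq_mul]
    rw [e1]
    refine (Finset.abs_sum_le_sum_abs _ _).trans ?_
    refine (Finset.sum_le_sum fun ρ _ => hnear ρ).trans ?_
    rw [Finset.sum_const, nsmul_eq_mul]
  have hNR : (0 : ℝ) < N := by
    have := mul_pos hx0 hmR
    rwa [div_mul_cancel₀ _ hmR.ne'] at this
  have e2 : (Gd.card : ℝ) * ((N : ℝ) / m) ^ D = (∏ u, ((G u).card : ℝ)) / m * (N : ℝ) ^ D := by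
    rw [hGdcard]
    exact alg1_71 _ _ _ _ hmR
  have e3 : (Gd.card : ℝ) * (D * 2 ^ D * ((N : ℝ) / m) ^ D / ((N : ℝ) / m)) =
      (∏ u, ((G u).card : ℝ)) / m * (N : ℝ) ^ D * (D * 2 ^ D * m / N) := by
    rw [← e2]
    exact alg2_71 _ _ _ _ _ hmR hNR
  rw [e2, e3] at hmain
  exact hmain

end Pool.Agent.HG
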