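import Mathlib

/-!
# HALL GAPS, block SB, parts 1 and 2: harmonic sums over multiples and the expansion of
`∑_{Y1 < N ≤ Y2} |∑_{m ∣ N} c m|² / N`
-/

set_option autoImplicit false

open Finset

namespace Pool.Agent.HG5

private lemma tel_up5 (a b : ℕ) (ha : 1 ≤ a) (hab : a ≤ b) :
    ∑ k ∈ Ioc a b, (1 : ℝ) / k ≤ Real.log b - Real.log a := by
  induction b, hab using Nat.le_induction with
  | base => simp
  | succ n hn ih =>
    rw [← Finset.insert_Ioc_right_eq_Ioc_add_one (by omega), Finset.sum_insert (by simp)]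
    have hn0 : (0 : ℝ) < n := by exact_mod_cast (by omega : 0 < n)
    have h1 : Real.log n - Real.log ((n + 1 : ℕ) : ℝ) ≤ - (1 / ((n + 1 : ℕ) : ℝ)) := by
      rw [← Real.log_div hn0.ne' (by positivity)]
      refine (Real.log_le_sub_one_of_pos (by positivity)).trans (le_of_eq ?_)
      push_cast
      field_simp
      ring
    linarith

private lemma tel_lo5 (a b : ℕ) (hab : a ≤ b) :
    Real.log ((b + 1 : ℕ) : ℝ) - Real.log ((a + 1 : ℕ) : ℝ) ≤ ∑ k ∈ Ioc a b, (1 : ℝ) / k := by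
  induction b, hab using Nat.le_induction with
  | base => simp
  | succ n hn ih =>
    rw [← Finset.insert_Ioc_right_eq_Ioc_add_one (by omega), Finset.sum_insert (by simp)]
    have h1 : Real.log ((n + 1 + 1 : ℕ) : ℝ) - Real.log ((n + 1 : ℕ) : ℝ) ≤ 1 / ((n + 1 : ℕ) : ℝ) := by
      rw [← Real.log_div (by positivity) (by positivity)]
      refine (Real.log_le_sub_one_of_pos (by positivity)).trans (le_of_eq ?_)
      push_cast
      field_simp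
      ring
    linarith

/-- `|∑_{A < k ≤ B} 1/k - log (B/A)| ≤ 2/A` for real `0 < A ≤ B`. -/
theorem harm5 {A B : ℝ} (hA : 0 < A) (hAB : A ≤ B) :
    |∑ k ∈ Ioc ⌊A⌋₊ ⌊B⌋₊, (1 : ℝ) / k - Real.log (B / A)| ≤ 2 / A := by
  have hB : 0 < B := hA.trans_le hAB
  rw [Real.log_div hB.ne' hA.ne']
  have hfl : ⌊A⌋₊ ≤ ⌊B⌋₊ := Nat.floor_le_floor hAB
  have hA1 : (⌊A⌋₊ : ℝ) ≤ A := Nat.floor_le hA.le
  have hA2 : A < ⌊A⌋₊ + 1 := Nat.lt_floor_add_one A
  have hB1 : (⌊B⌋₊ : ℝ) ≤ B := Nat.floor_le hB.le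
  have hB2 : B < ⌊B⌋₊ + 1 := Nat.lt_floor_add_one B
  have hlo : Real.log B - Real.log A - 1 / A ≤ ∑ k ∈ Ioc ⌊A⌋₊ ⌊B⌋₊, (1 : ℝ) / k := by
    have h1 := tel_lo5 _ _ hfl
    have h2 : Real.log B ≤ Real.log ((⌊B⌋₊ + 1 : ℕ) : ℝ) := Real.log_le_log hB (by push_cast; exact hB2.le)
    have h3 : Real.log ((⌊A⌋₊ + 1 : ℕ) : ℝ) ≤ Real.log A + 1 / A := by
      have h4 : ((⌊A⌋₊ + 1 : ℕ) : ℝ) ≤ A * (1 + 1 / A) := by
        push_cast
        rw [mul_add, mul_one, mul_one_div_cancel hA.ne']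
        linarith
      have h5 := Real.log_le_log (by positivity) h4
      rw [Real.log_mul hA.ne' (by positivity)] at h5
      have h6 := Real.log_le_sub_one_of_pos (x := 1 + 1 / A) (by positivity)
      linarith
    linarith
  have hup : ∑ k ∈ Ioc ⌊A⌋₊ ⌊B⌋₊, (1 : ℝ) / k ≤ Real.log B - Real.log A + 2 / A := by
    rcases Nat.eq_zero_or_pos ⌊A⌋₊ with h0 | h0
    · -- `A < 1`
      have hA3 : A < 1 := by
        rw [h0] at hA2
        push_cast at hA2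
        linarith
      have hla : Real.log A ≤ 0 := Real.log_nonpos hA.le hA3.le
      have h1A : 1 ≤ 1 / A := by rw [le_div_iff₀ hA]; linarith
      have h2A : 2 / A = 1 / A + 1 / A := by ring
      rw [h0]
      rcases Nat.eq_zero_or_pos ⌊B⌋₊ with h1 | h1
      · rw [h1]
        simp only [Ioc_self, sum_empty]
        have h2 : Real.log A ≤ Real.log B := Real.log_le_log hA hAB
        have : 0 ≤ 2 / A := by positivity
        linarith
      · have h2 : ∑ k ∈ Ioc 0 ⌊B⌋₊, (1 : ℝ) / k = 1 + ∑ k ∈ Ioc 1 ⌊B⌋₊, (1 : ℝ) / k := by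
          have h3 : Ioc 0 ⌊B⌋₊ = insert 1 (Ioc 1 ⌊B⌋₊) := by
            ext k
            simp only [mem_Ioc, mem_insert]
            omega
          rw [h3, Finset.sum_insert (by simp)]
          simp
        have h3 := tel_up5 1 ⌊B⌋₊ le_rfl h1
        have h4 : Real.log (⌊B⌋₊ : ℝ) ≤ Real.log B := Real.log_le_log (by exact_mod_cast h1) hB1
        rw [h2]
        simp only [Nat.cast_one, Real.log_one, sub_zero] at h3
        linarith
    · have ha0 : (1 : ℝ) ≤ ⌊A⌋₊ := by exact_mod_cast h0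
      have h1 := tel_up5 _ _ h0 hfl
      have h2 : Real.log (⌊B⌋₊ : ℝ) ≤ Real.log B :=
        Real.log_le_log (by have : (⌊A⌋₊ : ℝ) ≤ ⌊B⌋₊ := by exact_mod_cast hfl
                            linarith) hB1
      have h3 : Real.log A ≤ Real.log (⌊A⌋₊ : ℝ) + 2 / A := by
        have h4 : A ≤ (⌊A⌋₊ : ℝ) * (1 + 1 / ⌊A⌋₊) := by
          rw [mul_add, mul_one, mul_one_div_cancel (by linarith)]
          exact hA2.le
        have h5 := Real.log_le_log hA h4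
        rw [Real.log_mul (by linarith) (by positivity)] at h5
        have h6 := Real.log_le_sub_one_of_pos (x := 1 + 1 / (⌊A⌋₊ : ℝ)) (by positivity)
        have h7 : 1 / (⌊A⌋₊ : ℝ) ≤ 2 / A := by
          rw [div_le_div_iff₀ (by linarith) hA]
          linarith
        linarith
      linarith
  have : 1 / A ≤ 2 / A := by gcongr; norm_num
  rw [abs_le]
  constructor <;> linarith

/-- harmonic sum over the multiples of `q` -/
theorem sum_mult5 {q : ℕ} (hq : 1 ≤ q) {Y1 Y2 : ℝ} (h1 : 0 < Y1) (h2 : Y1 ≤ Y2) :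
    |∑ N ∈ (Ioc ⌊Y1⌋₊ ⌊Y2⌋₊).filter (q ∣ ·), (1 : ℝ) / N - Real.log (Y2 / Y1) / q| ≤ 2 / Y1 := by
  have hq0 : (0 : ℝ) < q := by exact_mod_cast hq
  have hY2 : 0 < Y2 := h1.trans_le h2
  have h3 : ∑ N ∈ (Ioc ⌊Y1⌋₊ ⌊Y2⌋₊).filter (q ∣ ·), (1 : ℝ) / N = (∑ k ∈ Ioc ⌊Y1 / q⌋₊ ⌊Y2 / q⌋₊, (1 : ℝ) / k) / q := by
    rw [Finset.sum_div]
    symm
    apply Finset.sum_nbij (fun k => q * k)
    · intro k hk
      rw [mem_Ioc, Nat.floor_lt (by positivity), Nat.le_floor_iff (by positivity)] at hk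
      rw [mem_filter, mem_Ioc, Nat.floor_lt h1.le, Nat.le_floor_iff hY2.le]
      push_cast
      rw [div_lt_iff₀ hq0, le_div_iff₀ hq0] at hk
      exact ⟨⟨by linarith, by linarith⟩, dvd_mul_right _ _⟩
    · intro a _ b _ hab
      exact Nat.eq_of_mul_eq_mul_left hq hab
    · intro N hN
      simp only [coe_filter, mem_Ioc, Set.mem_ofPred_eq] at hN
      obtain ⟨⟨h4, h5⟩, k, rfl⟩ := hN
      refine ⟨k, ?_, rfl⟩
      rw [Finset.mem_coe, mem_Ioc, Nat.floor_lt (by positivity), Nat.le_floor_iff (by positivity)]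
      rw [Nat.floor_lt h1.le] at h4
      rw [Nat.le_floor_iff hY2.le] at h5
      push_cast at h4 h5
      rw [div_lt_iff₀ hq0, le_div_iff₀ hq0]
      exact ⟨by linarith, by linarith⟩
    · intro k _
      push_cast
      rw [div_div, mul_comm]
  rw [h3]
  have h4 := harm5 (A := Y1 / q) (B := Y2 / q) (by positivity) (by gcongr)
  have h5 : Y2 / q / (Y1 / q) = Y2 / Y1 := by field_simp
  rw [h5] at h4
  rw [← sub_div, abs_div, abs_of_pos hq0, div_le_iff₀ hq0]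
  refine h4.trans (le_of_eq ?_)
  field_simp

/-- expansion of the mean square of divisor sums. -/
theorem sq_expand5 (D : Finset ℕ) (hD : ∀ m ∈ D, 1 ≤ m) (c : ℕ → ℂ) {Y1 Y2 : ℝ} (h1 : 0 < Y1) (h2 : Y1 ≤ Y2) :
    |∑ N ∈ Ioc ⌊Y1⌋₊ ⌊Y2⌋₊, ‖∑ m ∈ D.filter (· ∣ N), c m‖ ^ 2 / N -
      Real.log (Y2 / Y1) * (∑ m ∈ D, ∑ n ∈ D, c m * (starRingEnd ℂ) (c n) / (Nat.lcm m n : ℂ)).re| ≤
      (2 / Y1) * (∑ m ∈ D, ‖c m‖) ^ 2 := by
  have e1 : ∀ N ∈ Ioc ⌊Y1⌋₊ ⌊Y2⌋₊, ((‖∑ m ∈ D.filter (· ∣ N), c m‖ ^ 2 / N : ℝ) : ℂ) =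
      ∑ m ∈ D, ∑ n ∈ D, c m * (starRingEnd ℂ) (c n) * (if Nat.lcm m n ∣ N then ((1 / N : ℝ) : ℂ) else 0) := by
    intro N _
    have h3 : ((‖∑ m ∈ D.filter (· ∣ N), c m‖ ^ 2 : ℝ) : ℂ) =
        (∑ m ∈ D.filter (· ∣ N), c m) * (starRingEnd ℂ) (∑ m ∈ D.filter (· ∣ N), c m) := by
      rw [Complex.mul_conj, Complex.normSq_eq_norm_sq]
    rw [Complex.ofReal_div, h3, map_sum, Finset.sum_mul_sum, Finset.sum_filter, Finset.sum_div]
    refine Finset.sum_congr rfl fun m _ => ?_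
    split_ifs with hm
    · rw [Finset.sum_filter, Finset.sum_div]
      refine Finset.sum_congr rfl fun n _ => ?_
      by_cases hn : n ∣ N
      · rw [if_pos hn, if_pos (Nat.lcm_dvd hm hn)]
        push_cast
        ring
      · rw [if_neg hn, if_neg (fun h => hn ((Nat.dvd_lcm_right m n).trans h))]
        simp
    · rw [zero_div]
      symm
      apply Finset.sum_eq_zero
      intro n _
      rw [if_neg (fun h => hm ((Nat.dvd_lcm_left m n).trans h)), mul_zero]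
  have e2 : ((∑ N ∈ Ioc ⌊Y1⌋₊ ⌊Y2⌋₊, ‖∑ m ∈ D.filter (· ∣ N), c m‖ ^ 2 / N : ℝ) : ℂ) =
      ∑ m ∈ D, ∑ n ∈ D, c m * (starRingEnd ℂ) (c n) *
        ((∑ N ∈ (Ioc ⌊Y1⌋₊ ⌊Y2⌋₊).filter (Nat.lcm m n ∣ ·), (1 : ℝ) / N : ℝ) : ℂ) := by
    rw [Complex.ofReal_sum, Finset.sum_congr rfl e1, Finset.sum_comm]
    refine Finset.sum_congr rfl fun m _ => ?_
    rw [Finset.sum_comm]
    refine Finset.sum_congr rfl fun n _ => ?_
    rw [Finset.sum_filter, Complex.ofReal_sum, Finset.mul_sum]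
    refine Finset.sum_congr rfl fun N _ => ?_
    split_ifs <;> simp
  have e3 : ((∑ N ∈ Ioc ⌊Y1⌋₊ ⌊Y2⌋₊, ‖∑ m ∈ D.filter (· ∣ N), c m‖ ^ 2 / N : ℝ) : ℂ) -
      (Real.log (Y2 / Y1) : ℂ) * (∑ m ∈ D, ∑ n ∈ D, c m * (starRingEnd ℂ) (c n) / (Nat.lcm m n : ℂ)) =
      ∑ m ∈ D, ∑ n ∈ D, c m * (starRingEnd ℂ) (c n) *
        ((∑ N ∈ (Ioc ⌊Y1⌋₊ ⌊Y2⌋₊).filter (Nat.lcm m n ∣ ·), (1 : ℝ) / N - Real.log (Y2 / Y1) / (Nat.lcm m n : ℕ) : ℝ) : ℂ) := by
    rw [e2, Finset.mul_sum, ← Finset.sum_sub_distrib]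
    refine Finset.sum_congr rfl fun m _ => ?_
    rw [Finset.mul_sum, ← Finset.sum_sub_distrib]
    refine Finset.sum_congr rfl fun n _ => ?_
    push_cast
    ring
  have e4 : ‖((∑ N ∈ Ioc ⌊Y1⌋₊ ⌊Y2⌋₊, ‖∑ m ∈ D.filter (· ∣ N), c m‖ ^ 2 / N : ℝ) : ℂ) -
      (Real.log (Y2 / Y1) : ℂ) * (∑ m ∈ D, ∑ n ∈ D, c m * (starRingEnd ℂ) (c n) / (Nat.lcm m n : ℂ))‖ ≤
      (2 / Y1) * (∑ m ∈ D, ‖c m‖) ^ 2 := by
    rw [e3]
    have h3 : (2 / Y1) * (∑ m ∈ D, ‖c m‖) ^ 2 = ∑ m ∈ D, ∑ n ∈ D, ‖c m‖ * ‖c n‖ * (2 / Y1) := by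
      rw [sq, Finset.sum_mul_sum, Finset.mul_sum]
      refine Finset.sum_congr rfl fun m _ => ?_
      rw [Finset.mul_sum]
      refine Finset.sum_congr rfl fun n _ => ?_
      ring
    rw [h3]
    refine (norm_sum_le _ _).trans (Finset.sum_le_sum fun m hm => ?_)
    refine (norm_sum_le _ _).trans (Finset.sum_le_sum fun n hn => ?_)
    rw [norm_mul, norm_mul, RCLike.norm_conj, Complex.norm_real, Real.norm_eq_abs]
    exact mul_le_mul_of_nonneg_left (sum_mult5 (Nat.lcm_pos (hD m hm) (hD n hn)) h1 h2) (by positivity)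
  have e5 := (Complex.abs_re_le_norm _).trans e4
  rw [Complex.sub_re, Complex.ofReal_re, Complex.re_ofReal_mul] at e5
  exact e5

end Pool.Agent.HG5
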