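import Pool.Agent.Helper66.AF.ZM

/-!
# HALL GAPS, block SB, part EP: `∑_{p ≤ e^(ε L)} (1 - cos (ξ log p / L)) / p ≤ 2 log (1 + ε |ξ|) + C`
-/

set_option autoImplicit false

open Finset Pool.Agent.Helper5.RM Pool.Agent.Helper66.AF

namespace Pool.Agent.HG5

private lemma mem_PP5 {N p : ℕ} : p ∈ PP N ↔ p.Prime ∧ p ≤ N := by
  unfold PP
  rw [Finset.mem_filter, Finset.mem_Icc]
  constructor
  · rintro ⟨⟨_, h⟩, h'⟩
    exact ⟨h', h⟩
  · rintro ⟨h', h⟩
    exact ⟨⟨h'.one_lt.le, h⟩, h'⟩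

/-- small frequencies -/
private lemma small5 {r : ℝ} (hr : 0 ≤ r) {z : ℕ} (hz : 3 ≤ z) (h : r * Real.log z ≤ 1) :
    ∑ p ∈ PP z, (1 - Real.cos (r * Real.log p)) / p ≤ (1 + (Real.log 4 + 4)) / 2 := by
  have hl : 1 ≤ Real.log z := one_le_log hz
  have h1 : ∀ p ∈ PP z, (1 - Real.cos (r * Real.log p)) / p ≤ (r ^ 2 * Real.log z / 2) * (Real.log p / p) := by
    intro p hp
    obtain ⟨hp1, hp2⟩ := mem_PP5.1 hp
    have hp0 : (0 : ℝ) < p := by exact_mod_cast hp1.pos
    have hlp : 0 ≤ Real.log p := Real.log_nonneg (by exact_mod_cast hp1.one_lt.le)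
    have hlz : Real.log p ≤ Real.log z := Real.log_le_log hp0 (by exact_mod_cast hp2)
    have h2 := Real.one_sub_sq_div_two_le_cos (x := r * Real.log p)
    have h3 : 1 - Real.cos (r * Real.log p) ≤ (r ^ 2 * Real.log z / 2) * Real.log p := by
      have h4 : (r * Real.log p) ^ 2 ≤ r ^ 2 * Real.log z * Real.log p := by
        have h5 : Real.log p * Real.log p ≤ Real.log z * Real.log p := mul_le_mul_of_nonneg_right hlz hlp
        calc (r * Real.log p) ^ 2 = r ^ 2 * (Real.log p * Real.log p) := by ring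
          _ ≤ r ^ 2 * (Real.log z * Real.log p) := mul_le_mul_of_nonneg_left h5 (sq_nonneg r)
          _ = _ := by ring
      linarith
    calc (1 - Real.cos (r * Real.log p)) / p ≤ ((r ^ 2 * Real.log z / 2) * Real.log p) / p := by gcongr
      _ = _ := by ring
  refine (Finset.sum_le_sum h1).trans ?_
  rw [← Finset.mul_sum]
  have h2 := logp_le (y := z) (by omega)
  have h3 : 0 ≤ Real.log 4 := Real.log_nonneg (by norm_num)
  have h4 : 0 ≤ r ^ 2 * Real.log z / 2 := by positivity
  calc (r ^ 2 * Real.log z / 2) * ∑ p ∈ PP z, Real.log p / p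
      ≤ (r ^ 2 * Real.log z / 2) * (Real.log z + (Real.log 4 + 4)) := mul_le_mul_of_nonneg_left h2 h4
    _ ≤ (r ^ 2 * Real.log z / 2) * (Real.log z * (1 + (Real.log 4 + 4))) := by
        apply mul_le_mul_of_nonneg_left _ h4
        nlinarith
    _ = (r * Real.log z) * (r * Real.log z) * ((1 + (Real.log 4 + 4)) / 2) := by ring
    _ ≤ 1 * 1 * ((1 + (Real.log 4 + 4)) / 2) := by
        apply mul_le_mul_of_nonneg_right _ (by positivity)
        have : 0 ≤ r * Real.log z := by positivity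
        exact mul_le_mul h h this zero_le_one
    _ = _ := by ring

private lemma PP_sub5 {z y : ℕ} (h : z ≤ y) : PP z ⊆ PP y := fun p hp => by
  obtain ⟨h1, h2⟩ := mem_PP5.1 hp
  exact mem_PP5.2 ⟨h1, h2.trans h⟩

/-- EP, real parameter form: `r = |ξ| / L`, `log y ≤ K`, bound `2 log (1 + r K) + C`. -/
theorem cos_sum_le' : ∃ C : ℝ, 0 ≤ C ∧ ∀ (r K : ℝ) (y : ℕ), 0 ≤ r → 0 ≤ K → Real.log y ≤ K →
    ∑ p ∈ PP y, (1 - Real.cos (r * Real.log p)) / p ≤ 2 * Real.log (1 + r * K) + C := by
  obtain ⟨C1, hC1, h1⟩ := mertens_upper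
  obtain ⟨C2, hC2, h2⟩ := mertens_lower
  have hl4 : 0 ≤ Real.log 4 := Real.log_nonneg (by norm_num)
  have hl2 : 0 ≤ Real.log 2 := Real.log_nonneg (by norm_num)
  refine ⟨1 + (1 + (Real.log 4 + 4)) / 2 + 2 * (C1 + C2) + 2 * Real.log 2, by positivity, fun r K y hr hK hy => ?_⟩
  have hlog : 0 ≤ 2 * Real.log (1 + r * K) := by
    have : 0 ≤ Real.log (1 + r * K) := Real.log_nonneg (by nlinarith [mul_nonneg hr hK])
    linarith
  rcases lt_or_ge y 3 with hy3 | hy3
  · -- at most the prime 2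
    have h3 : ∑ p ∈ PP y, (1 - Real.cos (r * Real.log p)) / p ≤ ∑ p ∈ ({2} : Finset ℕ), (1 - Real.cos (r * Real.log p)) / p := by
      apply Finset.sum_le_sum_of_subset_of_nonneg
      · intro p hp
        obtain ⟨hp1, hp2⟩ := mem_PP5.1 hp
        have := hp1.two_le
        rw [Finset.mem_singleton]
        omega
      · intro p _ _
        have := Real.cos_le_one (r * Real.log p)
        exact div_nonneg (by linarith) (Nat.cast_nonneg p)
    rw [Finset.sum_singleton] at h3
    have h4 : (1 - Real.cos (r * Real.log (2 : ℕ))) / ((2 : ℕ) : ℝ) ≤ 1 := by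
      have := Real.neg_one_le_cos (r * Real.log (2 : ℕ))
      rw [div_le_one (by norm_num)]
      push_cast
      push_cast at this
      linarith
    linarith
  have hly : 1 ≤ Real.log y := one_le_log hy3
  have hy0 : (0 : ℝ) < y := by exact_mod_cast (by omega : 0 < y)
  rcases le_or_gt (r * Real.log y) 1 with h3 | h3
  · have h4 := small5 hr hy3 h3
    linarith
  -- now `1 < r log y`, `r > 0`
  have hr0 : 0 < r := by
    rcases hr.eq_or_lt with h | h
    · rw [← h, zero_mul] at h3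
      linarith
    · exact h
  have hK0 : 0 < K := by linarith
  have htriv : ∀ p ∈ PP y, (1 - Real.cos (r * Real.log p)) / p ≤ 2 * (1 / (p : ℝ)) := by
    intro p hp
    have hp0 : (0 : ℝ) < p := by exact_mod_cast (mem_PP5.1 hp).1.pos
    have := Real.neg_one_le_cos (r * Real.log p)
    rw [div_le_iff₀ hp0]
    field_simp
    linarith
  set z : ℕ := ⌊Real.exp (1 / r)⌋₊ with hzdef
  have hzle : (z : ℝ) ≤ Real.exp (1 / r) := Nat.floor_le (Real.exp_pos _).le
  have hzgt : Real.exp (1 / r) < z + 1 := Nat.lt_floor_add_one _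
  rcases lt_or_ge z 3 with hz3 | hz3
  · -- `e^(1/r) < 3`
    have h4 : Real.exp (1 / r) < 3 := by
      have : (z : ℝ) + 1 ≤ 3 := by exact_mod_cast hz3
      linarith
    have h5 : 1 / r < Real.log 3 := (Real.lt_log_iff_exp_lt (by norm_num)).2 h4
    have h6 : Real.log 3 ≤ 2 := by
      have : Real.log 3 ≤ 3 - 1 := Real.log_le_sub_one_of_pos (by norm_num)
      linarith
    have h7 : 1 ≤ 2 * r := by
      have : 1 / r ≤ 2 := by linarith
      rwa [div_le_iff₀ hr0] at this
    have h8 : Real.log y ≤ 2 * (1 + r * K) := by nlinarith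
    have h9 : Real.log (Real.log y) ≤ Real.log 2 + Real.log (1 + r * K) := by
      rw [← Real.log_mul (by norm_num) (by positivity)]
      exact Real.log_le_log (by linarith) h8
    calc ∑ p ∈ PP y, (1 - Real.cos (r * Real.log p)) / p ≤ ∑ p ∈ PP y, 2 * (1 / (p : ℝ)) := Finset.sum_le_sum htriv
      _ = 2 * ∑ p ∈ PP y, 1 / (p : ℝ) := by rw [Finset.mul_sum]
      _ ≤ 2 * (Real.log (Real.log y) + C1) := by linarith [h1 y hy3]
      _ ≤ _ := by linarith
  · have hlz : 1 ≤ Real.log z := one_le_log hz3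
    have hz0 : (0 : ℝ) < z := by exact_mod_cast (by omega : 0 < z)
    have h4 : r * Real.log z ≤ 1 := by
      have : Real.log z ≤ 1 / r := by
        rw [Real.log_le_iff_le_exp hz0]
        exact hzle
      rw [le_div_iff₀ hr0] at this
      linarith
    have hzy : z ≤ y := by
      by_contra hc
      have h5 : Real.log y ≤ Real.log z := Real.log_le_log hy0 (by exact_mod_cast (by omega : y ≤ z))
      nlinarith
    have h5 := small5 hr hz3 h4
    -- `log z ≥ 1 / (2 r)`
    have h6 : 1 / r ≤ 2 * Real.log z := by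
      have h7 : 1 / r ≤ Real.log (z + 1) := by
        rw [Real.le_log_iff_exp_le (by positivity)]
        exact hzgt.le
      have h8 : Real.log (z + 1) ≤ Real.log z + 1 := by
        have h9 : (z : ℝ) + 1 ≤ z * 2 := by
          have : (1 : ℝ) ≤ z := by exact_mod_cast (by omega : 1 ≤ z)
          linarith
        have h10 := Real.log_le_log (by positivity) h9
        rw [Real.log_mul hz0.ne' (by norm_num)] at h10
        have h11 : Real.log 2 ≤ 2 - 1 := Real.log_le_sub_one_of_pos (by norm_num)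
        linarith
      linarith
    have h7 : Real.log y ≤ 2 * (1 + r * K) * Real.log z := by
      have h8 : 1 ≤ 2 * r * Real.log z := by
        rw [div_le_iff₀ hr0] at h6
        linarith
      have h9 : K * 1 ≤ K * (2 * r * Real.log z) := mul_le_mul_of_nonneg_left h8 hK
      nlinarith
    have h8 : Real.log (Real.log y) ≤ Real.log 2 + Real.log (1 + r * K) + Real.log (Real.log z) := by
      rw [← Real.log_mul (by norm_num) (by positivity), ← Real.log_mul (by positivity) (by positivity)]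
      exact Real.log_le_log (by linarith) h7
    have h9 : ∑ p ∈ PP y, (1 - Real.cos (r * Real.log p)) / p =
        ∑ p ∈ PP z, (1 - Real.cos (r * Real.log p)) / p + ∑ p ∈ PP y \ PP z, (1 - Real.cos (r * Real.log p)) / p := by
      rw [add_comm, Finset.sum_sdiff (PP_sub5 hzy)]
    have h10 : ∑ p ∈ PP y \ PP z, (1 - Real.cos (r * Real.log p)) / p ≤ 2 * ∑ p ∈ PP y \ PP z, (1 / (p : ℝ)) := by
      rw [Finset.mul_sum]
      exact Finset.sum_le_sum fun p hp => htriv p (Finset.mem_sdiff.1 hp).1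
    have h11 : ∑ p ∈ PP y \ PP z, (1 / (p : ℝ)) = ∑ p ∈ PP y, (1 / (p : ℝ)) - ∑ p ∈ PP z, (1 / (p : ℝ)) := by
      rw [← Finset.sum_sdiff (PP_sub5 hzy)]
      ring
    have h12 := h1 y hy3
    have h13 := h2 z hz3
    rw [h9]
    linarith

/-- EP: `∑_{p ≤ y} (1 - cos (ξ log p / L)) / p ≤ 2 log (1 + ε |ξ|) + C` for `log y ≤ ε L`. -/
theorem cos_sum_le : ∃ C : ℝ, 0 ≤ C ∧ ∀ (eps L ξ : ℝ) (y : ℕ), 0 ≤ eps → 0 < L → Real.log y ≤ eps * L →
    ∑ p ∈ PP y, (1 - Real.cos (ξ * Real.log p / L)) / p ≤ 2 * Real.log (1 + eps * |ξ|) + C := by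
  obtain ⟨C, hC, h⟩ := cos_sum_le'
  refine ⟨C, hC, fun eps L ξ y he hL hy => ?_⟩
  have h1 := h (|ξ| / L) (eps * L) y (by positivity) (by positivity) hy
  have h2 : |ξ| / L * (eps * L) = eps * |ξ| := by
    field_simp
  rw [h2] at h1
  refine le_trans (le_of_eq ?_) h1
  refine Finset.sum_congr rfl fun p _ => ?_
  congr 2
  rcases le_total 0 ξ with h3 | h3
  · rw [abs_of_nonneg h3]
    congr 1
    ring
  · rw [abs_of_nonpos h3, show -ξ / L * Real.log p = -(ξ * Real.log p / L) by ring, Real.cos_neg]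

end Pool.Agent.HG5
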