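import Pool.Agent.Helper5.HG.Ep
import Pool.Agent.Helper69.HG.Stm

/-!
# HALL GAPS, block SB: comparison of the twisted Euler product with `V'`
-/

set_option autoImplicit false

open Finset Pool.Agent.Helper5.RM Pool.Agent.Helper69.HG

namespace Pool.Agent.HG5

private lemma neg_log_le5 {u : ℝ} (h0 : 0 ≤ u) (h1 : u ≤ 1 / 2) : -(u + u ^ 2) ≤ Real.log (1 - u) := by
  -- `1/(1-u) = 1 + u/(1-u)`; `log (1/(1-u)) ≤ ...`; use `log x ≥ 1 - 1/x` refined by `(1-u)(1+u+u²) = 1 - u³`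
  have hpos : 0 < 1 - u := by linarith
  have h2 : Real.exp (-(u + u ^ 2)) ≤ 1 - u := by
    rw [Real.exp_neg]
    have h3 : 1 + (u + u ^ 2) + (u + u ^ 2) ^ 2 / 2 ≤ Real.exp (u + u ^ 2) := by
      have := Real.quadratic_le_exp_of_nonneg (x := u + u ^ 2) (by positivity)
      linarith
    have h4 : 1 ≤ (1 - u) * (1 + (u + u ^ 2) + (u + u ^ 2) ^ 2 / 2) := by
      nlinarith [mul_nonneg h0 h0, mul_nonneg (mul_nonneg h0 h0) (by linarith : (0:ℝ) ≤ 1 / 2 - u),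
        mul_nonneg (mul_nonneg (mul_nonneg h0 h0) h0) (by linarith : (0:ℝ) ≤ 1 / 2 - u), sq_nonneg (u ^ 2), pow_nonneg h0 3, pow_nonneg h0 4, pow_nonneg h0 5]
    have h5 : 0 < Real.exp (u + u ^ 2) := Real.exp_pos _
    rw [inv_le_comm₀ h5 hpos]
    refine le_trans ?_ h3
    rw [inv_le_iff_one_le_mul₀ hpos]
    linarith
  rw [Real.le_log_iff_exp_le hpos]
  exact h2

/-- the twisted Euler factor -/
noncomputable def tf (s r : ℝ) (p : ℕ) : ℝ := 1 - (2 * Real.cos (r * Real.log p) - 1) * (p : ℝ) ^ (-1 - s)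

private lemma rpow_le5 {p : ℕ} (hp : 2 ≤ p) {s : ℝ} (hs : 0 ≤ s) : 0 < (p : ℝ) ^ (-1 - s) ∧ (p : ℝ) ^ (-1 - s) ≤ 1 / p ∧ (1 : ℝ) / p ≤ 1 / 2 := by
  have hp1 : (2 : ℝ) ≤ p := by exact_mod_cast hp
  have hp0 : (0 : ℝ) < p := by linarith
  refine ⟨Real.rpow_pos_of_pos hp0 _, ?_, ?_⟩
  · have h1 : (p : ℝ) ^ (-1 - s) ≤ (p : ℝ) ^ (-1 : ℝ) := Real.rpow_le_rpow_of_exponent_le (by linarith) (by linarith)
    rw [Real.rpow_neg_one] at h1
    rw [one_div]
    exact h1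
  · rw [div_le_div_iff₀ hp0 (by norm_num)]
    linarith

theorem tf_lower {s r : ℝ} {p : ℕ} (hp : 2 ≤ p) (hs : 0 ≤ s) : Real.exp (-(2 * (1 / (p : ℝ)))) ≤ tf s r p := by
  obtain ⟨h1, h2, h3⟩ := rpow_le5 hp hs
  have hc := Real.cos_le_one (r * Real.log p)
  have h4 : 1 - 1 / (p : ℝ) ≤ tf s r p := by
    unfold tf
    nlinarith
  have hp0 : 0 ≤ 1 / (p : ℝ) := by positivity
  have h5 := neg_log_le5 hp0 h3
  have h6 : 0 < 1 - 1 / (p : ℝ) := by linarith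
  refine le_trans ?_ h4
  rw [← Real.le_log_iff_exp_le h6]
  nlinarith

theorem tf_pos {s r : ℝ} {p : ℕ} (hp : 2 ≤ p) (hs : 0 ≤ s) : 0 < tf s r p :=
  (Real.exp_pos _).trans_le (tf_lower hp hs)

/-- one factor: `tf ≤ (1 - 1/p) exp (s log p / p + 1/p² + 2 (1 - cos)/p)` -/
private lemma tf_le5 {s r : ℝ} {p : ℕ} (hp : 2 ≤ p) (hs : 0 ≤ s) :
    tf s r p ≤ (1 - 1 / (p : ℝ)) * Real.exp (s * (Real.log p / p) + 1 / (p : ℝ) ^ 2 + 2 * ((1 - Real.cos (r * Real.log p)) / p)) := by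
  obtain ⟨h1, h2, h3⟩ := rpow_le5 hp hs
  have hp1 : (2 : ℝ) ≤ p := by exact_mod_cast hp
  have hp0 : (0 : ℝ) < p := by linarith
  have hc := Real.cos_le_one (r * Real.log p)
  set c := Real.cos (r * Real.log p) with hcdef
  set x := (p : ℝ) ^ (-1 - s) with hx
  set x0 := 1 / (p : ℝ) with hx0
  have hx0p : 0 < x0 := by positivity
  have h4 : tf s r p ≤ Real.exp (-(2 * c - 1) * x) := by
    have := Real.add_one_le_exp (-(2 * c - 1) * x)
    unfold tf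
    rw [← hcdef, ← hx]
    linarith
  have h5 : x0 - x ≤ s * (Real.log p / p) := by
    have h6 : x = x0 * (p : ℝ) ^ (-s) := by
      rw [hx, hx0, one_div, ← Real.rpow_neg_one, ← Real.rpow_add hp0, sub_eq_add_neg]
    have h7 : 1 - s * Real.log p ≤ (p : ℝ) ^ (-s) := by
      rw [Real.rpow_def_of_pos hp0]
      have := Real.add_one_le_exp (Real.log p * -s)
      linarith
    rw [h6]
    have h8 : x0 * (1 - s * Real.log p) ≤ x0 * (p : ℝ) ^ (-s) := mul_le_mul_of_nonneg_left h7 hx0p.le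
    have h9 : s * (Real.log p / p) = x0 * (s * Real.log p) := by
      rw [hx0]
      ring
    rw [h9]
    linarith
  have h6 : 0 < 1 - x0 := by linarith
  have h7 := neg_log_le5 hx0p.le h3
  have h8 : Real.exp (-(2 * c - 1) * x) ≤ Real.exp (Real.log (1 - x0) + (s * (Real.log p / p) + 1 / (p : ℝ) ^ 2 + 2 * ((1 - c) / p))) := by
    apply Real.exp_le_exp.2
    have h9 : x0 ^ 2 = 1 / (p : ℝ) ^ 2 := by
      rw [hx0]
      ring
    have h10 : (1 - c) / p = (1 - c) * x0 := by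
      rw [hx0]
      ring
    rw [← h9, h10]
    have h11 : (1 - c) * x ≤ (1 - c) * x0 := mul_le_mul_of_nonneg_left h2 (by linarith)
    nlinarith
  rw [Real.exp_add, Real.exp_log h6] at h8
  exact h4.trans h8

/-- **Comparison of the Euler products.** -/
theorem euler_le : ∃ C : ℝ, 0 < C ∧ ∀ (T ε ξ s : ℝ), 3 ≤ T → 0 < ε → ε ≤ 1 → 0 ≤ s → s ≤ 1 / Real.log T →
    ∏ p ∈ (Icc 1 ⌊T ^ ε⌋₊).filter Nat.Prime, tf s (ξ / Real.log T) p ≤ C * (1 + ε * |ξ|) ^ 4 * Vp T ε := by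
  obtain ⟨C1, hC1, h1⟩ := cos_sum_le
  have hl4 : 0 ≤ Real.log 4 := Real.log_nonneg (by norm_num)
  refine ⟨Real.exp (1 + (Real.log 4 + 4) + Helper66.AF.C2 + 2 * C1), Real.exp_pos _, fun T ε ξ s hT hε hε1 hs hs1 => ?_⟩
  have hT0 : 0 < T := by linarith
  have hL : 1 ≤ Real.log T := by
    rw [Real.le_log_iff_exp_le hT0]
    linarith [Real.exp_one_lt_d9]
  have hL0 : 0 < Real.log T := by linarith
  set y : ℕ := ⌊T ^ ε⌋₊ with hy
  have hPP : (Icc 1 y).filter Nat.Prime = PP y := rfl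
  have hpr : ∀ p ∈ (Icc 1 y).filter Nat.Prime, 2 ≤ p := fun p hp => (Finset.mem_filter.1 hp).2.two_le
  have hTe : 1 ≤ T ^ ε := Real.one_le_rpow (by linarith) hε.le
  have hy1 : 1 ≤ y := (Nat.one_le_floor_iff _).2 hTe
  have hly : Real.log y ≤ ε * Real.log T := by
    rw [← Real.log_rpow hT0]
    exact Real.log_le_log (by exact_mod_cast hy1) (Nat.floor_le (by positivity))
  have h2 : ∏ p ∈ (Icc 1 y).filter Nat.Prime, tf s (ξ / Real.log T) p ≤
      ∏ p ∈ (Icc 1 y).filter Nat.Prime, ((1 - 1 / (p : ℝ)) * Real.exp (s * (Real.log p / p) + 1 / (p : ℝ) ^ 2 +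
        2 * ((1 - Real.cos (ξ / Real.log T * Real.log p)) / p))) :=
    Finset.prod_le_prod (fun p hp => (tf_pos (hpr p hp) hs).le) fun p hp => tf_le5 (hpr p hp) hs
  rw [Finset.prod_mul_distrib, ← Real.exp_sum] at h2
  have h3 : ∑ p ∈ (Icc 1 y).filter Nat.Prime, (s * (Real.log p / p) + 1 / (p : ℝ) ^ 2 +
        2 * ((1 - Real.cos (ξ / Real.log T * Real.log p)) / p)) ≤
      4 * Real.log (1 + ε * |ξ|) + (1 + (Real.log 4 + 4) + Helper66.AF.C2 + 2 * C1) := by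
    rw [Finset.sum_add_distrib, Finset.sum_add_distrib, ← Finset.mul_sum, ← Finset.mul_sum]
    have h4 : ∑ p ∈ (Icc 1 y).filter Nat.Prime, Real.log p / p ≤ Real.log y + (Real.log 4 + 4) := Helper66.AF.logp_le hy1
    have h5 : ∑ p ∈ (Icc 1 y).filter Nat.Prime, 1 / (p : ℝ) ^ 2 ≤ Helper66.AF.C2 := Helper66.AF.sum_sq_le _
    have h6 : ∑ p ∈ (Icc 1 y).filter Nat.Prime, (1 - Real.cos (ξ / Real.log T * Real.log p)) / p ≤ 2 * Real.log (1 + ε * |ξ|) + C1 := by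
      have h7 := h1 ε (Real.log T) ξ y hε.le hL0 hly
      refine le_trans (le_of_eq ?_) h7
      rw [hPP]
      refine Finset.sum_congr rfl fun p _ => ?_
      congr 3
      ring
    have h8 : s * ∑ p ∈ (Icc 1 y).filter Nat.Prime, Real.log p / p ≤ 1 + (Real.log 4 + 4) := by
      have h9 : ∑ p ∈ (Icc 1 y).filter Nat.Prime, Real.log p / p ≤ Real.log T * (1 + (Real.log 4 + 4)) := by nlinarith
      have h10 : 0 ≤ Real.log T * (1 + (Real.log 4 + 4)) := by positivity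
      calc s * ∑ p ∈ (Icc 1 y).filter Nat.Prime, Real.log p / p ≤ s * (Real.log T * (1 + (Real.log 4 + 4))) :=
            mul_le_mul_of_nonneg_left h9 hs
        _ ≤ 1 / Real.log T * (Real.log T * (1 + (Real.log 4 + 4))) := mul_le_mul_of_nonneg_right hs1 h10
        _ = _ := by field_simp
    linarith
  have h4 : 0 ≤ ∏ p ∈ (Icc 1 y).filter Nat.Prime, (1 - 1 / (p : ℝ)) := by
    refine Finset.prod_nonneg fun p hp => ?_
    have := (rpow_le5 (hpr p hp) hs).2.2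
    linarith
  refine h2.trans ?_
  have h5 := mul_le_mul_of_nonneg_left (Real.exp_le_exp.2 h3) h4
  refine h5.trans (le_of_eq ?_)
  have h6 : 0 < 1 + ε * |ξ| := by positivity
  rw [Real.exp_add, show 4 * Real.log (1 + ε * |ξ|) = ((4 : ℕ) : ℝ) * Real.log (1 + ε * |ξ|) by norm_num, ← Real.log_pow,
    Real.exp_log (by positivity)]
  unfold Vp
  rw [← hy]
  ring

end Pool.Agent.HG5
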