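import Pool.Agent.Helper5.HG.Eul
import Pool.Agent.Helper96.HG.Cell

/-!
# HALL GAPS, block SB: the twisted quadratic form
-/

set_option autoImplicit false

open Finset Pool.Agent.Helper5.RM Pool.Agent.Helper69.HG Pool.Agent.Helper96.HG
open scoped ArithmeticFunction.Moebius

namespace Pool.Agent.HG5

/-- `n^(-1-s-ir)` -/
noncomputable def Aw (s r : ℝ) (n : ℕ) : ℂ := (n : ℂ) ^ (((-1 - s : ℝ) : ℂ) + -(Complex.I * (r : ℂ)))

/-- `n^(1+s)` -/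
noncomputable def Gw (s : ℝ) (n : ℕ) : ℂ := (n : ℂ) ^ ((1 + s : ℝ) : ℂ)

lemma cmul_cpow5 (z : ℂ) : CMul fun n : ℕ => (n : ℂ) ^ z where
  one := by simp
  mul := fun m n _ _ => by
    change ((m * n : ℕ) : ℂ) ^ z = _
    rw [Nat.cast_mul, Complex.natCast_mul_natCast_cpow]

lemma cmul_Aw (s r : ℝ) : CMul (Aw s r) := cmul_cpow5 _

lemma cmul_Gw (s : ℝ) : CMul (Gw s) := cmul_cpow5 _

lemma norm_Aw (s r : ℝ) {n : ℕ} (hn : n ≠ 0) : ‖Aw s r n‖ = (n : ℝ) ^ (-1 - s) := by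
  unfold Aw
  rw [Complex.norm_natCast_cpow_of_pos (Nat.pos_of_ne_zero hn)]
  congr 1
  simp

lemma norm_Gw (s : ℝ) {n : ℕ} (hn : n ≠ 0) : ‖Gw s n‖ = (n : ℝ) ^ (1 + s) := by
  unfold Gw
  rw [Complex.norm_natCast_cpow_of_pos (Nat.pos_of_ne_zero hn), Complex.ofReal_re]

lemma rpow_inv5 {s : ℝ} (hs : 0 ≤ s) {n : ℕ} (hn : n ≠ 0) : (n : ℝ) ^ (-1 - s) ≤ 1 / n := by
  have hn1 : (1 : ℝ) ≤ n := by exact_mod_cast Nat.pos_of_ne_zero hn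
  have h1 : (n : ℝ) ^ (-1 - s) ≤ (n : ℝ) ^ (-1 : ℝ) := Real.rpow_le_rpow_of_exponent_le hn1 (by linarith)
  rwa [Real.rpow_neg_one, ← one_div] at h1

/-- `A B G = n^(-1-s)` -/
lemma abg5 (s r : ℝ) {n : ℕ} (hn : n ≠ 0) : Aw s r n * Aw s (-r) n * Gw s n = ((n : ℝ) ^ (-1 - s) : ℝ) := by
  have hn0 : (n : ℂ) ≠ 0 := by exact_mod_cast hn
  unfold Aw Gw
  rw [← Complex.cpow_add _ _ hn0, ← Complex.cpow_add _ _ hn0, Complex.ofReal_cpow (Nat.cast_nonneg n)]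
  congr 1
  push_cast
  ring

lemma Aw_eq5 (s r : ℝ) {n : ℕ} (hn : n ≠ 0) : Aw s r n = ((n : ℝ) ^ (-1 - s) : ℝ) * Complex.exp (-(r * Real.log n : ℝ) * Complex.I) := by
  have hn0 : (n : ℂ) ≠ 0 := by exact_mod_cast hn
  unfold Aw
  rw [Complex.cpow_add _ _ hn0, Complex.ofReal_cpow (Nat.cast_nonneg n)]
  congr 1
  rw [Complex.cpow_def_of_ne_zero hn0, Complex.ofReal_mul, Complex.ofReal_log (Nat.cast_nonneg n)]
  congr 1
  push_cast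
  ring

/-- the local factor is real -/
lemma factor5 (s r : ℝ) {p : ℕ} (hp : p ≠ 0) :
    1 - Aw s r p - Aw s (-r) p + Aw s r p * Aw s (-r) p * Gw s p = (tf s r p : ℂ) := by
  rw [abg5 s r hp, Aw_eq5 s r hp, Aw_eq5 s (-r) hp]
  unfold tf
  have h1 : Complex.exp (-(r * Real.log p : ℝ) * Complex.I) + Complex.exp (-(-r * Real.log p : ℝ) * Complex.I) =
      2 * (Real.cos (r * Real.log p) : ℂ) := by
    rw [Complex.ofReal_cos, Complex.cos]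
    have e1 : -((-r * Real.log p : ℝ) : ℂ) * Complex.I = ((r * Real.log p : ℝ) : ℂ) * Complex.I := by
      push_cast
      ring
    rw [e1]
    ring
  have h2 : (1 : ℂ) - (((p : ℝ) ^ (-1 - s) : ℝ) : ℂ) * Complex.exp (-(r * Real.log p : ℝ) * Complex.I) -
      (((p : ℝ) ^ (-1 - s) : ℝ) : ℂ) * Complex.exp (-(-r * Real.log p : ℝ) * Complex.I) + (((p : ℝ) ^ (-1 - s) : ℝ) : ℂ) =
      1 - (((p : ℝ) ^ (-1 - s) : ℝ) : ℂ) * (Complex.exp (-(r * Real.log p : ℝ) * Complex.I) +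
        Complex.exp (-(-r * Real.log p : ℝ) * Complex.I)) + (((p : ℝ) ^ (-1 - s) : ℝ) : ℂ) := by ring
  rw [h2, h1]
  push_cast
  ring

/-- one cell -/
theorem cell_le5 {S : Finset ℕ} (hS : ∀ p ∈ S, p.Prime) {c₀ : ℝ} (hc0 : 0 ≤ c₀) (hc : ∑ p ∈ S, 1 / (p : ℝ) ≤ c₀) {l : ℕ} {a : ℕ → ℝ}
    (h1 : ∀ n ∈ Dn S (2 * l), |a n| ≤ 1) (h2 : ∀ n ∈ Dn S l, a n = (μ n : ℝ)) {s r : ℝ} (hs : 0 ≤ s) :
    ‖∑ m ∈ Dn S (2 * l), ∑ n ∈ Dn S (2 * l), (a m : ℂ) * (a n : ℂ) * (Aw s r m * Aw s (-r) n * Gw s (Nat.gcd m n))‖ ≤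
      (∏ p ∈ S, tf s r p) * Real.exp (2 * Real.exp (52 * c₀) * (9 / 10) ^ l) := by
  have h3 := cell hS hc h1 h2 (cmul_Aw s r) (cmul_Aw s (-r)) (cmul_Gw s)
    (fun n hn => by rw [norm_Aw s r hn]; exact rpow_inv5 hs hn)
    (fun n hn => by rw [norm_Aw s (-r) hn]; exact rpow_inv5 hs hn)
    (fun n hn => by
      rw [abg5 s r hn, Complex.norm_real, Real.norm_of_nonneg (by positivity)]
      exact rpow_inv5 hs hn)
  have h4 : ∏ p ∈ S, (1 - Aw s r p - Aw s (-r) p + Aw s r p * Aw s (-r) p * Gw s p) = ((∏ p ∈ S, tf s r p : ℝ) : ℂ) := by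
    rw [Complex.ofReal_prod]
    exact Finset.prod_congr rfl fun p hp => factor5 s r (hS p hp).ne_zero
  rw [h4] at h3
  set P : ℝ := ∏ p ∈ S, tf s r p with hP
  have hP1 : Real.exp (-(2 * c₀)) ≤ P := by
    have h5 : Real.exp (∑ p ∈ S, -(2 * (1 / (p : ℝ)))) ≤ P := by
      rw [Real.exp_sum]
      exact Finset.prod_le_prod (fun p _ => (Real.exp_pos _).le) fun p hp => tf_lower (hS p hp).two_le hs
    refine le_trans (Real.exp_le_exp.2 ?_) h5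
    rw [Finset.sum_neg_distrib, ← Finset.mul_sum]
    linarith
  have hP0 : 0 < P := (Real.exp_pos _).trans_le hP1
  set Q5 := ∑ m ∈ Dn S (2 * l), ∑ n ∈ Dn S (2 * l), (a m : ℂ) * (a n : ℂ) * (Aw s r m * Aw s (-r) n * Gw s (Nat.gcd m n)) with hQ5
  have h5 : ‖Q5‖ ≤ P + 2 * Real.exp (50 * c₀) * (9 / 10) ^ l := by
    calc ‖Q5‖ = ‖(Q5 - (P : ℂ)) + (P : ℂ)‖ := by rw [sub_add_cancel]
      _ ≤ ‖Q5 - (P : ℂ)‖ + ‖(P : ℂ)‖ := norm_add_le _ _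
      _ ≤ 2 * Real.exp (50 * c₀) * (9 / 10) ^ l + P := by
          rw [Complex.norm_real, Real.norm_of_nonneg hP0.le]
          linarith
      _ = _ := by ring
  have h6 : 2 * Real.exp (50 * c₀) * (9 / 10) ^ l ≤ P * (2 * Real.exp (52 * c₀) * (9 / 10) ^ l) := by
    have h7 : Real.exp (50 * c₀) = Real.exp (-(2 * c₀)) * Real.exp (52 * c₀) := by
      rw [← Real.exp_add]
      congr 1
      ring
    rw [h7]
    have h8 : 0 ≤ Real.exp (52 * c₀) * (9 / 10 : ℝ) ^ l := by positivity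
    nlinarith
  calc ‖Q5‖ ≤ P + P * (2 * Real.exp (52 * c₀) * (9 / 10) ^ l) := by linarith
    _ = P * (2 * Real.exp (52 * c₀) * (9 / 10) ^ l + 1) := by ring
    _ ≤ P * Real.exp (2 * Real.exp (52 * c₀) * (9 / 10) ^ l) :=
        mul_le_mul_of_nonneg_left (Real.add_one_le_exp _) hP0.le

private lemma geo5 (b J : ℕ) : ∑ j ∈ range J, (9 / 10 : ℝ) ^ (b + j) ≤ 10 := by
  have h1 : ∑ j ∈ range J, (9 / 10 : ℝ) ^ (b + j) ≤ ∑ j ∈ range J, (9 / 10 : ℝ) ^ j := by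
    refine Finset.sum_le_sum fun j _ => ?_
    exact pow_le_pow_of_le_one (by norm_num) (by norm_num) (by omega)
  have h2 : ∑ j ∈ range J, (9 / 10 : ℝ) ^ j = 10 * (1 - (9 / 10) ^ J) := by
    rw [geom_sum_eq (by norm_num)]
    ring
  have h3 : (0 : ℝ) ≤ (9 / 10) ^ J := by positivity
  linarith

/-- **The twisted form**, from the factorisation over the cells. -/
theorem form_le (hCS : ∃ c₀ : ℝ, 0 < c₀ ∧ ∀ T ε : ℝ, 1 < T → 0 < ε → ∀ (j : ℕ) (S : Finset ℕ), (∀ p ∈ S, InCell T ε j p) →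
    ∑ p ∈ S, 1 / (p : ℝ) ≤ c₀) : ∃ C : ℝ, 0 < C ∧ ∀ (T ε ξ s : ℝ) (b : ℕ) (a : ℕ → ℝ) (S : ℕ → Finset ℕ) (J : ℕ) (Q : ℂ),
    3 ≤ T → 0 < ε → ε ≤ 1 → 0 ≤ s → s ≤ 1 / Real.log T → IsCM T ε b a → (∀ j, ∀ p ∈ S j, InCell T ε j p) →
    (∀ f : ℕ → ℝ, ∏ p ∈ (Icc 1 ⌊T ^ ε⌋₊).filter Nat.Prime, f p = ∏ j ∈ range J, ∏ p ∈ S j, f p) →
    Q = ∏ j ∈ range J, ∑ m ∈ Dn (S j) (2 * (b + j)), ∑ n ∈ Dn (S j) (2 * (b + j)), (a m : ℂ) * (a n : ℂ) *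
      (Aw s (ξ / Real.log T) m * Aw s (-(ξ / Real.log T)) n * Gw s (Nat.gcd m n)) →
    ‖Q‖ ≤ C * (1 + ε * |ξ|) ^ 4 * Vp T ε := by
  obtain ⟨c₀, hc0, hc⟩ := hCS
  obtain ⟨C1, hC1, h1⟩ := euler_le
  refine ⟨C1 * Real.exp (20 * Real.exp (52 * c₀)), by positivity,
    fun T ε ξ s b a S J Q hT hε hε1 hs hs1 ha hS hprod hQ => ?_⟩
  have hSp : ∀ j, ∀ p ∈ S j, p.Prime := fun j p hp => (hS j p hp).1
  have h2 : ∀ j ∈ range J, ‖∑ m ∈ Dn (S j) (2 * (b + j)), ∑ n ∈ Dn (S j) (2 * (b + j)), (a m : ℂ) * (a n : ℂ) *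
      (Aw s (ξ / Real.log T) m * Aw s (-(ξ / Real.log T)) n * Gw s (Nat.gcd m n))‖ ≤
      (∏ p ∈ S j, tf s (ξ / Real.log T) p) * Real.exp (2 * Real.exp (52 * c₀) * (9 / 10) ^ (b + j)) := by
    intro j _
    refine cell_le5 (hSp j) hc0.le (hc T ε (by linarith) hε j (S j) (hS j)) (fun n _ => ha.bd n) (fun n hn => ?_) hs
    rw [mem_Dn (hSp j)] at hn
    refine ha.mu n j hn.1 (fun p hp hpn => hS j p (hn.2.1 p hp hpn)) ?_
    have h3 : Om T ε j n ≤ n.primeFactorsList.length := List.length_filter_le _ _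
    have h4 : ArithmeticFunction.cardFactors n = n.primeFactorsList.length := ArithmeticFunction.cardFactors_apply
    have := hn.2.2
    omega
  have h3 : ‖Q‖ ≤ (∏ p ∈ (Icc 1 ⌊T ^ ε⌋₊).filter Nat.Prime, tf s (ξ / Real.log T) p) *
      Real.exp (20 * Real.exp (52 * c₀)) := by
    rw [hQ, norm_prod]
    refine (Finset.prod_le_prod (fun j _ => norm_nonneg _) h2).trans ?_
    rw [Finset.prod_mul_distrib, hprod, ← Real.exp_sum, ← Finset.mul_sum]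
    have h5 : 0 ≤ ∏ j ∈ range J, ∏ p ∈ S j, tf s (ξ / Real.log T) p :=
      Finset.prod_nonneg fun j _ => Finset.prod_nonneg fun p hp => (tf_pos (hSp j p hp).two_le hs).le
    refine mul_le_mul_of_nonneg_left (Real.exp_le_exp.2 ?_) h5
    have h6 := geo5 b J
    have h7 : 0 < Real.exp (52 * c₀) := Real.exp_pos _
    nlinarith
  have h4 := h1 T ε ξ s hT hε hε1 hs hs1
  calc ‖Q‖ ≤ _ := h3
    _ ≤ (C1 * (1 + ε * |ξ|) ^ 4 * Vp T ε) * Real.exp (20 * Real.exp (52 * c₀)) :=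
        mul_le_mul_of_nonneg_right h4 (Real.exp_pos _).le
    _ = _ := by ring

end Pool.Agent.HG5
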